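import Mathlib

/-!
A function on an interval that is locally constant off a countable set and that cannot jump
upwards is not larger than its initial value.
-/

open Set Filter Topology

namespace Pool.Agent.Helper52.NSE

theorem exists_weight {S : Set ℝ} (hS : S.Countable) {e : ℝ} (he : 0 < e) :
    ∃ W : ℝ → ℝ, Monotone W ∧ (∀ t, 0 ≤ W t) ∧ (∀ t, W t ≤ e) ∧
      ∀ b ∈ S, ∃ ε : ℝ, 0 < ε ∧ (∀ r, r < b → W r + ε ≤ W b) ∧ ∀ s, b < s → W b + ε ≤ W s := by
  obtain ⟨ε', hε', c, hsum, hc⟩ := hS.exists_pos_hasSum_le (half_pos he)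
  let i1 : ℝ → S → ℝ := fun t x => if (x : ℝ) < t then 1 else 0
  let i2 : ℝ → S → ℝ := fun t x => if (x : ℝ) ≤ t then 1 else 0
  let F : ℝ → S → ℝ := fun t x => ε' x * (i1 t x + i2 t x)
  have a1 : ∀ t x, 0 ≤ i1 t x ∧ i1 t x ≤ 1 := fun t x => by
    simp only [i1]; split_ifs <;> norm_num
  have a2 : ∀ t x, 0 ≤ i2 t x ∧ i2 t x ≤ 1 := fun t x => by
    simp only [i2]; split_ifs <;> norm_num
  have hF0 : ∀ t x, 0 ≤ F t x := fun t x =>
    mul_nonneg (hε' _).le (add_nonneg (a1 t x).1 (a2 t x).1)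
  have hF1 : ∀ t x, F t x ≤ 2 * ε' x := fun t x => by
    simp only [F]
    nlinarith [(a1 t x).2, (a2 t x).2, hε' (x : ℝ)]
  have hFs : ∀ t, Summable (F t) := fun t =>
    Summable.of_nonneg_of_le (hF0 t) (hF1 t) (hsum.summable.mul_left 2)
  have m1 : ∀ r t, r ≤ t → ∀ x, i1 r x ≤ i1 t x := by
    intro r t hrt x
    simp only [i1]
    split_ifs with h1 h2 <;> first | linarith | norm_num
  have m2 : ∀ r t, r ≤ t → ∀ x, i2 r x ≤ i2 t x := by
    intro r t hrt x
    simp only [i2]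
    split_ifs with h1 h2 <;> first | linarith | norm_num
  have hFm : ∀ r t, r ≤ t → ∀ x, F r x ≤ F t x := fun r t hrt x =>
    mul_le_mul_of_nonneg_left (add_le_add (m1 r t hrt x) (m2 r t hrt x)) (hε' _).le
  have gain : ∀ r t, r ≤ t → ∀ b : S, F r b + ε' b ≤ F t b →
      ∑' x, F r x + ε' b ≤ ∑' x, F t x := by
    intro r t hrt b hb
    classical
    have h1 : ∑' x, (Pi.single b (ε' b) : S → ℝ) x = ε' b := tsum_pi_single b _
    have h2 : Summable (Pi.single b (ε' b) : S → ℝ) := summable_of_ne_finset_zero (s := {b})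
      fun x hx => by
        rw [Finset.mem_singleton] at hx
        simp [Pi.single_apply, hx]
    rw [← h1, ← (hFs r).tsum_add h2]
    refine ((hFs r).add h2).tsum_le_tsum (fun x => ?_) (hFs t)
    by_cases hx : x = b
    · subst hx
      simpa using hb
    · simp [Pi.single_apply, hx, hFm r t hrt x]
  refine ⟨fun t => ∑' x, F t x, fun r t hrt => (hFs r).tsum_le_tsum (hFm r t hrt) (hFs t),
    fun t => tsum_nonneg (hF0 t), fun t => ?_, ?_⟩
  · refine ((hFs t).tsum_le_tsum (hF1 t) (hsum.summable.mul_left 2)).trans ?_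
    rw [tsum_mul_left, hsum.tsum_eq]
    linarith
  · intro b hb
    refine ⟨ε' b, hε' b, fun r hr => ?_, fun s hs => ?_⟩
    · refine gain r b hr.le ⟨b, hb⟩ ?_
      have e1 : i1 r ⟨b, hb⟩ = 0 := by simp only [i1]; rw [if_neg (by simpa using hr.le)]
      have e2 : i2 r ⟨b, hb⟩ = 0 := by simp only [i2]; rw [if_neg (by simpa using hr)]
      have e3 : i1 b ⟨b, hb⟩ = 0 := by simp only [i1]; rw [if_neg (by simp)]
      have e4 : i2 b ⟨b, hb⟩ = 1 := by simp only [i2]; rw [if_pos (by simp)]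
      simp only [F, e1, e2, e3, e4]
      linarith
    · refine gain b s hs.le ⟨b, hb⟩ ?_
      have e1 : i1 s ⟨b, hb⟩ = 1 := by simp only [i1]; rw [if_pos (by simpa using hs)]
      have e2 : i2 s ⟨b, hb⟩ = 1 := by simp only [i2]; rw [if_pos (by simpa using hs.le)]
      have e3 : i1 b ⟨b, hb⟩ = 0 := by simp only [i1]; rw [if_neg (by simp)]
      have e4 : i2 b ⟨b, hb⟩ = 1 := by simp only [i2]; rw [if_pos (by simp)]
      simp only [F, e1, e2, e3, e4]
      linarith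

theorem countable_lemma {T : ℝ} {D : ℝ → ℝ} {S : Set ℝ} (hS : S.Countable)
    (h1 : ∀ x ∈ Icc 0 T, x ∉ S → ∀ᶠ t in 𝓝[Icc 0 T] x, D t = D x)
    (h2 : ∀ x ∈ Icc 0 T, x ∈ S → ∀ η : ℝ, 0 < η → ∀ᶠ t in 𝓝[Icc 0 T] x, D t ≤ D x + η)
    (h3 : ∀ x ∈ Icc 0 T, x ∈ S → 0 < x → ∀ η : ℝ, 0 < η →
      ∃ s, x - η < s ∧ s < x ∧ 0 ≤ s ∧ D x ≤ D s + η) :
    ∀ t ∈ Icc 0 T, D t ≤ D 0 := by
  intro t ht
  have hT : 0 ≤ T := ht.1.trans ht.2
  refine le_of_forall_pos_le_add fun e he => ?_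
  obtain ⟨W, hWm, hW0, hWe, hWS⟩ := exists_weight hS he
  set A : Set ℝ := {t | t ∈ Icc 0 T ∧ ∀ r ∈ Icc 0 t, D r ≤ D 0 + W r} with hA
  have h0A : (0 : ℝ) ∈ A := by
    refine ⟨⟨le_rfl, hT⟩, fun r hr => ?_⟩
    have : r = 0 := le_antisymm hr.2 hr.1
    subst this
    linarith [hW0 0]
  have hAb : BddAbove A := ⟨T, fun x hx => hx.1.2⟩
  set b := sSup A with hb
  have hb0 : 0 ≤ b := le_csSup hAb h0A
  have hbT : b ≤ T := csSup_le ⟨0, h0A⟩ fun x hx => hx.1.2
  have c1 : ∀ r, 0 ≤ r → r < b → D r ≤ D 0 + W r := by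
    intro r hr hrb
    obtain ⟨x, hx, hrx⟩ := exists_lt_of_lt_csSup ⟨0, h0A⟩ hrb
    exact hx.2 r ⟨hr, hrx.le⟩
  have c2 : D b ≤ D 0 + W b := by
    rcases hb0.eq_or_lt with h0 | h0
    · rw [← h0]; linarith [hW0 0]
    · by_cases hbS : b ∈ S
      · obtain ⟨ε, hε, g1, -⟩ := hWS b hbS
        obtain ⟨s, hs1, hs2, hs3, hs4⟩ := h3 b ⟨hb0, hbT⟩ hbS h0 ε hε
        have := c1 s hs3 hs2
        have := g1 s hs2
        linarith
      · have h4 := h1 b ⟨hb0, hbT⟩ hbS
        rw [eventually_nhdsWithin_iff, Metric.eventually_nhds_iff] at h4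
        obtain ⟨ε, hε, h5⟩ := h4
        have hr0 : 0 ≤ max 0 (b - ε / 2) := le_max_left _ _
        have hr1 : max 0 (b - ε / 2) < b := max_lt h0 (by linarith)
        have hr2 : b - ε / 2 ≤ max 0 (b - ε / 2) := le_max_right _ _
        have h6 := h5 (y := max 0 (b - ε / 2))
          (by rw [Real.dist_eq, abs_lt]; constructor <;> linarith) ⟨hr0, hr1.le.trans hbT⟩
        have h7 := c1 _ hr0 hr1
        have h8 := hWm hr1.le
        linarith
  have c3 : b = T := by
    by_contra hne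
    have hlt : b < T := lt_of_le_of_ne hbT hne
    have key : ∃ s, b < s ∧ s ≤ T ∧ ∀ r, b < r → r ≤ s → D r ≤ D 0 + W r := by
      by_cases hbS : b ∈ S
      · obtain ⟨ε, hε, -, g2⟩ := hWS b hbS
        have h4 := h2 b ⟨hb0, hbT⟩ hbS ε hε
        rw [eventually_nhdsWithin_iff, Metric.eventually_nhds_iff] at h4
        obtain ⟨ρ, hρ, h5⟩ := h4
        refine ⟨min T (b + ρ / 2), lt_min hlt (by linarith), min_le_left _ _, fun r hr hr' => ?_⟩
        have h6 := hr'.trans (min_le_right _ _)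
        have h7 := hr'.trans (min_le_left _ _)
        have h8 := h5 (y := r) (by rw [Real.dist_eq, abs_lt]; constructor <;> linarith)
          ⟨hb0.trans hr.le, h7⟩
        have h9 := g2 r hr
        linarith
      · have h4 := h1 b ⟨hb0, hbT⟩ hbS
        rw [eventually_nhdsWithin_iff, Metric.eventually_nhds_iff] at h4
        obtain ⟨ρ, hρ, h5⟩ := h4
        refine ⟨min T (b + ρ / 2), lt_min hlt (by linarith), min_le_left _ _, fun r hr hr' => ?_⟩
        have h6 := hr'.trans (min_le_right _ _)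
        have h7 := hr'.trans (min_le_left _ _)
        have h8 := h5 (y := r) (by rw [Real.dist_eq, abs_lt]; constructor <;> linarith)
          ⟨hb0.trans hr.le, h7⟩
        have h9 := hWm hr.le
        linarith
    obtain ⟨s, hs1, hs2, hs3⟩ := key
    have hsA : s ∈ A := by
      refine ⟨⟨hb0.trans hs1.le, hs2⟩, fun r hr => ?_⟩
      rcases lt_trichotomy r b with h | h | h
      · exact c1 r hr.1 h
      · rw [h]; exact c2
      · exact hs3 r h hr.2
    exact absurd (le_csSup hAb hsA) (not_le.mpr hs1)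
  rcases ht.2.eq_or_lt with h | h
  · have h4 : D t ≤ D 0 + W t := by rw [h, ← c3]; exact c2
    linarith [hWe t]
  · have h4 := c1 t ht.1 (by rw [c3]; exact h)
    linarith [hWe t]

end Pool.Agent.Helper52.NSE
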