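import Mathlib

/-!
Definitions for the energy equality of Leray-Hopf weak solutions of the Navier-Stokes equations
in a smooth bounded domain of `ℝ³`.
-/

open MeasureTheory Set Filter Topology
open scoped ENNReal ContDiff

namespace Pool.Agent.Helper52.NSE

/-- Three-dimensional Euclidean space. -/
abbrev E3 := EuclideanSpace ℝ (Fin 3)

/-- The domain is bounded, connected, nonempty, and of the form `{r < 0}` with a smooth function
`r` whose derivative does not vanish at the zeros of `r`. -/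
structure IsSmoothBoundedDomain (Ω : Set E3) : Prop where
  conn : IsConnected Ω
  bdd : Bornology.IsBounded Ω
  defining : ∃ r : E3 → ℝ, ContDiff ℝ ∞ r ∧ Ω = {x | r x < 0} ∧ ∀ x, r x = 0 → fderiv ℝ r x ≠ 0

/-- The partial derivative of a vector field in the direction of the `i`-th coordinate. -/
noncomputable def pd (φ : E3 → E3) (i : Fin 3) (x : E3) : E3 :=
  fderiv ℝ φ x (EuclideanSpace.single i 1)

/-- The divergence of a vector field. -/
noncomputable def divg (φ : E3 → E3) (x : E3) : ℝ := ∑ i, (pd φ i x) i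

/-- Smooth divergence-free vector fields with compact support in `Ω`. -/
structure TestField (Ω : Set E3) (φ : E3 → E3) : Prop where
  smooth : ContDiff ℝ ∞ φ
  compact : HasCompactSupport φ
  supp : tsupport φ ⊆ Ω
  div : ∀ x, divg φ x = 0

/-- The field `w` belongs to `L²_σ(Ω)`: it is the limit in `L²(Ω)³` of test fields. -/
def MemL2s (Ω : Set E3) (w : E3 → E3) : Prop :=
  AEStronglyMeasurable w (volume.restrict Ω) ∧
    ∀ ε : ℝ≥0∞, 0 < ε → ∃ φ, TestField Ω φ ∧ eLpNorm (fun x => w x - φ x) 2 (volume.restrict Ω) < ε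

/-- The field `w` belongs to `H¹_{0,σ}(Ω)` and `G i` is its partial derivative in the direction
of the `i`-th coordinate: `(w, G)` is the limit in `L²(Ω)` of pairs `(φ, ∇φ)` with test fields
`φ`. -/
def MemH1s (Ω : Set E3) (w : E3 → E3) (G : Fin 3 → E3 → E3) : Prop :=
  AEStronglyMeasurable w (volume.restrict Ω) ∧
    (∀ i, AEStronglyMeasurable (G i) (volume.restrict Ω)) ∧
    ∀ ε : ℝ≥0∞, 0 < ε → ∃ φ, TestField Ω φ ∧
      eLpNorm (fun x => w x - φ x) 2 (volume.restrict Ω) < ε ∧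
      ∀ i, eLpNorm (fun x => G i x - pd φ i x) 2 (volume.restrict Ω) < ε

/-- The kinetic energy `k = ½ ‖w‖²`. -/
noncomputable def kin (Ω : Set E3) (w : E3 → E3) : ℝ := (1 / 2) * ∫ x in Ω, ‖w x‖ ^ 2

/-- The dissipation rate per unit volume `ε = ν / |Ω| ‖∇w‖²`. -/
noncomputable def diss (Ω : Set E3) (ν : ℝ) (G : Fin 3 → E3 → E3) : ℝ :=
  ν / (volume Ω).toReal * ∫ x in Ω, ∑ i, ‖G i x‖ ^ 2

/-- The power `P = ∫ f · w`. -/
noncomputable def power (Ω : Set E3) (f w : E3 → E3) : ℝ := ∫ x in Ω, inner ℝ (f x) (w x)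

/-- The right-hand side of the weak formulation at one time:
`-ν ∫ ∇u : ∇φ + ∫ (u · ∇φ) · u + ∫ f · φ`. -/
noncomputable def rhs (Ω : Set E3) (ν : ℝ) (f u : E3 → E3) (G : Fin 3 → E3 → E3) (φ : E3 → E3) :
    ℝ :=
  -ν * (∫ x in Ω, ∑ i, inner ℝ (G i x) (pd φ i x)) +
    (∫ x in Ω, ∑ i, (u x) i * inner ℝ (u x) (pd φ i x)) + ∫ x in Ω, inner ℝ (f x) (φ x)

/-- `u` is a Leray-Hopf weak solution on `[0, T]` with initial value `u₀` and force `f`; the
family `G` is the gradient of `u`. -/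
structure IsWeakSolution (Ω : Set E3) (ν T : ℝ) (u₀ : E3 → E3) (f u : ℝ → E3 → E3)
    (G : ℝ → Fin 3 → E3 → E3) : Prop where
  /-- `u₀ ∈ L²_σ` -/
  init_mem : MemL2s Ω u₀
  /-- `f ∈ L²(0, T; L²_σ)` -/
  force_meas : AEStronglyMeasurable (fun q : ℝ × E3 => f q.1 q.2)
    ((volume.restrict (Icc 0 T)).prod (volume.restrict Ω))
  force_mem : ∀ᵐ t ∂(volume.restrict (Icc 0 T)), MemL2s Ω (f t)
  force_int : IntegrableOn (fun t => ∫ x in Ω, ‖f t x‖ ^ 2) (Icc 0 T)
  /-- `u ∈ L^∞(0, T; L²_σ)` -/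
  meas : AEStronglyMeasurable (fun q : ℝ × E3 => u q.1 q.2)
    ((volume.restrict (Icc 0 T)).prod (volume.restrict Ω))
  mem : ∀ t ∈ Icc 0 T, MemL2s Ω (u t)
  bound : ∃ K : ℝ, ∀ t ∈ Icc 0 T, ∫ x in Ω, ‖u t x‖ ^ 2 ≤ K
  /-- `u ∈ L²(0, T; H¹_{0,σ})` with gradient `G` -/
  grad_meas : ∀ i, AEStronglyMeasurable (fun q : ℝ × E3 => G q.1 i q.2)
    ((volume.restrict (Icc 0 T)).prod (volume.restrict Ω))
  grad_mem : ∀ᵐ t ∂(volume.restrict (Icc 0 T)), MemH1s Ω (u t) (G t)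
  grad_int : IntegrableOn (fun t => ∫ x in Ω, ∑ i, ‖G t i x‖ ^ 2) (Icc 0 T)
  /-- weak continuity in time -/
  weak_cont : ∀ φ : E3 → E3, MemLp φ 2 (volume.restrict Ω) →
    ContinuousOn (fun t => ∫ x in Ω, inner ℝ (u t x) (φ x)) (Icc 0 T)
  /-- initial value -/
  init : u 0 =ᵐ[volume.restrict Ω] u₀
  /-- the equations, tested with divergence-free fields and integrated in time -/
  eqn : ∀ φ, TestField Ω φ → ∀ s t, 0 ≤ s → s ≤ t → t ≤ T →
    (∫ x in Ω, inner ℝ (u t x) (φ x)) - (∫ x in Ω, inner ℝ (u s x) (φ x)) =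
      ∫ τ in s..t, rhs Ω ν (f τ) (u τ) (G τ) φ
  /-- the energy inequality -/
  energy : ∀ t ∈ Icc 0 T, kin Ω (u t) + (volume Ω).toReal * (∫ τ in (0)..t, diss Ω ν (G τ)) ≤
    kin Ω (u 0) + ∫ τ in (0)..t, power Ω (f τ) (u τ)

/-- The energy defect: the difference of the two sides of the energy inequality. -/
noncomputable def defect (Ω : Set E3) (ν : ℝ) (f u : ℝ → E3 → E3) (G : ℝ → Fin 3 → E3 → E3)
    (t : ℝ) : ℝ :=
  kin Ω (u 0) + (∫ τ in (0)..t, power Ω (f τ) (u τ)) - kin Ω (u t) -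
    (volume Ω).toReal * ∫ τ in (0)..t, diss Ω ν (G τ)

/-- The energy-irregular times: the times in `[0, T]` without a neighbourhood in `[0, T]` on
which the energy defect is constant. -/
def irregular (Ω : Set E3) (ν T : ℝ) (f u : ℝ → E3 → E3) (G : ℝ → Fin 3 → E3 → E3) : Set ℝ :=
  {t ∈ Icc 0 T | ¬ ∀ᶠ s in 𝓝[Icc 0 T] t, defect Ω ν f u G s = defect Ω ν f u G t}

end Pool.Agent.Helper52.NSE
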