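import Pool.Agent.Helper52.NSE.Kernel

/-!
The smoothed field is a test field.
-/

open MeasureTheory Set Filter Topology Metric
open scoped ENNReal

namespace Pool.Agent.Helper52.NSE

theorem ei_sum (v : E3) : v = ∑ i, v i • EuclideanSpace.single i (1 : ℝ) := by
  ext j
  simp [Pi.single_apply]

theorem clm_sum (l : E3 →L[ℝ] ℝ) (v : E3) :
    l v = ∑ i, l (EuclideanSpace.single i 1) * v i := by
  conv_lhs => rw [ei_sum v]
  rw [map_sum]
  refine Finset.sum_congr rfl fun i _ => ?_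
  rw [map_smul, smul_eq_mul, mul_comm]

theorem fderiv_coord {φ : E3 → E3} (hφ : Differentiable ℝ φ) (i : Fin 3) (x v : E3) :
    fderiv ℝ (fun x => (φ x) i) x v = (fderiv ℝ φ x v) i := by
  have h := ((EuclideanSpace.proj i : E3 →L[ℝ] ℝ).hasFDerivAt.comp x (hφ x).hasFDerivAt)
  have h2 : (fun x => (φ x) i) = (EuclideanSpace.proj i : E3 →L[ℝ] ℝ) ∘ φ := rfl
  rw [h2, h.fderiv]
  rfl

/-- Integration by parts for a test field. -/
theorem test_orth {Ω : Set E3} {φ : E3 → E3} (hφ : TestField Ω φ) {q : E3 → ℝ}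
    (hq : ContDiff ℝ 1 q) : ∫ x, fderiv ℝ q x (φ x) = 0 := by
  have hφ1 : ContDiff ℝ 1 φ := hφ.smooth.of_le (by simp)
  have hφd : Differentiable ℝ φ := hφ1.differentiable one_ne_zero
  have hc : ∀ i : Fin 3, HasCompactSupport fun x => (φ x) i := fun i =>
    hφ.compact.comp_left (g := fun v : E3 => v i) rfl
  have hcd : ∀ i : Fin 3, ContDiff ℝ 1 fun x => (φ x) i := fun i =>
    (EuclideanSpace.proj i : E3 →L[ℝ] ℝ).contDiff.comp hφ1
  have h1 : ∀ x, fderiv ℝ q x (φ x) = ∑ i, fderiv ℝ q x (EuclideanSpace.single i 1) * (φ x) i :=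
    fun x => clm_sum _ _
  have hqd : Continuous (fderiv ℝ q) := hq.continuous_fderiv one_ne_zero
  have hi1 : ∀ i : Fin 3, Integrable (fun x => fderiv ℝ q x (EuclideanSpace.single i 1) *
      (φ x) i) volume := fun i =>
    Continuous.integrable_of_hasCompactSupport
      ((hqd.clm_apply continuous_const).mul (hcd i).continuous) (hc i).mul_left
  have hi2 : ∀ i : Fin 3, Integrable (fun x => q x * fderiv ℝ (fun x => (φ x) i) x
      (EuclideanSpace.single i 1)) volume := fun i =>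
    Continuous.integrable_of_hasCompactSupport
      (hq.continuous.mul (((hcd i).continuous_fderiv one_ne_zero).clm_apply continuous_const))
      (HasCompactSupport.mul_left ((hc i).fderiv_apply (𝕜 := ℝ) _))
  have hi3 : ∀ i : Fin 3, Integrable (fun x => q x * (φ x) i) volume := fun i =>
    Continuous.integrable_of_hasCompactSupport (hq.continuous.mul (hcd i).continuous)
      (hc i).mul_left
  simp only [h1]
  rw [integral_finsetSum _ fun i _ => hi1 i]
  have h2 : ∀ i : Fin 3, ∫ x, fderiv ℝ q x (EuclideanSpace.single i 1) * (φ x) i =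
      -∫ x, q x * fderiv ℝ (fun x => (φ x) i) x (EuclideanSpace.single i 1) := by
    intro i
    rw [integral_mul_fderiv_eq_neg_fderiv_mul_of_integrable (hi1 i) (hi2 i) (hi3 i)
      (fun x _ => hq.differentiable one_ne_zero x)
      (fun x _ => (hcd i).differentiable one_ne_zero x), neg_neg]
  simp only [h2]
  rw [Finset.sum_neg_distrib, neg_eq_zero, ← integral_finsetSum _ fun i _ => hi2 i]
  have h3 : ∀ x, ∑ i, q x * fderiv ℝ (fun x => (φ x) i) x (EuclideanSpace.single i 1) = 0 := by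
    intro x
    rw [← Finset.mul_sum]
    have h4 : ∑ i, fderiv ℝ (fun x => (φ x) i) x (EuclideanSpace.single i 1) = divg φ x := by
      unfold divg pd
      exact Finset.sum_congr rfl fun i _ => fderiv_coord hφd i x _
    rw [h4, hφ.div x, mul_zero]
  simp [h3]

theorem TestField.memLp {Ω : Set E3} {φ : E3 → E3} (hφ : TestField Ω φ) (μ : Measure E3)
    [IsFiniteMeasureOnCompacts μ] (p : ℝ≥0∞) : MemLp φ p μ :=
  hφ.smooth.continuous.memLp_of_hasCompactSupport hφ.compact

theorem TestField.pd_cont {Ω : Set E3} {φ : E3 → E3} (hφ : TestField Ω φ) (i : Fin 3) :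
    Continuous (pd φ i) :=
  (hφ.smooth.continuous_fderiv (by simp)).clm_apply continuous_const

theorem TestField.pd_compact {Ω : Set E3} {φ : E3 → E3} (hφ : TestField Ω φ) (i : Fin 3) :
    HasCompactSupport (pd φ i) := hφ.compact.fderiv_apply (𝕜 := ℝ) _

theorem TestField.pd_memLp {Ω : Set E3} {φ : E3 → E3} (hφ : TestField Ω φ) (i : Fin 3)
    (μ : Measure E3) [IsFiniteMeasureOnCompacts μ] (p : ℝ≥0∞) : MemLp (pd φ i) p μ :=
  (hφ.pd_cont i).memLp_of_hasCompactSupport (hφ.pd_compact i)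

theorem MemL2s.memLp {Ω : Set E3} {w : E3 → E3} (hw : MemL2s Ω w) :
    MemLp w 2 (volume.restrict Ω) := by
  obtain ⟨φ, hφ, h⟩ := hw.2 1 one_pos
  have h1 : MemLp (fun x => w x - φ x) 2 (volume.restrict Ω) :=
    ⟨hw.1.sub hφ.smooth.continuous.aestronglyMeasurable, h.trans ENNReal.one_lt_top⟩
  have h2 := h1.add (hφ.memLp (volume.restrict Ω) 2)
  refine h2.ae_eq (Eventually.of_forall fun x => ?_)
  simp

theorem MemH1s.toL2 {Ω : Set E3} {w : E3 → E3} {G : Fin 3 → E3 → E3} (hw : MemH1s Ω w G) :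
    MemL2s Ω w := ⟨hw.1, fun ε hε => by
  obtain ⟨φ, h1, h2, -⟩ := hw.2.2 ε hε
  exact ⟨φ, h1, h2⟩⟩

theorem MemH1s.grad_memLp {Ω : Set E3} {w : E3 → E3} {G : Fin 3 → E3 → E3}
    (hw : MemH1s Ω w G) (i : Fin 3) : MemLp (G i) 2 (volume.restrict Ω) := by
  obtain ⟨φ, hφ, -, h⟩ := hw.2.2 1 one_pos
  have h1 : MemLp (fun x => G i x - pd φ i x) 2 (volume.restrict Ω) :=
    ⟨(hw.2.1 i).sub (hφ.pd_cont i).aestronglyMeasurable, (h i).trans ENNReal.one_lt_top⟩
  have h2 := h1.add (hφ.pd_memLp i (volume.restrict Ω) 2)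
  refine h2.ae_eq (Eventually.of_forall fun x => ?_)
  simp

/-- Elements of `L²_σ` are orthogonal to gradients. -/
theorem orth {Ω : Set E3} (hO : IsOpen Ω) (hb : Bornology.IsBounded Ω) {w : E3 → E3}
    (hw : MemL2s Ω w) {q : E3 → ℝ} (hq : ContDiff ℝ 1 q) {C : ℝ}
    (hC : ∀ x, ‖fderiv ℝ q x‖ ≤ C) : ∫ x in Ω, fderiv ℝ q x (w x) = 0 := by
  have hfin : IsFiniteMeasure (volume.restrict Ω) := ⟨by
    rw [Measure.restrict_apply_univ]
    exact hb.measure_lt_top⟩
  have hC0 : 0 ≤ C := (norm_nonneg _).trans (hC 0)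
  have hqd : Continuous (fderiv ℝ q) := hq.continuous_fderiv one_ne_zero
  -- the linear functional is small
  have hmeas : ∀ {g : E3 → E3}, AEStronglyMeasurable g (volume.restrict Ω) →
      AEStronglyMeasurable (fun x => fderiv ℝ q x (g x)) (volume.restrict Ω) := fun hg =>
    (ContinuousLinearMap.id ℝ (E3 →L[ℝ] ℝ)).aestronglyMeasurable_comp₂
      hqd.aestronglyMeasurable hg
  have hint : ∀ {g : E3 → E3}, Integrable g (volume.restrict Ω) →
      Integrable (fun x => fderiv ℝ q x (g x)) (volume.restrict Ω) := fun hg =>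
    (hg.norm.const_mul C).mono' (hmeas hg.1) (Eventually.of_forall fun x =>
      (ContinuousLinearMap.le_opNorm _ _).trans
        (mul_le_mul_of_nonneg_right (hC x) (norm_nonneg _)))
  have hwint : Integrable w (volume.restrict Ω) := hw.memLp.integrable (by norm_num)
  have key : ∀ ε : ℝ≥0∞, 0 < ε → ‖∫ x in Ω, fderiv ℝ q x (w x)‖ₑ ≤
      ENNReal.ofReal C * (ε * (volume Ω) ^ (1 / 2 : ℝ)) := by
    intro ε hε
    obtain ⟨φ, hφ, h⟩ := hw.2 ε hε
    have hφint : Integrable φ (volume.restrict Ω) :=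
      (hφ.memLp (volume.restrict Ω) 2).integrable (by norm_num)
    have h1 : ∫ x in Ω, fderiv ℝ q x (φ x) = 0 := by
      rw [← test_orth hφ hq]
      refine setIntegral_eq_integral_of_forall_compl_eq_zero fun x hx => ?_
      have : φ x = 0 := image_eq_zero_of_notMem_tsupport fun h => hx (hφ.supp h)
      rw [this, map_zero]
    have h2 : ∫ x in Ω, fderiv ℝ q x (w x) = ∫ x in Ω, fderiv ℝ q x (w x - φ x) := by
      simp only [map_sub]
      rw [integral_sub (hint hwint) (hint hφint), h1, sub_zero]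
    rw [h2]
    refine (enorm_integral_le_lintegral_enorm _).trans ?_
    have h3 : ∫⁻ x in Ω, ‖fderiv ℝ q x (w x - φ x)‖ₑ ≤
        ∫⁻ x in Ω, ENNReal.ofReal C * ‖w x - φ x‖ₑ := by
      refine lintegral_mono fun x => ?_
      refine (ContinuousLinearMap.le_opENorm _ _).trans (mul_le_mul_left ?_ _)
      rw [← ofReal_norm]
      exact ENNReal.ofReal_le_ofReal (hC x)
    refine h3.trans ?_
    rw [lintegral_const_mul' _ _ ENNReal.ofReal_ne_top]
    refine mul_le_mul_right ?_ _
    have h4 := eLpNorm_le_eLpNorm_mul_rpow_measure_univ (μ := volume.restrict Ω)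
      (f := fun x => w x - φ x) (p := 1) (q := 2) (by norm_num)
      (hw.1.sub hφ.smooth.continuous.aestronglyMeasurable)
    rw [eLpNorm_one_eq_lintegral_enorm, Measure.restrict_apply_univ] at h4
    refine h4.trans (mul_le_mul' h.le (le_of_eq ?_))
    norm_num
  have hv : (volume Ω) ^ (1 / 2 : ℝ) ≠ ⊤ :=
    ENNReal.rpow_ne_top_of_nonneg (by norm_num) hb.measure_lt_top.ne
  have hzero : ‖∫ x in Ω, fderiv ℝ q x (w x)‖ₑ = 0 := by
    by_contra h0
    set a := ‖∫ x in Ω, fderiv ℝ q x (w x)‖ₑ with ha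
    have ha' : a ≠ ⊤ := enorm_ne_top
    set D := ENNReal.ofReal C * (volume Ω) ^ (1 / 2 : ℝ) with hD
    have hD' : D ≠ ⊤ := ENNReal.mul_ne_top ENNReal.ofReal_ne_top hv
    have h5 := key (a / (2 * (D + 1))) (ENNReal.div_pos h0 (by finiteness))
    have h6 : ENNReal.ofReal C * (a / (2 * (D + 1)) * (volume Ω) ^ (1 / 2 : ℝ)) =
        a / (2 * (D + 1)) * D := by
      rw [hD]
      ring
    rw [h6] at h5
    have h7 : a / (2 * (D + 1)) * D ≤ a / 2 := by
      have h8 : a / (2 * (D + 1)) * D ≤ a / (2 * (D + 1)) * (D + 1) :=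
        mul_le_mul_right (le_self_add) _
      refine h8.trans (le_of_eq ?_)
      rw [ENNReal.div_eq_inv_mul, ENNReal.mul_inv (by simp) (by simp), ENNReal.div_eq_inv_mul]
      have h9 : (D + 1)⁻¹ * (D + 1) = 1 := ENNReal.inv_mul_cancel (by simp) (by finiteness)
      calc (2 : ℝ≥0∞)⁻¹ * (D + 1)⁻¹ * a * (D + 1) = (2 : ℝ≥0∞)⁻¹ * a * ((D + 1)⁻¹ * (D + 1)) := by
            ring
        _ = (2 : ℝ≥0∞)⁻¹ * a := by rw [h9, mul_one]
    have h10 : a / 2 < a := ENNReal.half_lt_self h0 ha'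
    exact absurd (h5.trans h7) (not_le.mpr h10)
  exact enorm_eq_zero.mp hzero

section

variable {V : E3 → E3} {M L : ℝ} (hV : PushData V M L) {δ : ℝ}

include hV

theorem eta_comp_fderiv (hδ : 0 < δ) (y x v : E3) :
    fderiv ℝ (fun x => eta δ (y - Tm V δ x)) x v =
      -fderiv ℝ (eta δ) (y - Tm V δ x) (v - δ • fderiv ℝ V x v) := by
  have h1 : HasFDerivAt (Tm V δ) (ContinuousLinearMap.id ℝ E3 - δ • fderiv ℝ V x) x :=
    (hasFDerivAt_id x).sub ((hV.smooth.differentiable (by simp) x).hasFDerivAt.const_smul δ)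
  have h2 : HasFDerivAt (fun x => y - Tm V δ x)
      (-(ContinuousLinearMap.id ℝ E3 - δ • fderiv ℝ V x)) x := h1.const_sub y
  have h3 := ((eta_contDiff (δ := δ)).differentiable (by simp) (y - Tm V δ x)).hasFDerivAt
  have h4 := h3.comp x h2
  have h5 : fderiv ℝ (fun x => eta δ (y - Tm V δ x)) x =
      (fderiv ℝ (eta δ) (y - Tm V δ x)).comp
        (-(ContinuousLinearMap.id ℝ E3 - δ • fderiv ℝ V x)) := h4.fderiv
  rw [h5]
  simp

theorem Psi_div {Ω : Set E3} (hO : IsOpen Ω) (hb : Bornology.IsBounded Ω) {w : E3 → E3}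
    (hw : MemL2s Ω w) (hδ : 0 < δ) (hδ1 : δ ≤ 1) (y : E3) :
    divg (Psi V δ (Ω.indicator w)) y = 0 := by
  have hfin : IsFiniteMeasure (volume.restrict Ω) := ⟨by
    rw [Measure.restrict_apply_univ]
    exact hb.measure_lt_top⟩
  have hwint : Integrable (Ω.indicator w) volume :=
    (integrable_indicator_iff hO.measurableSet).mpr (hw.memLp.integrable (by norm_num))
  have hl := lift_integrable hV hδ hδ1 hwint
  have hcT : Continuous (Tm V δ) := (Tm_contDiff hV).continuous
  have hcd : Continuous (fderiv ℝ (eta δ)) := eta_contDiff.continuous_fderiv (by simp)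
  obtain ⟨B, hB0, -, hB⟩ := exists_B
  have hi : ∀ i : Fin 3, Integrable (fun x => (fderiv ℝ (eta δ) (y - Tm V δ x)
      (EuclideanSpace.single i 1)) • lift V δ (Ω.indicator w) x) volume := by
    intro i
    refine (hl.norm.const_mul (B * (δ ^ 4)⁻¹)).mono' (AEStronglyMeasurable.smul
      ((hcd.comp (continuous_const.sub hcT)).clm_apply continuous_const).aestronglyMeasurable
      hl.1) (Eventually.of_forall fun x => ?_)
    rw [norm_smul]
    refine mul_le_mul_of_nonneg_right ?_ (norm_nonneg _)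
    refine (ContinuousLinearMap.le_opNorm _ _).trans ?_
    rw [PiLp.norm_single, norm_one, mul_one]
    exact eta_fderiv_bound hδ hB _
  unfold divg
  simp only [Psi_pd hV hδ hδ1 hwint]
  have h1 : ∀ i : Fin 3, (∫ x, (fderiv ℝ (eta δ) (y - Tm V δ x) (EuclideanSpace.single i 1)) •
      lift V δ (Ω.indicator w) x) i = ∫ x, (fderiv ℝ (eta δ) (y - Tm V δ x)
        (EuclideanSpace.single i 1)) * (lift V δ (Ω.indicator w) x) i := by
    intro i
    have h2 := (EuclideanSpace.proj i : E3 →L[ℝ] ℝ).integral_comp_comm (hi i)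
    exact h2.symm
  simp only [h1]
  have hi' : ∀ i : Fin 3, Integrable (fun x => (fderiv ℝ (eta δ) (y - Tm V δ x)
      (EuclideanSpace.single i 1)) * (lift V δ (Ω.indicator w) x) i) volume := fun i =>
    (EuclideanSpace.proj i : E3 →L[ℝ] ℝ).integrable_comp (hi i)
  rw [← integral_finsetSum _ fun i _ => hi' i]
  have h3 : ∀ x, ∑ i, (fderiv ℝ (eta δ) (y - Tm V δ x) (EuclideanSpace.single i 1)) *
      (lift V δ (Ω.indicator w) x) i = Ω.indicator (fun x =>
        -fderiv ℝ (fun x => eta δ (y - Tm V δ x)) x (w x)) x := by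
    intro x
    rw [← clm_sum]
    by_cases hx : x ∈ Ω
    · rw [indicator_of_mem hx, eta_comp_fderiv hV hδ, neg_neg]
      unfold lift
      rw [indicator_of_mem hx]
    · rw [indicator_of_notMem hx]
      unfold lift
      rw [indicator_of_notMem hx]
      simp
  simp only [h3]
  rw [integral_indicator hO.measurableSet, integral_neg, neg_eq_zero]
  have hq : ContDiff ℝ 1 (fun x => eta δ (y - Tm V δ x)) :=
    (eta_contDiff.comp (contDiff_const.sub (Tm_contDiff hV))).of_le (by simp)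
  refine orth hO hb hw hq (C := B * (δ ^ 4)⁻¹ * (1 + L)) fun x => ?_
  have hL := hV.L0
  refine ContinuousLinearMap.opNorm_le_bound _ (by positivity) fun v => ?_
  rw [eta_comp_fderiv hV hδ, norm_neg, mul_assoc]
  refine (ContinuousLinearMap.le_opNorm _ _).trans ?_
  refine mul_le_mul (eta_fderiv_bound hδ hB _) ?_ (norm_nonneg _) (by positivity)
  exact lift_norm hV hδ hδ1 (fun _ => v) x

theorem Psi_test {Ω : Set E3} (hO : IsOpen Ω) (hb : Bornology.IsBounded Ω) {w : E3 → E3}
    (hw : MemL2s Ω w) (hδ : 0 < δ) (hδ1 : δ ≤ 1) (hδL : δ * L ≤ 1 / 2) {K : Set E3}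
    (hK : IsCompact K) (hKΩ : K ⊆ Ω)
    (h : ∀ x ∈ Ω, ∀ y, ‖y - (x - δ • V x)‖ ≤ δ → y ∈ K) :
    TestField Ω (Psi V δ (Ω.indicator w)) := by
  have hfin : IsFiniteMeasure (volume.restrict Ω) := ⟨by
    rw [Measure.restrict_apply_univ]
    exact hb.measure_lt_top⟩
  have hwint : Integrable (Ω.indicator w) volume :=
    (integrable_indicator_iff hO.measurableSet).mpr (hw.memLp.integrable (by norm_num))
  have hsupp : ∀ y, y ∉ K → Psi V δ (Ω.indicator w) y = 0 := by
    intro y hy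
    unfold Psi
    have : ∀ x, eta δ (y - Tm V δ x) • lift V δ (Ω.indicator w) x = 0 := by
      intro x
      by_cases hx : x ∈ Ω
      · have h1 : δ ≤ ‖y - Tm V δ x‖ := by
          by_contra h2
          exact hy (h x hx y (not_le.mp h2).le)
        rw [eta_zero hδ h1, zero_smul]
      · unfold lift
        rw [indicator_of_notMem hx]
        simp
    simp [this]
  have hts : tsupport (Psi V δ (Ω.indicator w)) ⊆ K := by
    refine closure_minimal ?_ hK.isClosed
    intro y hy
    by_contra h1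
    exact hy (hsupp y h1)
  exact ⟨Psi_contDiff hV hδ hδ1 hδL hwint, hK.of_isClosed_subset (isClosed_tsupport _) hts,
    hts.trans hKΩ, Psi_div hV hO hb hw hδ hδ1⟩

end

end Pool.Agent.Helper52.NSE
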