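import Pool.Agent.Helper52.NSE.Smooth

/-!
The energy drop inequality.
-/

open MeasureTheory Set Filter Topology Metric
open scoped ENNReal

namespace Pool.Agent.Helper52.NSE

/-- the `L²(Ω)` norm as a real number -/
noncomputable def nm (Ω : Set E3) (g : E3 → E3) : ℝ := Real.sqrt (∫ x in Ω, ‖g x‖ ^ 2)

theorem nm_nonneg (Ω : Set E3) (g : E3 → E3) : 0 ≤ nm Ω g := Real.sqrt_nonneg _

theorem nm_sq (Ω : Set E3) (g : E3 → E3) : nm Ω g ^ 2 = ∫ x in Ω, ‖g x‖ ^ 2 :=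
  Real.sq_sqrt (integral_nonneg fun x => by positivity)

theorem sq_int {Ω : Set E3} {g : E3 → E3} (hg : MemLp g 2 (volume.restrict Ω)) :
    Integrable (fun x => ‖g x‖ ^ 2) (volume.restrict Ω) :=
  (memLp_two_iff_integrable_sq_norm hg.1).mp hg

theorem nm_eq {Ω : Set E3} {g : E3 → E3} (hg : MemLp g 2 (volume.restrict Ω)) :
    eLpNorm g 2 (volume.restrict Ω) = ENNReal.ofReal (nm Ω g) := by
  have h1 : eLpNorm g 2 (volume.restrict Ω) ^ 2 = ENNReal.ofReal (nm Ω g) ^ 2 := by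
    rw [enorm_sq_lint, ← ENNReal.ofReal_pow (nm_nonneg _ _), nm_sq,
      ofReal_integral_eq_lintegral_ofReal (sq_int hg) (Eventually.of_forall fun x => by positivity)]
    refine lintegral_congr fun x => ?_
    rw [← ofReal_norm, ENNReal.ofReal_pow (norm_nonneg _)]
  exact le_antisymm (enn_sq_le h1.le) (enn_sq_le h1.ge)

/-- Cauchy-Schwarz -/
theorem cs {Ω : Set E3} {f g : E3 → E3} (hf : MemLp f 2 (volume.restrict Ω))
    (hg : MemLp g 2 (volume.restrict Ω)) : |∫ x in Ω, inner ℝ (f x) (g x)| ≤ nm Ω f * nm Ω g := by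
  have h1 : ∫ x in Ω, inner ℝ (f x) (g x) = inner ℝ (hf.toLp f) (hg.toLp g) := by
    rw [L2.inner_def]
    refine integral_congr_ae ?_
    filter_upwards [hf.coeFn_toLp, hg.coeFn_toLp] with x h1 h2
    rw [h1, h2]
  have h2 : ∀ {f : E3 → E3} (hf : MemLp f 2 (volume.restrict Ω)), ‖hf.toLp f‖ = nm Ω f := by
    intro f hf
    rw [Lp.norm_toLp, nm_eq hf, ENNReal.toReal_ofReal (nm_nonneg _ _)]
  rw [h1]
  refine (abs_real_inner_le_norm _ _).trans ?_
  rw [h2, h2]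

theorem inner_int {Ω : Set E3} {f g : E3 → E3} (hf : MemLp f 2 (volume.restrict Ω))
    (hg : MemLp g 2 (volume.restrict Ω)) :
    Integrable (fun x => inner ℝ (f x) (g x)) (volume.restrict Ω) := by
  have h1 := L2.integrable_inner (𝕜 := ℝ) (hf.toLp f) (hg.toLp g)
  refine h1.congr ?_
  filter_upwards [hf.coeFn_toLp, hg.coeFn_toLp] with x h1 h2
  rw [h1, h2]

/-- comparison of kinetic energies -/
theorem kin_sub_le {Ω : Set E3} {a b ψ : E3 → E3} (ha : MemLp a 2 (volume.restrict Ω))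
    (hb : MemLp b 2 (volume.restrict Ω)) (hψ : MemLp ψ 2 (volume.restrict Ω)) :
    kin Ω a - kin Ω b ≤ (∫ x in Ω, inner ℝ (a x) (ψ x)) - (∫ x in Ω, inner ℝ (b x) (ψ x)) +
      nm Ω (fun x => a x - ψ x) ^ 2 / 2 := by
  rw [nm_sq]
  unfold kin
  have i1 := sq_int ha
  have i2 := sq_int hb
  have i3 := inner_int ha hψ
  have i4 := inner_int hb hψ
  have i5 := sq_int (ha.sub hψ)
  have e1 : (1 / 2) * (∫ x in Ω, ‖a x‖ ^ 2) - (1 / 2) * ∫ x in Ω, ‖b x‖ ^ 2 =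
      ∫ x in Ω, ((1 / 2) * ‖a x‖ ^ 2 - (1 / 2) * ‖b x‖ ^ 2) := by
    rw [integral_sub (i1.const_mul _) (i2.const_mul _), integral_const_mul, integral_const_mul]
  have e2 : (∫ x in Ω, inner ℝ (a x) (ψ x)) - (∫ x in Ω, inner ℝ (b x) (ψ x)) +
      (∫ x in Ω, ‖a x - ψ x‖ ^ 2) / 2 =
      ∫ x in Ω, (inner ℝ (a x) (ψ x) - inner ℝ (b x) (ψ x) + ‖a x - ψ x‖ ^ 2 / 2) := by
    have i6 : Integrable (fun x => ‖a x - ψ x‖ ^ 2 / 2) (volume.restrict Ω) := i5.div_const 2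
    have i7 : Integrable (fun x => inner ℝ (a x) (ψ x) - inner ℝ (b x) (ψ x))
        (volume.restrict Ω) := i3.sub i4
    rw [integral_add i7 i6, integral_sub i3 i4, integral_div]
  rw [e1, e2]
  refine integral_mono ((i1.const_mul _).sub (i2.const_mul _))
    ((i3.sub i4).add (i5.div_const 2)) fun x => ?_
  have h1 : ‖a x - ψ x‖ ^ 2 = ‖a x‖ ^ 2 - 2 * inner ℝ (a x) (ψ x) + ‖ψ x‖ ^ 2 :=
    norm_sub_sq_real _ _
  have h2 : ‖b x - ψ x‖ ^ 2 = ‖b x‖ ^ 2 - 2 * inner ℝ (b x) (ψ x) + ‖ψ x‖ ^ 2 :=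
    norm_sub_sq_real _ _
  have h3 : 0 ≤ ‖b x - ψ x‖ ^ 2 := by positivity
  simp only [Pi.sub_apply, Pi.add_apply]
  linarith

/-- the squared norm of the gradient -/
noncomputable def gsq (Ω : Set E3) (G : Fin 3 → E3 → E3) : ℝ := ∫ x in Ω, ∑ i, ‖G i x‖ ^ 2

theorem gsq_nonneg (Ω : Set E3) (G : Fin 3 → E3 → E3) : 0 ≤ gsq Ω G :=
  integral_nonneg fun x => Finset.sum_nonneg fun i _ => by positivity

theorem nm_le_gsq {Ω : Set E3} {G : Fin 3 → E3 → E3}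
    (hG : ∀ i, MemLp (G i) 2 (volume.restrict Ω)) (i : Fin 3) :
    nm Ω (G i) ≤ Real.sqrt (gsq Ω G) := by
  refine Real.sqrt_le_sqrt ?_
  unfold gsq
  refine integral_mono (sq_int (hG i)) (integrable_finsetSum _ fun j _ => sq_int (hG j))
    fun x => ?_
  exact Finset.single_le_sum (f := fun i => ‖G i x‖ ^ 2) (fun j _ => by positivity)
    (Finset.mem_univ i)

/-- bound of the right-hand side of the weak formulation -/
theorem rhs_le {Ω : Set E3} {ν : ℝ} (hν : 0 ≤ ν) {f u : E3 → E3} {G : Fin 3 → E3 → E3}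
    {ψ : E3 → E3} (hψ : TestField Ω ψ) (hf : MemLp f 2 (volume.restrict Ω))
    (hu : MemLp u 2 (volume.restrict Ω)) (hG : ∀ i, MemLp (G i) 2 (volume.restrict Ω))
    {a b c k : ℝ} (hu' : nm Ω u ^ 2 ≤ k) (ha : ∀ i, nm Ω (pd ψ i) ≤ a)
    (hb : ∀ i y, ‖pd ψ i y‖ ≤ b) (hc : nm Ω ψ ≤ c) :
    |rhs Ω ν f u G ψ| ≤ 3 * ν * a * Real.sqrt (gsq Ω G) + 3 * b * k + nm Ω f * c := by
  have hψ2 : MemLp ψ 2 (volume.restrict Ω) := hψ.memLp _ 2
  have hp2 : ∀ i, MemLp (pd ψ i) 2 (volume.restrict Ω) := fun i => hψ.pd_memLp i _ 2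
  have hb0 : 0 ≤ b := (norm_nonneg _).trans (hb 0 0)
  have h1 : |∫ x in Ω, ∑ i, inner ℝ (G i x) (pd ψ i x)| ≤ 3 * a * Real.sqrt (gsq Ω G) := by
    rw [integral_finsetSum _ fun i _ => inner_int (hG i) (hp2 i)]
    refine (Finset.abs_sum_le_sum_abs _ _).trans ?_
    have h2 : ∀ i ∈ (Finset.univ : Finset (Fin 3)),
        |∫ x in Ω, inner ℝ (G i x) (pd ψ i x)| ≤ a * Real.sqrt (gsq Ω G) := by
      intro i _
      refine (cs (hG i) (hp2 i)).trans ?_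
      rw [mul_comm]
      exact mul_le_mul (ha i) (nm_le_gsq hG i) (nm_nonneg _ _) ((nm_nonneg _ _).trans (ha i))
    refine (Finset.sum_le_sum h2).trans (le_of_eq ?_)
    simp
    ring
  have h3 : |∫ x in Ω, ∑ i, (u x) i * inner ℝ (u x) (pd ψ i x)| ≤ 3 * b * k := by
    rw [← Real.norm_eq_abs]
    refine (norm_integral_le_of_norm_le ((sq_int hu).const_mul (3 * b))
      (Eventually.of_forall fun x => ?_)).trans ?_
    · refine (norm_sum_le _ _).trans ?_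
      have h4 : ∀ i ∈ (Finset.univ : Finset (Fin 3)),
          ‖(u x) i * inner ℝ (u x) (pd ψ i x)‖ ≤ b * ‖u x‖ ^ 2 := by
        intro i _
        rw [norm_mul]
        have h5 : ‖(u x) i‖ ≤ ‖u x‖ := PiLp.norm_apply_le (u x) i
        have h6 : ‖inner ℝ (u x) (pd ψ i x)‖ ≤ ‖u x‖ * b :=
          (norm_inner_le_norm _ _).trans (mul_le_mul_of_nonneg_left (hb i x) (norm_nonneg _))
        calc ‖(u x) i‖ * ‖inner ℝ (u x) (pd ψ i x)‖ ≤ ‖u x‖ * (‖u x‖ * b) :=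
              mul_le_mul h5 h6 (norm_nonneg _) (norm_nonneg _)
          _ = b * ‖u x‖ ^ 2 := by ring
      refine (Finset.sum_le_sum h4).trans (le_of_eq ?_)
      simp
      ring
    · rw [integral_const_mul, ← nm_sq]
      exact mul_le_mul_of_nonneg_left hu' (by positivity)
  have h7 : |∫ x in Ω, inner ℝ (f x) (ψ x)| ≤ nm Ω f * c :=
    (cs hf hψ2).trans (mul_le_mul_of_nonneg_left hc (nm_nonneg _ _))
  unfold rhs
  refine (abs_add_le _ _).trans (add_le_add ((abs_add_le _ _).trans (add_le_add ?_ h3)) h7)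
  rw [abs_mul, abs_neg, abs_of_nonneg hν]
  refine (mul_le_mul_of_nonneg_left h1 hν).trans (le_of_eq ?_)
  ring

end Pool.Agent.Helper52.NSE
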