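import Pool.Agent.Helper52.NSE.Drop

/-!
The energy drop inequality for weak solutions.
-/

open MeasureTheory Set Filter Topology Metric
open scoped ENNReal

namespace Pool.Agent.Helper52.NSE

variable {Ω : Set E3} {ν T : ℝ} {u₀ : E3 → E3} {f u : ℝ → E3 → E3} {G : ℝ → Fin 3 → E3 → E3}

theorem ii_of {g : ℝ → ℝ} (hg : IntegrableOn g (Icc 0 T)) {s t : ℝ} (hs : 0 ≤ s) (hst : s ≤ t)
    (ht : t ≤ T) : IntervalIntegrable g volume s t := by
  rw [intervalIntegrable_iff_integrableOn_Ioc_of_le hst]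
  exact hg.mono_set fun x hx => ⟨hs.trans hx.1.le, hx.2.trans ht⟩

theorem sqrt_int {g : ℝ → ℝ} (hg : IntegrableOn g (Icc 0 T)) (h0 : ∀ t, 0 ≤ g t) :
    IntegrableOn (fun τ => Real.sqrt (g τ)) (Icc 0 T) := by
  have h1 : IntegrableOn (fun _ => (1 : ℝ)) (Icc 0 T) := by
    rw [integrableOn_const_iff]
    right
    exact isCompact_Icc.measure_lt_top
  refine Integrable.mono' (h1.add hg) (Real.continuous_sqrt.comp_aestronglyMeasurable hg.1)
    (Eventually.of_forall fun t => ?_)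
  rw [Real.norm_eq_abs, abs_of_nonneg (Real.sqrt_nonneg _)]
  simp only [Pi.add_apply]
  nlinarith [Real.sq_sqrt (h0 t), Real.sqrt_nonneg (g t), sq_nonneg (Real.sqrt (g t) - 1)]

theorem sqrt_cs {g : ℝ → ℝ} (hg : IntegrableOn g (Icc 0 T)) (h0 : ∀ t, 0 ≤ g t) {s t : ℝ}
    (hs : 0 ≤ s) (hst : s < t) (ht : t ≤ T) :
    ∫ τ in s..t, Real.sqrt (g τ) ≤ Real.sqrt (t - s) * Real.sqrt (∫ τ in s..t, g τ) := by
  have i1 := ii_of hg hs hst.le ht
  have i2 := ii_of (sqrt_int hg h0) hs hst.le ht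
  obtain ⟨A, hA⟩ : ∃ A, A = ∫ τ in s..t, Real.sqrt (g τ) := ⟨_, rfl⟩
  rw [← Real.sqrt_mul (by linarith), ← hA]
  refine Real.le_sqrt_of_sq_le ?_
  obtain ⟨m, hm⟩ : ∃ m, m = A / (t - s) := ⟨_, rfl⟩
  have hts : 0 < t - s := by linarith
  have h1 : 0 ≤ ∫ τ in s..t, (Real.sqrt (g τ) - m) ^ 2 :=
    intervalIntegral.integral_nonneg hst.le fun x _ => by positivity
  have h2 : ∫ τ in s..t, (Real.sqrt (g τ) - m) ^ 2 =
      (∫ τ in s..t, g τ) - 2 * m * A + m ^ 2 * (t - s) := by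
    have h3 : ∀ τ, (Real.sqrt (g τ) - m) ^ 2 = (g τ - 2 * m * Real.sqrt (g τ)) + m ^ 2 := by
      intro τ
      have := Real.sq_sqrt (h0 τ)
      nlinarith
    simp_rw [h3]
    rw [intervalIntegral.integral_add (i1.sub (i2.const_mul _)) (by simp),
      intervalIntegral.integral_sub i1 (i2.const_mul _), intervalIntegral.integral_const_mul,
      intervalIntegral.integral_const, ← hA]
    simp only [smul_eq_mul]
    ring
  have h4 : A = m * (t - s) := by rw [hm]; field_simp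
  rw [h2] at h1
  have h5 : A ^ 2 = (t - s) * (2 * m * A - m ^ 2 * (t - s)) := by rw [h4]; ring
  rw [h5]
  exact mul_le_mul_of_nonneg_left (by linarith) hts.le

theorem IsWeakSolution.nmf_int (h : IsWeakSolution Ω ν T u₀ f u G) :
    IntegrableOn (fun τ => nm Ω (f τ)) (Icc 0 T) :=
  sqrt_int h.force_int fun t => integral_nonneg fun x => by positivity

theorem IsWeakSolution.power_int (h : IsWeakSolution Ω ν T u₀ f u G) :
    IntegrableOn (fun τ => power Ω (f τ) (u τ)) (Icc 0 T) := by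
  obtain ⟨K, hK⟩ := h.bound
  have hm : AEStronglyMeasurable (fun τ => power Ω (f τ) (u τ)) (volume.restrict (Icc 0 T)) := by
    have := (h.force_meas.inner (𝕜 := ℝ) h.meas).integral_prod_right'
    exact this
  refine Integrable.mono' (h.nmf_int.mul_const (Real.sqrt K)) hm ?_
  filter_upwards [h.force_mem, ae_restrict_mem measurableSet_Icc] with τ h1 h2
  rw [Real.norm_eq_abs]
  refine (cs h1.memLp (h.mem τ h2).memLp).trans ?_
  exact mul_le_mul_of_nonneg_left (Real.sqrt_le_sqrt (hK τ h2)) (nm_nonneg _ _)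

theorem IsWeakSolution.gsq_int (h : IsWeakSolution Ω ν T u₀ f u G) :
    IntegrableOn (fun τ => gsq Ω (G τ)) (Icc 0 T) := h.grad_int

theorem IsWeakSolution.diss_int (h : IsWeakSolution Ω ν T u₀ f u G) :
    IntegrableOn (fun τ => diss Ω ν (G τ)) (Icc 0 T) := h.grad_int.const_mul _

theorem diss_nonneg (hν : 0 < ν) (G : Fin 3 → E3 → E3) : 0 ≤ diss Ω ν G := by
  unfold diss
  exact mul_nonneg (div_nonneg hν.le ENNReal.toReal_nonneg) (gsq_nonneg Ω G)

theorem IsWeakSolution.defect_sub (h : IsWeakSolution Ω ν T u₀ f u G) {s t : ℝ}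
    (hs : 0 ≤ s) (hst : s ≤ t) (ht : t ≤ T) :
    defect Ω ν f u G t - defect Ω ν f u G s = (∫ τ in s..t, power Ω (f τ) (u τ)) -
      (kin Ω (u t) - kin Ω (u s)) - (volume Ω).toReal * ∫ τ in s..t, diss Ω ν (G τ) := by
  unfold defect
  rw [← intervalIntegral.integral_add_adjacent_intervals
      (ii_of h.power_int le_rfl hs (hst.trans ht)) (ii_of h.power_int hs hst ht),
    ← intervalIntegral.integral_add_adjacent_intervals
      (ii_of h.diss_int le_rfl hs (hst.trans ht)) (ii_of h.diss_int hs hst ht)]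
  ring

theorem IsWeakSolution.drop (hΩ : IsSmoothBoundedDomain Ω) (hν : 0 < ν)
    (h : IsWeakSolution Ω ν T u₀ f u G) :
    ∃ C δ₀ : ℝ, 0 < C ∧ 0 < δ₀ ∧ ∀ s t, 0 ≤ s → s < t → t ≤ T → MemH1s Ω (u s) (G s) →
      ∀ δ, 0 < δ → δ ≤ δ₀ → ∀ p : ℝ≥0∞, 1 ≤ p → ∀ U : ℝ, 0 ≤ U →
      eLpNorm (u s) p (volume.restrict Ω) ≤ ENNReal.ofReal U →
      defect Ω ν f u G t ≤ defect Ω ν f u G s + C * (δ ^ 2 * (1 + gsq Ω (G s)) +
        δ⁻¹ * Real.sqrt (t - s) + (t - s) * (δ ^ (-1 - 3 / p.toReal) * U) +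
        ∫ τ in s..t, nm Ω (f τ)) := by
  obtain ⟨C, δ₀, hC, hδ₀, hsm⟩ := smoothing hΩ
  obtain ⟨K₀, hK₀⟩ := h.bound
  obtain ⟨K, hK⟩ : ∃ K, K = max K₀ 1 := ⟨_, rfl⟩
  have hK1 : 1 ≤ K := hK ▸ le_max_right _ _
  have hKb : ∀ t ∈ Icc 0 T, nm Ω (u t) ^ 2 ≤ K := fun t ht => by
    rw [nm_sq]; exact (hK₀ t ht).trans (hK ▸ le_max_left _ _)
  have hKn : ∀ t ∈ Icc 0 T, nm Ω (u t) ≤ Real.sqrt K := fun t ht =>
    Real.le_sqrt_of_sq_le (hKb t ht)
  obtain ⟨M, hM⟩ : ∃ M, M = ∫ τ in (0)..T, gsq Ω (G τ) := ⟨_, rfl⟩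
  have hsK : 0 ≤ Real.sqrt K := Real.sqrt_nonneg _
  have hsM : 0 ≤ Real.sqrt M := Real.sqrt_nonneg _
  have hK0 : 0 ≤ K := by linarith
  have c1 : 0 ≤ 9 * C ^ 2 * K := by positivity
  have c2 : 0 ≤ 3 * ν * C * Real.sqrt K * Real.sqrt M := by positivity
  have c3 : 0 ≤ 3 * C * K := by positivity
  have c4 : 0 ≤ C * Real.sqrt K + Real.sqrt K := by positivity
  refine ⟨9 * C ^ 2 * K + 3 * ν * C * Real.sqrt K * Real.sqrt M + 3 * C * K +
    (C * Real.sqrt K + Real.sqrt K) + 1, δ₀, by positivity, hδ₀, ?_⟩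
  intro s t hs hst ht hmem δ hδ hδ' p hp U hU hUp
  obtain ⟨ψ, hψ, e1, e2, e3, e4⟩ := hsm (u s) (G s) hmem δ hδ hδ'
  have hsT : s ∈ Icc 0 T := ⟨hs, hst.le.trans ht⟩
  have htT : t ∈ Icc 0 T := ⟨hs.trans hst.le, ht⟩
  have hus := (h.mem s hsT).memLp
  have hut := (h.mem t htT).memLp
  have hGs := hmem.grad_memLp
  have hψ2 : MemLp ψ 2 (volume.restrict Ω) := hψ.memLp _ 2
  have hp2 : ∀ i, MemLp (pd ψ i) 2 (volume.restrict Ω) := fun i => hψ.pd_memLp i _ 2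
  have hg0 : 0 ≤ gsq Ω (G s) := gsq_nonneg _ _
  -- the four bounds in real numbers
  have b1 : nm Ω (fun x => u s x - ψ x) ≤ C * δ * (Real.sqrt K + 3 * Real.sqrt (gsq Ω (G s))) := by
    have h1 : eLpNorm (fun x => u s x - ψ x) 2 (volume.restrict Ω) =
        ENNReal.ofReal (nm Ω (fun x => u s x - ψ x)) := nm_eq (hus.sub hψ2)
    have h2 : ∑ i, eLpNorm (G s i) 2 (volume.restrict Ω) =
        ENNReal.ofReal (∑ i, nm Ω (G s i)) := by
      rw [ENNReal.ofReal_sum_of_nonneg fun i _ => nm_nonneg _ _]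
      exact Finset.sum_congr rfl fun i _ => nm_eq (hGs i)
    rw [h2, nm_eq hus, ← ENNReal.ofReal_add (nm_nonneg _ _)
      (Finset.sum_nonneg fun i _ => nm_nonneg _ _), ← ENNReal.ofReal_mul (by positivity)] at e1
    have h3 : ENNReal.ofReal (nm Ω (fun x => u s x - ψ x)) ≤
      ENNReal.ofReal (C * δ * (nm Ω (u s) + ∑ i, nm Ω (G s i))) := h1 ▸ e1
    rw [ENNReal.ofReal_le_ofReal_iff (mul_nonneg (by positivity) (add_nonneg (nm_nonneg _ _)
      (Finset.sum_nonneg fun i _ => nm_nonneg _ _)))] at h3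
    refine h3.trans (mul_le_mul_of_nonneg_left (add_le_add (hKn s hsT) ?_) (by positivity))
    refine (Finset.sum_le_sum fun i _ => nm_le_gsq hGs i).trans (le_of_eq ?_)
    simp
  have b2 : ∀ i, nm Ω (pd ψ i) ≤ C * δ⁻¹ * Real.sqrt K := by
    intro i
    have h1 := e2 i
    rw [nm_eq (hp2 i), nm_eq hus, ← ENNReal.ofReal_mul (by positivity),
      ENNReal.ofReal_le_ofReal_iff (mul_nonneg (by positivity) (nm_nonneg _ _))] at h1
    exact h1.trans (mul_le_mul_of_nonneg_left (hKn s hsT) (by positivity))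
  have b3 : ∀ i y, ‖pd ψ i y‖ ≤ C * δ ^ (-1 - 3 / p.toReal) * U := by
    intro i y
    have h1 := (e3 p hp i y).trans (mul_le_mul_right hUp _)
    have hpw : 0 ≤ δ ^ (-1 - 3 / p.toReal) := Real.rpow_nonneg hδ.le _
    rw [← ENNReal.ofReal_mul (by positivity), ← ofReal_norm,
      ENNReal.ofReal_le_ofReal_iff (by positivity)] at h1
    exact h1
  have b4 : nm Ω ψ ≤ C * Real.sqrt K := by
    rw [nm_eq hψ2, nm_eq hus, ← ENNReal.ofReal_mul hC.le,
      ENNReal.ofReal_le_ofReal_iff (mul_nonneg hC.le (nm_nonneg _ _))] at e4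
    exact e4.trans (mul_le_mul_of_nonneg_left (hKn s hsT) hC.le)
  -- the pairing with `ψ`
  have iq : IntervalIntegrable (fun τ => Real.sqrt (gsq Ω (G τ))) volume s t :=
    ii_of (sqrt_int h.gsq_int fun τ => gsq_nonneg _ _) hs hst.le ht
  have inf : IntervalIntegrable (fun τ => nm Ω (f τ)) volume s t := ii_of h.nmf_int hs hst.le ht
  have r1 : |∫ τ in s..t, rhs Ω ν (f τ) (u τ) (G τ) ψ| ≤
      ∫ τ in s..t, (3 * ν * (C * δ⁻¹ * Real.sqrt K) * Real.sqrt (gsq Ω (G τ)) +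
        3 * (C * δ ^ (-1 - 3 / p.toReal) * U) * K + nm Ω (f τ) * (C * Real.sqrt K)) := by
    rw [← Real.norm_eq_abs]
    refine intervalIntegral.norm_integral_le_of_norm_le hst.le ?_ ?_
    · have h1 := ae_restrict_of_ae_restrict_of_subset
        (show Ioc s t ⊆ Icc 0 T from fun x hx => ⟨hs.trans hx.1.le, hx.2.trans ht⟩) h.force_mem
      have h2 := ae_restrict_of_ae_restrict_of_subset
        (show Ioc s t ⊆ Icc 0 T from fun x hx => ⟨hs.trans hx.1.le, hx.2.trans ht⟩) h.grad_mem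
      rw [ae_restrict_iff' measurableSet_Ioc] at h1 h2
      filter_upwards [h1, h2] with τ h1 h2 hτ
      have hτT : τ ∈ Icc 0 T := ⟨hs.trans hτ.1.le, hτ.2.trans ht⟩
      rw [Real.norm_eq_abs]
      exact rhs_le hν.le hψ (h1 hτ).memLp (h.mem τ hτT).memLp (h2 hτ).grad_memLp (hKb τ hτT)
        b2 b3 b4
    · exact ((iq.const_mul _).add (by simp)).add (inf.mul_const _)
  have r2 : ∫ τ in s..t, (3 * ν * (C * δ⁻¹ * Real.sqrt K) * Real.sqrt (gsq Ω (G τ)) +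
        3 * (C * δ ^ (-1 - 3 / p.toReal) * U) * K + nm Ω (f τ) * (C * Real.sqrt K)) =
      3 * ν * (C * δ⁻¹ * Real.sqrt K) * (∫ τ in s..t, Real.sqrt (gsq Ω (G τ))) +
        (t - s) * (3 * (C * δ ^ (-1 - 3 / p.toReal) * U) * K) +
        (∫ τ in s..t, nm Ω (f τ)) * (C * Real.sqrt K) := by
    rw [intervalIntegral.integral_add ((iq.const_mul _).add (by simp)) (inf.mul_const _),
      intervalIntegral.integral_add (iq.const_mul _) (by simp),
      intervalIntegral.integral_const_mul, intervalIntegral.integral_const,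
      intervalIntegral.integral_mul_const]
    simp only [smul_eq_mul]
  have r3 : ∫ τ in s..t, Real.sqrt (gsq Ω (G τ)) ≤ Real.sqrt (t - s) * Real.sqrt M := by
    refine (sqrt_cs h.gsq_int (fun τ => gsq_nonneg _ _) hs hst ht).trans
      (mul_le_mul_of_nonneg_left (Real.sqrt_le_sqrt ?_) (Real.sqrt_nonneg _))
    rw [hM]
    refine intervalIntegral.integral_mono_interval hs hst.le ht
      (Eventually.of_forall fun τ => gsq_nonneg _ _) (ii_of h.gsq_int le_rfl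
        (hsT.1.trans hsT.2) le_rfl)
  have r4 : |∫ τ in s..t, power Ω (f τ) (u τ)| ≤ (∫ τ in s..t, nm Ω (f τ)) * Real.sqrt K := by
    rw [← Real.norm_eq_abs, ← intervalIntegral.integral_mul_const]
    refine intervalIntegral.norm_integral_le_of_norm_le hst.le ?_ (inf.mul_const _)
    have h1 := ae_restrict_of_ae_restrict_of_subset
      (show Ioc s t ⊆ Icc 0 T from fun x hx => ⟨hs.trans hx.1.le, hx.2.trans ht⟩) h.force_mem
    rw [ae_restrict_iff' measurableSet_Ioc] at h1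
    filter_upwards [h1] with τ h1 hτ
    have hτT : τ ∈ Icc 0 T := ⟨hs.trans hτ.1.le, hτ.2.trans ht⟩
    rw [Real.norm_eq_abs]
    exact (cs (h1 hτ).memLp (h.mem τ hτT).memLp).trans
      (mul_le_mul_of_nonneg_left (hKn τ hτT) (nm_nonneg _ _))
  have r5 : 0 ≤ ∫ τ in s..t, nm Ω (f τ) :=
    intervalIntegral.integral_nonneg hst.le fun τ _ => nm_nonneg _ _
  have r6 : 0 ≤ (volume Ω).toReal * ∫ τ in s..t, diss Ω ν (G τ) :=
    mul_nonneg ENNReal.toReal_nonneg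
      (intervalIntegral.integral_nonneg hst.le fun τ _ => diss_nonneg hν _)
  have k1 := kin_sub_le hus hut hψ2
  have k2 := h.eqn ψ hψ s t hs hst.le ht
  have k3 := h.defect_sub hs hst.le ht
  have b1' : nm Ω (fun x => u s x - ψ x) ^ 2 / 2 ≤ 9 * C ^ 2 * K * (δ ^ 2 * (1 + gsq Ω (G s))) := by
    have h1 := pow_le_pow_left₀ (nm_nonneg _ _) b1 2
    have h2 := Real.sq_sqrt hg0
    have h3 := Real.sq_sqrt hK0
    have h4 : (Real.sqrt K + 3 * Real.sqrt (gsq Ω (G s))) ^ 2 ≤ 18 * K * (1 + gsq Ω (G s)) := by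
      nlinarith [sq_nonneg (Real.sqrt K - 3 * Real.sqrt (gsq Ω (G s))), mul_nonneg
        (sub_nonneg.mpr hK1) hg0]
    have h5 : (C * δ * (Real.sqrt K + 3 * Real.sqrt (gsq Ω (G s)))) ^ 2 ≤
        (C * δ) ^ 2 * (18 * K * (1 + gsq Ω (G s))) := by
      rw [mul_pow]
      exact mul_le_mul_of_nonneg_left h4 (by positivity)
    have h6 := h1.trans h5
    calc nm Ω (fun x => u s x - ψ x) ^ 2 / 2 ≤ ((C * δ) ^ 2 * (18 * K * (1 + gsq Ω (G s)))) / 2 := by
          linarith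
      _ = _ := by ring
  have q0 : 0 ≤ δ ^ 2 * (1 + gsq Ω (G s)) := by positivity
  have q1 : 0 ≤ δ⁻¹ * Real.sqrt (t - s) := by positivity
  have q2 : 0 ≤ (t - s) * (δ ^ (-1 - 3 / p.toReal) * U) :=
    mul_nonneg (by linarith) (mul_nonneg (Real.rpow_nonneg hδ.le _) hU)
  have s1 : 3 * ν * (C * δ⁻¹ * Real.sqrt K) * (∫ τ in s..t, Real.sqrt (gsq Ω (G τ))) ≤
      3 * ν * C * Real.sqrt K * Real.sqrt M * (δ⁻¹ * Real.sqrt (t - s)) := by
    refine (mul_le_mul_of_nonneg_left r3 (by positivity)).trans (le_of_eq ?_)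
    ring
  rw [r2] at r1
  have t1 := (abs_le.mp r1).1
  have t2 := (abs_le.mp r4).2
  have fin1 : defect Ω ν f u G t - defect Ω ν f u G s ≤
      9 * C ^ 2 * K * (δ ^ 2 * (1 + gsq Ω (G s))) +
      3 * ν * C * Real.sqrt K * Real.sqrt M * (δ⁻¹ * Real.sqrt (t - s)) +
      3 * C * K * ((t - s) * (δ ^ (-1 - 3 / p.toReal) * U)) +
      (C * Real.sqrt K + Real.sqrt K) * ∫ τ in s..t, nm Ω (f τ) := by
    have u1 : (t - s) * (3 * (C * δ ^ (-1 - 3 / p.toReal) * U) * K) =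
      3 * C * K * ((t - s) * (δ ^ (-1 - 3 / p.toReal) * U)) := by ring
    rw [u1] at t1
    have u2 : (C * Real.sqrt K + Real.sqrt K) * (∫ τ in s..t, nm Ω (f τ)) =
      (∫ τ in s..t, nm Ω (f τ)) * (C * Real.sqrt K) +
      (∫ τ in s..t, nm Ω (f τ)) * Real.sqrt K := by ring
    rw [u2]
    linarith
  have key : ∀ a b c d A B D E : ℝ, 0 ≤ a → 0 ≤ b → 0 ≤ c → 0 ≤ d → 0 ≤ A → 0 ≤ B → 0 ≤ D →
      0 ≤ E → A * a + B * b + D * c + E * d ≤ (A + B + D + E + 1) * (a + b + c + d) := by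
    intro a b c d A B D E ha hb hc hd hA hB hD hE
    nlinarith [mul_nonneg hA hb, mul_nonneg hA hc, mul_nonneg hA hd, mul_nonneg hB ha,
      mul_nonneg hB hc, mul_nonneg hB hd, mul_nonneg hD ha, mul_nonneg hD hb, mul_nonneg hD hd,
      mul_nonneg hE ha, mul_nonneg hE hb, mul_nonneg hE hc]
  have := key _ _ _ _ _ _ _ _ q0 q1 q2 r5 c1 c2 c3 c4
  linarith

end Pool.Agent.Helper52.NSE
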