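import Pool.Agent.Helper52.NSE.Div

/-!
Estimates for the smoothing operator.
-/

open MeasureTheory Set Filter Topology Metric
open scoped ENNReal

namespace Pool.Agent.Helper52.NSE

theorem eta_fderiv_zero {δ : ℝ} (hδ : 0 < δ) {y : E3} (h : δ < ‖y‖) : fderiv ℝ (eta δ) y = 0 := by
  have h1 : eta δ =ᶠ[𝓝 y] fun _ => 0 := by
    have : {z : E3 | δ < ‖z‖} ∈ 𝓝 y := (isOpen_lt continuous_const continuous_norm).mem_nhds h
    filter_upwards [this] with z hz
    exact eta_zero hδ hz.le
  rw [h1.fderiv_eq]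
  simp

theorem eta_lip {δ : ℝ} (hδ : 0 < δ) {B : ℝ} (hB : ∀ x, ‖fderiv ℝ eta0 x‖ ≤ B) (a b : E3) :
    ‖eta δ a - eta δ b‖ ≤ B * (δ ^ 4)⁻¹ * ‖a - b‖ :=
  convex_univ.norm_image_sub_le_of_norm_fderiv_le
    (fun z _ => (eta_contDiff (δ := δ)).differentiable (by simp) z)
    (fun z _ => eta_fderiv_bound hδ hB z) (mem_univ b) (mem_univ a)

section

variable {V : E3 → E3} {M L : ℝ} (hV : PushData V M L) {δ : ℝ}

include hV

theorem far (hδ : 0 < δ) {x y : E3} (h : x ∉ closedBall y ((M + 1) * δ)) :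
    δ < ‖y - Tm V δ x‖ := by
  rw [mem_closedBall, not_le, dist_eq_norm] at h
  have h1 := Tm_near hV hδ x
  have h2 : x - y = -(y - Tm V δ x) - (Tm V δ x - x) := by abel
  have h3 : ‖x - y‖ ≤ ‖y - Tm V δ x‖ + ‖Tm V δ x - x‖ := by
    rw [h2]
    refine (norm_sub_le _ _).trans ?_
    rw [norm_neg]
  linarith

/-- pointwise bound for the smoothed field -/
theorem Psi_le (hδ : 0 < δ) (hδ1 : δ ≤ 1) {B : ℝ} (hB : ∀ x, ‖eta0 x‖ ≤ B) (w : E3 → E3)
    (y : E3) : ‖Psi V δ w y‖ₑ ≤ ENNReal.ofReal (B * (δ ^ 3)⁻¹ * (1 + L)) *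
      ∫⁻ x in closedBall y ((M + 1) * δ), ‖w x‖ₑ := by
  have hB0 : 0 ≤ B := (norm_nonneg _).trans (hB 0)
  have hL := hV.L0
  unfold Psi
  refine (enorm_integral_le_lintegral_enorm _).trans ?_
  rw [← lintegral_const_mul' _ _ ENNReal.ofReal_ne_top,
    ← lintegral_indicator isClosed_closedBall.measurableSet]
  refine lintegral_mono fun x => ?_
  by_cases hx : x ∈ closedBall y ((M + 1) * δ)
  · rw [indicator_of_mem hx, ← ofReal_norm, ← ofReal_norm, ← ENNReal.ofReal_mul (by positivity)]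
    refine ENNReal.ofReal_le_ofReal ?_
    rw [norm_smul, mul_assoc]
    exact mul_le_mul (eta_bound hδ hB _) (lift_norm hV hδ hδ1 w x) (norm_nonneg _) (by positivity)
  · rw [indicator_of_notMem hx, eta_zero hδ (far hV hδ hx).le]
    simp

/-- pointwise bound for the derivatives of the smoothed field -/
theorem pd_le (hδ : 0 < δ) (hδ1 : δ ≤ 1) {B : ℝ} (hB : ∀ x, ‖fderiv ℝ eta0 x‖ ≤ B)
    {w : E3 → E3} (hw : Integrable w volume) (i : Fin 3) (y : E3) :
    ‖pd (Psi V δ w) i y‖ₑ ≤ ENNReal.ofReal (B * (δ ^ 4)⁻¹ * (1 + L)) *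
      ∫⁻ x in closedBall y ((M + 1) * δ), ‖w x‖ₑ := by
  have hB0 : 0 ≤ B := (norm_nonneg _).trans (hB 0)
  have hL := hV.L0
  rw [Psi_pd hV hδ hδ1 hw]
  refine (enorm_integral_le_lintegral_enorm _).trans ?_
  rw [← lintegral_const_mul' _ _ ENNReal.ofReal_ne_top,
    ← lintegral_indicator isClosed_closedBall.measurableSet]
  refine lintegral_mono fun x => ?_
  by_cases hx : x ∈ closedBall y ((M + 1) * δ)
  · rw [indicator_of_mem hx, ← ofReal_norm, ← ofReal_norm, ← ENNReal.ofReal_mul (by positivity)]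
    refine ENNReal.ofReal_le_ofReal ?_
    rw [norm_smul, mul_assoc]
    refine mul_le_mul ?_ (lift_norm hV hδ hδ1 w x) (norm_nonneg _) (by positivity)
    refine (ContinuousLinearMap.le_opNorm _ _).trans ?_
    rw [PiLp.norm_single, norm_one, mul_one]
    exact eta_fderiv_bound hδ hB _
  · rw [indicator_of_notMem hx, eta_fderiv_zero hδ (far hV hδ hx)]
    simp

theorem Psi_L2 (hδ : 0 < δ) (hδ1 : δ ≤ 1) {B : ℝ} (hB : ∀ x, ‖eta0 x‖ ≤ B) {w : E3 → E3}
    (hw : AEStronglyMeasurable w volume) :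
    eLpNorm (Psi V δ w) 2 volume ≤ ENNReal.ofReal (B * (1 + L) * ((M + 1) ^ 3 * bv)) *
      eLpNorm w 2 volume := by
  have hB0 : 0 ≤ B := (norm_nonneg _).trans (hB 0)
  have hL := hV.L0
  have hM := hV.M0
  have hb := bv_nonneg
  refine (schur (by positivity) hw ENNReal.ofReal_ne_top (Psi_le hV hδ hδ1 hB w)).trans
    (le_of_eq ?_)
  rw [← ENNReal.ofReal_mul (by positivity)]
  congr 2
  field_simp

theorem pd_L2 (hδ : 0 < δ) (hδ1 : δ ≤ 1) {B : ℝ} (hB : ∀ x, ‖fderiv ℝ eta0 x‖ ≤ B)
    {w : E3 → E3} (hw : Integrable w volume) (i : Fin 3) :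
    eLpNorm (pd (Psi V δ w) i) 2 volume ≤
      ENNReal.ofReal (B * (1 + L) * ((M + 1) ^ 3 * bv) * δ⁻¹) * eLpNorm w 2 volume := by
  have hB0 : 0 ≤ B := (norm_nonneg _).trans (hB 0)
  have hL := hV.L0
  have hM := hV.M0
  have hb := bv_nonneg
  refine (schur (by positivity) hw.1 ENNReal.ofReal_ne_top (pd_le hV hδ hδ1 hB hw i)).trans
    (le_of_eq ?_)
  rw [← ENNReal.ofReal_mul (by positivity)]
  congr 2
  field_simp

theorem pd_sup (hδ : 0 < δ) (hδ1 : δ ≤ 1) {B : ℝ} (hB : ∀ x, ‖fderiv ℝ eta0 x‖ ≤ B)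
    {w : E3 → E3} (hw : Integrable w volume) {p : ℝ≥0∞} (hp : 1 ≤ p) (i : Fin 3) (y : E3) :
    ‖pd (Psi V δ w) i y‖ₑ ≤ ENNReal.ofReal (B * (1 + L) * (1 + (M + 1) ^ 3 * bv) *
      δ ^ (-1 - 3 / p.toReal)) * eLpNorm w p volume := by
  have hB0 : 0 ≤ B := (norm_nonneg _).trans (hB 0)
  have hL := hV.L0
  have hM := hV.M0
  have hb := bv_nonneg
  set A := (M + 1) ^ 3 * bv with hA
  have hA0 : 0 ≤ A := by positivity
  have hθ0 : 0 ≤ 1 - 1 / p.toReal := by
    by_cases hpt : p = ⊤
    · simp [hpt]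
    · have h1 : 1 ≤ p.toReal := by
        have := (ENNReal.toReal_le_toReal (by simp) hpt).mpr hp
        simpa using this
      rw [sub_nonneg, div_le_one (by linarith)]
      exact h1
  have hθ1 : 1 - 1 / p.toReal ≤ 1 := by
    have : 0 ≤ 1 / p.toReal := by positivity
    linarith
  refine (pd_le hV hδ hδ1 hB hw i y).trans ?_
  have h1 := holder (ρ := (M + 1) * δ) (by positivity) hw.1 hp y
  refine (mul_le_mul_right h1 _).trans ?_
  have h2 : ((M + 1) * δ) ^ 3 * bv = δ ^ 3 * A := by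
    rw [hA]
    ring
  rw [h2, ENNReal.ofReal_rpow_of_nonneg (by positivity) hθ0]
  have h3 : (δ ^ 3 * A) ^ (1 - 1 / p.toReal) ≤ δ ^ (3 - 3 / p.toReal) * (1 + A) := by
    rw [Real.mul_rpow (by positivity) hA0, ← Real.rpow_natCast, ← Real.rpow_mul hδ.le]
    have e1 : ((3 : ℕ) : ℝ) * (1 - 1 / p.toReal) = 3 - 3 / p.toReal := by
      push_cast
      ring
    rw [e1]
    refine mul_le_mul_of_nonneg_left ?_ (Real.rpow_nonneg hδ.le _)
    calc A ^ (1 - 1 / p.toReal) ≤ (1 + A) ^ (1 - 1 / p.toReal) :=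
          Real.rpow_le_rpow hA0 (by linarith) hθ0
      _ ≤ (1 + A) ^ (1 : ℝ) := Real.rpow_le_rpow_of_exponent_le (by linarith) hθ1
      _ = 1 + A := Real.rpow_one _
  have h4 : B * (δ ^ 4)⁻¹ * (1 + L) * (δ ^ 3 * A) ^ (1 - 1 / p.toReal) ≤
      B * (1 + L) * (1 + A) * δ ^ (-1 - 3 / p.toReal) := by
    refine (mul_le_mul_of_nonneg_left h3 (by positivity)).trans (le_of_eq ?_)
    have e2 : (δ ^ 4)⁻¹ * δ ^ (3 - 3 / p.toReal) = δ ^ (-1 - 3 / p.toReal) := by
      rw [← Real.rpow_natCast, ← Real.rpow_neg hδ.le, ← Real.rpow_add hδ]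
      congr 1
      push_cast
      ring
    rw [← e2]
    ring
  calc ENNReal.ofReal (B * (δ ^ 4)⁻¹ * (1 + L)) *
        (eLpNorm w p volume * ENNReal.ofReal ((δ ^ 3 * A) ^ (1 - 1 / p.toReal)))
      = ENNReal.ofReal (B * (δ ^ 4)⁻¹ * (1 + L) * (δ ^ 3 * A) ^ (1 - 1 / p.toReal)) *
        eLpNorm w p volume := by
        rw [ENNReal.ofReal_mul (p := B * (δ ^ 4)⁻¹ * (1 + L)) (by positivity)]
        ring
    _ ≤ _ := mul_le_mul_left (ENNReal.ofReal_le_ofReal h4) _

theorem m_bound (hδ : 0 < δ) {B : ℝ} (hB : ∀ x, ‖fderiv ℝ eta0 x‖ ≤ B) (y : E3) :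
    ‖(∫ x, eta δ (y - Tm V δ x)) - 1‖ ≤ B * L * (M + 1) * ((M + 1) ^ 3 * bv) * δ := by
  have hB0 : 0 ≤ B := (norm_nonneg _).trans (hB 0)
  have hL := hV.L0
  have hM := hV.M0
  have hb := bv_nonneg
  have hcT : Continuous (Tm V δ) := (Tm_contDiff hV).continuous
  have hce : Continuous (eta δ) := eta_contDiff.continuous
  have h1 : ∫ x, eta δ (y - x + δ • V y) = 1 := by
    rw [← eta_integral hδ]
    have e1 : ∀ x, eta δ (y - x + δ • V y) = eta δ ((y + δ • V y) - x) := by
      intro x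
      congr 1
      abel
    simp only [e1]
    exact integral_sub_left_eq_self (fun x => eta δ x) volume (y + δ • V y)
  have hin : ∀ x, x ∉ closedBall y ((M + 1) * δ) → eta δ (y - x + δ • V y) = 0 := by
    intro x hx
    refine eta_zero hδ ?_
    rw [mem_closedBall, not_le, dist_eq_norm] at hx
    have h2 : ‖x - y‖ ≤ ‖y - x + δ • V y‖ + ‖δ • V y‖ := by
      have e2 : x - y = -(y - x + δ • V y) + δ • V y := by abel
      calc ‖x - y‖ = ‖-(y - x + δ • V y) + δ • V y‖ := by rw [← e2]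
        _ ≤ ‖-(y - x + δ • V y)‖ + ‖δ • V y‖ := norm_add_le _ _
        _ = _ := by rw [norm_neg]
    rw [norm_smul, Real.norm_of_nonneg hδ.le] at h2
    have h3 := mul_le_mul_of_nonneg_left (hV.bd y) hδ.le
    linarith
  have hcs : ∀ {f : E3 → ℝ}, Continuous f → (∀ x, x ∉ closedBall y ((M + 1) * δ) → f x = 0) →
      Integrable f volume := fun hf h0 =>
    hf.integrable_of_hasCompactSupport
      (HasCompactSupport.of_support_subset_isCompact (isCompact_closedBall y ((M + 1) * δ))
        fun x hx => by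
          by_contra h
          exact hx (h0 x h))
  have hi1 : Integrable (fun x => eta δ (y - Tm V δ x)) volume :=
    hcs (hce.comp (continuous_const.sub hcT)) fun x hx => eta_zero hδ (far hV hδ hx).le
  have hi2 : Integrable (fun x => eta δ (y - x + δ • V y)) volume :=
    hcs (hce.comp (by fun_prop)) hin
  have h5 : (∫ x, eta δ (y - Tm V δ x)) - 1 =
      ∫ x, (eta δ (y - Tm V δ x) - eta δ (y - x + δ • V y)) := by
    rw [integral_sub hi1 hi2, h1]
  rw [h5]
  have h4 : ∀ x, ‖eta δ (y - Tm V δ x) - eta δ (y - x + δ • V y)‖ ≤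
      (closedBall y ((M + 1) * δ)).indicator
        (fun _ => B * (δ ^ 4)⁻¹ * (δ * (L * ((M + 1) * δ)))) x := by
    intro x
    by_cases hx : x ∈ closedBall y ((M + 1) * δ)
    · rw [indicator_of_mem hx]
      refine (eta_lip hδ hB _ _).trans (mul_le_mul_of_nonneg_left ?_ (by positivity))
      have e3 : y - Tm V δ x - (y - x + δ • V y) = δ • (V x - V y) := by
        unfold Tm
        rw [smul_sub]
        abel
      rw [e3, norm_smul, Real.norm_of_nonneg hδ.le]
      refine mul_le_mul_of_nonneg_left ((V_lip hV x y).trans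
        (mul_le_mul_of_nonneg_left ?_ hL)) hδ.le
      rw [mem_closedBall, dist_eq_norm] at hx
      exact hx
    · rw [indicator_of_notMem hx, eta_zero hδ (far hV hδ hx).le, hin x hx]
      simp
  have hfinb : volume (closedBall y ((M + 1) * δ)) ≠ ⊤ := measure_closedBall_lt_top.ne
  refine (norm_integral_le_of_norm_le ((integrable_indicator_iff
    isClosed_closedBall.measurableSet).mpr (integrableOn_const hfinb))
    (Eventually.of_forall h4)).trans (le_of_eq ?_)
  rw [integral_indicator isClosed_closedBall.measurableSet, setIntegral_const, Measure.real,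
    vol_closedBall y (by positivity), ENNReal.toReal_ofReal (by positivity), smul_eq_mul]
  field_simp

/-- consistency of the smoothing operator on smooth fields -/
theorem Psi_sub (hδ : 0 < δ) (hδ1 : δ ≤ 1) {B : ℝ} (hB : ∀ x, ‖eta0 x‖ ≤ B)
    (hB' : ∀ x, ‖fderiv ℝ eta0 x‖ ≤ B) {φ : E3 → E3} (hφ : ContDiff ℝ 1 φ)
    (hc : HasCompactSupport φ) :
    eLpNorm (fun y => Psi V δ φ y - φ y) 2 volume ≤
      ENNReal.ofReal (B * ((M + 1) ^ 3 * bv) * (M + 1) * δ) * eLpNorm (fderiv ℝ φ) 2 volume +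
      ENNReal.ofReal (B * L * ((M + 1) ^ 3 * bv) * δ) * eLpNorm φ 2 volume +
      ENNReal.ofReal (B * L * (M + 1) * ((M + 1) ^ 3 * bv) * δ) * eLpNorm φ 2 volume := by
  have hB0 : 0 ≤ B := (norm_nonneg _).trans (hB 0)
  have hL := hV.L0
  have hM := hV.M0
  have hb := bv_nonneg
  have hcT : Continuous (Tm V δ) := (Tm_contDiff hV).continuous
  have hce : Continuous (eta δ) := eta_contDiff.continuous
  have hcφ : Continuous φ := hφ.continuous
  have hcV : Continuous (fderiv ℝ V) := hV.smooth.continuous_fderiv (by simp)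
  let F1 : E3 → E3 := fun y => ∫ x, eta δ (y - Tm V δ x) • (φ x - φ y)
  let F2 : E3 → E3 := fun y => ∫ x, eta δ (y - Tm V δ x) • (δ • fderiv ℝ V x (φ x))
  let F3 : E3 → E3 := fun y => ((∫ x, eta δ (y - Tm V δ x)) - 1) • φ y
  have hcomp : ∀ {f : E3 → E3 → E3} (y : E3), Continuous (fun x => f x y) →
      Integrable (fun x => eta δ (y - Tm V δ x) • f x y) volume := by
    intro f y hf
    refine Continuous.integrable_of_hasCompactSupport
      ((hce.comp (continuous_const.sub hcT)).smul hf)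
      (HasCompactSupport.of_support_subset_isCompact (isCompact_closedBall y ((M + 1) * δ))
        fun x hx => ?_)
    by_contra h
    apply hx
    simp only []
    rw [eta_zero hδ (far hV hδ h).le, zero_smul]
  have hcompR : ∀ y : E3, Integrable (fun x => eta δ (y - Tm V δ x)) volume := by
    intro y
    refine Continuous.integrable_of_hasCompactSupport
      (hce.comp (continuous_const.sub hcT))
      (HasCompactSupport.of_support_subset_isCompact (isCompact_closedBall y ((M + 1) * δ))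
        fun x hx => ?_)
    by_contra h
    exact hx (eta_zero hδ (far hV hδ h).le)
  have hdec : (fun y => Psi V δ φ y - φ y) = fun y => F1 y - F2 y + F3 y := by
    funext y
    simp only [F1, F2, F3, Psi, lift]
    have e1 : ∀ x, eta δ (y - Tm V δ x) • (φ x - δ • fderiv ℝ V x (φ x)) =
        (eta δ (y - Tm V δ x) • (φ x - φ y) -
          eta δ (y - Tm V δ x) • (δ • fderiv ℝ V x (φ x))) + eta δ (y - Tm V δ x) • φ y := by
      intro x
      rw [smul_sub, smul_sub]
      abel
    simp only [e1]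
    have i1 : Integrable (fun x => eta δ (y - Tm V δ x) • (φ x - φ y)) volume :=
      hcomp (f := fun x y => φ x - φ y) y (by fun_prop)
    have i2 : Integrable (fun x => eta δ (y - Tm V δ x) • (δ • fderiv ℝ V x (φ x))) volume :=
      hcomp (f := fun x _ => δ • fderiv ℝ V x (φ x)) y (by fun_prop)
    have i3 : Integrable (fun x => eta δ (y - Tm V δ x) • φ y) volume :=
      hcomp (f := fun _ y => φ y) y continuous_const
    have i12 : Integrable (fun x => eta δ (y - Tm V δ x) • (φ x - φ y) -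
        eta δ (y - Tm V δ x) • (δ • fderiv ℝ V x (φ x))) volume := i1.sub i2
    rw [integral_add i12 i3, integral_sub i1 i2, integral_smul_const, sub_smul, one_smul]
    abel
  have hm1 : AEStronglyMeasurable F1 volume := by
    refine (StronglyMeasurable.integral_prod_right (f := fun y x => eta δ (y - Tm V δ x) •
      (φ x - φ y)) ?_).aestronglyMeasurable
    exact Continuous.stronglyMeasurable (by unfold Function.uncurry; fun_prop)
  have hm2 : AEStronglyMeasurable F2 volume := by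
    refine (StronglyMeasurable.integral_prod_right (f := fun y x => eta δ (y - Tm V δ x) •
      (δ • fderiv ℝ V x (φ x))) ?_).aestronglyMeasurable
    exact Continuous.stronglyMeasurable (by unfold Function.uncurry; fun_prop)
  have hm3 : AEStronglyMeasurable F3 volume := by
    have hmm : AEStronglyMeasurable (fun y => ∫ x, eta δ (y - Tm V δ x)) volume :=
      (StronglyMeasurable.integral_prod_right (f := fun y x => eta δ (y - Tm V δ x))
        (Continuous.stronglyMeasurable (by unfold Function.uncurry; fun_prop))).aestronglyMeasurable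
    have hmm2 : AEStronglyMeasurable (fun y => (∫ x, eta δ (y - Tm V δ x)) - 1) volume :=
      hmm.sub aestronglyMeasurable_const
    exact hmm2.smul hcφ.aestronglyMeasurable
  -- first term
  have hb1 : eLpNorm F1 2 volume ≤ ENNReal.ofReal (B * ((M + 1) ^ 3 * bv) * (M + 1) * δ) *
      eLpNorm (fderiv ℝ φ) 2 volume := by
    have h1 : ∀ y, ‖F1 y‖ₑ ≤ ENNReal.ofReal (B * (δ ^ 3)⁻¹) *
        ∫⁻ x in closedBall y ((M + 1) * δ), ‖φ x - φ y‖ₑ := by
      intro y
      refine (enorm_integral_le_lintegral_enorm _).trans ?_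
      rw [← lintegral_const_mul' _ _ ENNReal.ofReal_ne_top,
        ← lintegral_indicator isClosed_closedBall.measurableSet]
      refine lintegral_mono fun x => ?_
      by_cases hx : x ∈ closedBall y ((M + 1) * δ)
      · rw [indicator_of_mem hx, enorm_smul]
        refine mul_le_mul_left ?_ _
        rw [← ofReal_norm]
        exact ENNReal.ofReal_le_ofReal (eta_bound hδ hB _)
      · rw [indicator_of_notMem hx, eta_zero hδ (far hV hδ hx).le]
        simp
    refine (diffs (by positivity) hφ ENNReal.ofReal_ne_top h1).trans (le_of_eq ?_)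
    rw [← mul_assoc, ← ENNReal.ofReal_mul (by positivity), ← ENNReal.ofReal_mul (by positivity)]
    congr 2
    field_simp
  -- second term
  have hb2 : eLpNorm F2 2 volume ≤ ENNReal.ofReal (B * L * ((M + 1) ^ 3 * bv) * δ) *
      eLpNorm φ 2 volume := by
    have h1 : ∀ y, ‖F2 y‖ₑ ≤ ENNReal.ofReal (B * (δ ^ 3)⁻¹ * (δ * L)) *
        ∫⁻ x in closedBall y ((M + 1) * δ), ‖φ x‖ₑ := by
      intro y
      refine (enorm_integral_le_lintegral_enorm _).trans ?_
      rw [← lintegral_const_mul' _ _ ENNReal.ofReal_ne_top,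
        ← lintegral_indicator isClosed_closedBall.measurableSet]
      refine lintegral_mono fun x => ?_
      by_cases hx : x ∈ closedBall y ((M + 1) * δ)
      · rw [indicator_of_mem hx, ← ofReal_norm, ← ofReal_norm,
          ← ENNReal.ofReal_mul (by positivity)]
        refine ENNReal.ofReal_le_ofReal ?_
        rw [norm_smul, norm_smul, Real.norm_of_nonneg hδ.le, mul_assoc]
        refine mul_le_mul (eta_bound hδ hB _) ?_ (by positivity) (by positivity)
        rw [mul_assoc]
        refine mul_le_mul_of_nonneg_left ?_ hδ.le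
        exact (ContinuousLinearMap.le_opNorm _ _).trans
          (mul_le_mul_of_nonneg_right (hV.dbd x) (norm_nonneg _))
      · rw [indicator_of_notMem hx, eta_zero hδ (far hV hδ hx).le]
        simp
    refine (schur (by positivity) hcφ.aestronglyMeasurable ENNReal.ofReal_ne_top h1).trans
      (le_of_eq ?_)
    rw [← ENNReal.ofReal_mul (by positivity)]
    congr 2
    field_simp
  -- third term
  have hb3 : eLpNorm F3 2 volume ≤
      ENNReal.ofReal (B * L * (M + 1) * ((M + 1) ^ 3 * bv) * δ) * eLpNorm φ 2 volume := by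
    have h1 : ∀ y, ‖F3 y‖ ≤ ‖(B * L * (M + 1) * ((M + 1) ^ 3 * bv) * δ) • φ y‖ := by
      intro y
      simp only [F3]
      rw [norm_smul, norm_smul]
      refine mul_le_mul_of_nonneg_right ?_ (norm_nonneg _)
      refine (m_bound hV hδ hB' y).trans ?_
      rw [Real.norm_of_nonneg (by positivity)]
    have h2 := eLpNorm_const_smul (B * L * (M + 1) * ((M + 1) ^ 3 * bv) * δ) φ 2 volume
    refine (eLpNorm_mono h1).trans (le_of_eq (Eq.trans h2 ?_))
    rw [← ofReal_norm, Real.norm_of_nonneg (by positivity)]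
  rw [hdec]
  refine (eLpNorm_add_le (hm1.sub hm2) hm3 (by norm_num)).trans ?_
  refine add_le_add ?_ hb3
  exact (eLpNorm_sub_le hm1 hm2 (by norm_num)).trans (add_le_add hb1 hb2)

end

end Pool.Agent.Helper52.NSE
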