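import Pool.Agent.Helper52.NSE.Defs

/-!
Pushing a smooth bounded domain into itself.
-/

open MeasureTheory Set Filter Topology Metric
open scoped ContDiff

namespace Pool.Agent.Helper52.NSE

theorem IsSmoothBoundedDomain.isOpen {Ω : Set E3} (hΩ : IsSmoothBoundedDomain Ω) : IsOpen Ω := by
  obtain ⟨r, hr, rfl, -⟩ := hΩ.defining
  exact isOpen_lt hr.continuous continuous_const

/-- A second-order Taylor bound on a convex set. -/
theorem taylor_bound {r : E3 → ℝ} (hr : ContDiff ℝ ∞ r) {s : Set E3} (hs : Convex ℝ s)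
    {L : ℝ} (hL0 : 0 ≤ L)
    (hL : ∀ x ∈ s, ∀ y ∈ s, ‖fderiv ℝ r x - fderiv ℝ r y‖ ≤ L * ‖x - y‖) {x y : E3}
    (hx : x ∈ s) (hy : y ∈ s) : ‖r y - r x - fderiv ℝ r x (y - x)‖ ≤ L * ‖y - x‖ ^ 2 := by
  have h1 : ∀ z ∈ segment ℝ x y, ‖fderiv ℝ r z - fderiv ℝ r x‖ ≤ L * ‖y - x‖ := by
    intro z hz
    have hzs : z ∈ s := hs.segment_subset hx hy hz
    refine (hL z hzs x hx).trans (mul_le_mul_of_nonneg_left ?_ hL0)
    obtain ⟨a, b, ha, hb, hab, rfl⟩ := hz
    have e : a • x + b • y - x = b • (y - x) := by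
      have : a = 1 - b := by linarith
      rw [this]
      module
    rw [e, norm_smul, Real.norm_of_nonneg hb]
    exact mul_le_of_le_one_left (norm_nonneg _) (by linarith)
  have h2 := (convex_segment x y).norm_image_sub_le_of_norm_fderiv_le' (f := r)
    (fun z _ => (hr.differentiable (by simp)) z) h1 (left_mem_segment ℝ x y)
    (right_mem_segment ℝ x y)
  refine h2.trans (le_of_eq ?_)
  ring

theorem exists_push0 {Ω : Set E3} (hΩ : IsSmoothBoundedDomain Ω) :
    ∃ V : E3 → E3, ContDiff ℝ ∞ V ∧ HasCompactSupport V ∧ ∃ c₀ δ₀ : ℝ, 0 < c₀ ∧ 0 < δ₀ ∧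
      ∀ δ, 0 < δ → δ ≤ δ₀ → ∃ K : Set E3, IsCompact K ∧ K ⊆ Ω ∧
        ∀ x ∈ Ω, ∀ y, ‖y - (x - δ • V x)‖ ≤ c₀ * δ → y ∈ K := by
  obtain ⟨r, hr, hΩr, hr0⟩ := hΩ.defining
  obtain ⟨R, hR0, hR⟩ : ∃ R : ℝ, 0 < R ∧ Ω ⊆ closedBall 0 R := by
    obtain ⟨R, hR⟩ := hΩ.bdd.subset_closedBall (0 : E3)
    exact ⟨max R 1, by positivity, hR.trans (closedBall_subset_closedBall (le_max_left _ _))⟩
  -- the gradient field, cut off
  let χ : ContDiffBump (0 : E3) := ⟨R + 1, R + 2, by linarith, by linarith⟩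
  let g : E3 → E3 := fun x => (InnerProductSpace.toDual ℝ E3).symm (fderiv ℝ r x)
  have hg : ContDiff ℝ ∞ g :=
    (InnerProductSpace.toDual ℝ E3).symm.contDiff.comp (hr.fderiv_right (by simp))
  have hgi : ∀ x v, inner ℝ (g x) v = fderiv ℝ r x v := by
    intro x v
    simp only [g]
    rw [InnerProductSpace.toDual_symm_apply]
  have hgn : ∀ x, ‖g x‖ = ‖fderiv ℝ r x‖ := fun x => LinearIsometryEquiv.norm_map _ _
  -- bounds on a ball
  have hBc : IsCompact (closedBall (0 : E3) (R + 1)) := isCompact_closedBall _ _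
  obtain ⟨M, hM⟩ := hBc.exists_bound_of_continuousOn (f := g) hg.continuous.continuousOn
  obtain ⟨L, hL⟩ := hBc.exists_bound_of_continuousOn (f := fderiv ℝ (fderiv ℝ r))
    ((hr.fderiv_right (m := ∞) (by simp)).continuous_fderiv (by simp)).continuousOn
  set M' := max M 1 with hM'
  set L' := max L 1 with hL'
  have hM1 : ∀ x ∈ closedBall (0 : E3) (R + 1), ‖g x‖ ≤ M' := fun x hx =>
    (hM x hx).trans (le_max_left _ _)
  have hM0 : 0 < M' := by positivity
  have hL0 : 0 < L' := by positivity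
  have hL1 : ∀ x ∈ closedBall (0 : E3) (R + 1), ∀ y ∈ closedBall (0 : E3) (R + 1),
      ‖fderiv ℝ r x - fderiv ℝ r y‖ ≤ L' * ‖x - y‖ := by
    intro x hx y hy
    exact (convex_closedBall (0 : E3) (R + 1)).norm_image_sub_le_of_norm_fderiv_le
      (f := fderiv ℝ r) (fun z _ => ((hr.fderiv_right (m := ∞) (by simp)).differentiable
        (by simp)) z) (fun z hz => (hL z hz).trans (le_max_left _ _)) hy hx
  -- positivity on the closure
  have hcl : IsCompact (closure Ω) := hΩ.bdd.isCompact_closure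
  have hne : (closure Ω).Nonempty := hΩ.conn.nonempty.closure
  have hle : ∀ x ∈ closure Ω, r x ≤ 0 := by
    intro x hx
    have : closure Ω ⊆ {x | r x ≤ 0} := by
      refine closure_minimal ?_ (isClosed_le hr.continuous continuous_const)
      rw [hΩr]
      intro x hx
      have hx' : r x < 0 := hx
      exact hx'.le
    exact this hx
  obtain ⟨x₀, hx₀, hmin⟩ := hcl.exists_isMinOn hne (f := fun x => ‖g x‖ ^ 2 - r x)
    ((hg.continuous.norm.pow 2).sub hr.continuous).continuousOn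
  set h₀ := ‖g x₀‖ ^ 2 - r x₀ with hh₀
  have hh0 : 0 < h₀ := by
    have h1 := hle x₀ hx₀
    rcases h1.lt_or_eq with h2 | h2
    · have := sq_nonneg ‖g x₀‖
      linarith
    · have h3 := hr0 x₀ h2
      have h4 : 0 < ‖g x₀‖ := by
        rw [hgn]
        exact norm_pos_iff.mpr h3
      have : 0 < ‖g x₀‖ ^ 2 := by positivity
      linarith
  have hmin' : ∀ x ∈ Ω, h₀ ≤ ‖g x‖ ^ 2 - r x := fun x hx => hmin (subset_closure hx)
  refine ⟨fun x => χ x • g x, χ.contDiff.smul hg, χ.hasCompactSupport.smul_right,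
    min (1 / 2) (h₀ / (4 * M')), min (min 1 (1 / (2 * M'))) (h₀ / (2 * (L' * M' ^ 2))),
    by positivity, by positivity, ?_⟩
  intro δ hδ hδ0
  have hδ1 : δ ≤ 1 := hδ0.trans ((min_le_left _ _).trans (min_le_left _ _))
  have hδ2 : δ * M' ≤ 1 / 2 := by
    have := hδ0.trans ((min_le_left _ _).trans (min_le_right _ _))
    rw [le_div_iff₀ (by positivity)] at this
    linarith
  have hδ3 : L' * M' ^ 2 * δ ≤ h₀ / 2 := by
    have := hδ0.trans (min_le_right _ _)
    rw [le_div_iff₀ (by positivity)] at this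
    linarith
  refine ⟨{y | r y ≤ -(δ * h₀ / 4)}, ?_, ?_, ?_⟩
  · have hsub : {y | r y ≤ -(δ * h₀ / 4)} ⊆ Ω := by
      rw [hΩr]
      intro y hy
      have hy' : r y ≤ -(δ * h₀ / 4) := hy
      have : 0 < δ * h₀ / 4 := by positivity
      show r y < 0
      linarith
    exact Metric.isCompact_of_isClosed_isBounded (isClosed_le hr.continuous continuous_const)
      (hΩ.bdd.subset hsub)
  · rw [hΩr]
    intro y hy
    have hy' : r y ≤ -(δ * h₀ / 4) := hy
    have : 0 < δ * h₀ / 4 := by positivity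
    show r y < 0
    linarith
  · intro x hx y hy
    have hxR : ‖x‖ ≤ R := by simpa using hR hx
    have hχ : χ x = 1 := χ.one_of_mem_closedBall (by simpa using by linarith)
    replace hy : ‖y - (x - δ • (χ x • g x))‖ ≤ min (1 / 2) (h₀ / (4 * M')) * δ := hy
    rw [hχ, one_smul] at hy
    have hxB : x ∈ closedBall (0 : E3) (R + 1) := by
      rw [mem_closedBall_zero_iff]
      linarith
    have hgx := hM1 x hxB
    set z := x - δ • g x with hz
    have hzx : ‖z - x‖ = δ * ‖g x‖ := by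
      have : z - x = -(δ • g x) := by rw [hz]; abel
      rw [this, norm_neg, norm_smul, Real.norm_of_nonneg hδ.le]
    have hzx' : ‖z - x‖ ≤ 1 / 2 := by
      rw [hzx]
      exact (mul_le_mul_of_nonneg_left hgx hδ.le).trans hδ2
    have hzn : ‖z‖ ≤ R + 1 / 2 := by
      have := norm_add_le (z - x) x
      rw [sub_add_cancel] at this
      linarith
    have hzB : z ∈ closedBall (0 : E3) (R + 1) := by
      rw [mem_closedBall_zero_iff]
      linarith
    have hyz : ‖y - z‖ ≤ 1 / 2 := by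
      refine hy.trans ?_
      have := min_le_left (1 / 2) (h₀ / (4 * M'))
      nlinarith
    have hyB : y ∈ closedBall (0 : E3) (R + 1) := by
      rw [mem_closedBall_zero_iff]
      have := norm_add_le (y - z) z
      rw [sub_add_cancel] at this
      linarith
    -- value at `z`
    have h1 := taylor_bound hr (convex_closedBall (0 : E3) (R + 1)) hL0.le hL1 hxB hzB
    have h2 : fderiv ℝ r x (z - x) = -(δ * ‖g x‖ ^ 2) := by
      have : z - x = -(δ • g x) := by rw [hz]; abel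
      rw [this, map_neg, map_smul, ← hgi, real_inner_self_eq_norm_sq, smul_eq_mul]
    rw [h2, Real.norm_eq_abs] at h1
    have h3 := (abs_le.mp h1).2
    have h4 : L' * ‖z - x‖ ^ 2 ≤ L' * M' ^ 2 * δ * δ := by
      rw [hzx, mul_pow]
      have : ‖g x‖ ^ 2 ≤ M' ^ 2 := pow_le_pow_left₀ (norm_nonneg _) hgx 2
      have h5 : 0 ≤ L' * δ ^ 2 := by positivity
      nlinarith
    have hrx : r x < 0 := by
      rw [hΩr] at hx
      exact hx
    have h5 := hmin' x hx
    have h6 : r z ≤ -(δ * h₀ / 2) := by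
      have h7 : L' * M' ^ 2 * δ * δ ≤ h₀ / 2 * δ := mul_le_mul_of_nonneg_right hδ3 hδ.le
      have h8 : δ * h₀ ≤ δ * (‖g x‖ ^ 2 - r x) := mul_le_mul_of_nonneg_left h5 hδ.le
      nlinarith
    -- value at `y`
    have h7 : |r y - r z| ≤ M' * ‖y - z‖ := by
      have := (convex_closedBall (0 : E3) (R + 1)).norm_image_sub_le_of_norm_fderiv_le
        (f := r) (C := M') (fun w _ => (hr.differentiable (by simp)) w) (fun w hw => by
          rw [← hgn]
          exact hM1 w hw) hzB hyB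
      simpa using this
    have h8 : M' * ‖y - z‖ ≤ δ * h₀ / 4 := by
      have h9 : ‖y - z‖ ≤ h₀ / (4 * M') * δ :=
        hy.trans (mul_le_mul_of_nonneg_right (min_le_right _ _) hδ.le)
      have h10 : M' * (h₀ / (4 * M') * δ) = δ * h₀ / 4 := by
        field_simp
      rw [← h10]
      exact mul_le_mul_of_nonneg_left h9 hM0.le
    have h9 := (abs_le.mp h7).2
    show r y ≤ -(δ * h₀ / 4)
    linarith

/-- The domain is pushed into itself along a smooth field. -/
theorem exists_push {Ω : Set E3} (hΩ : IsSmoothBoundedDomain Ω) :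
    ∃ V : E3 → E3, ContDiff ℝ ∞ V ∧ HasCompactSupport V ∧ ∃ δ₀ : ℝ, 0 < δ₀ ∧
      ∀ δ, 0 < δ → δ ≤ δ₀ → ∃ K : Set E3, IsCompact K ∧ K ⊆ Ω ∧
        ∀ x ∈ Ω, ∀ y, ‖y - (x - δ • V x)‖ ≤ δ → y ∈ K := by
  obtain ⟨V, hV, hVc, c, δ₀, hc, hδ₀, h⟩ := exists_push0 hΩ
  have hV' : ContDiff ℝ ∞ fun x => c⁻¹ • V x := hV.const_smul c⁻¹
  have hVc' : HasCompactSupport fun x => c⁻¹ • V x :=
    hVc.comp_left (g := fun v : E3 => c⁻¹ • v) (smul_zero _)
  refine ⟨fun x => c⁻¹ • V x, hV', hVc', c * δ₀, mul_pos hc hδ₀, ?_⟩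
  intro δ hδ hδ'
  have h1 : 0 < c⁻¹ * δ := mul_pos (inv_pos.mpr hc) hδ
  have h2 : c⁻¹ * δ ≤ δ₀ := by
    rw [inv_mul_le_iff₀ hc]
    exact hδ'
  obtain ⟨K, hK, hKΩ, h3⟩ := h (c⁻¹ * δ) h1 h2
  refine ⟨K, hK, hKΩ, fun x hx y hy => h3 x hx y ?_⟩
  have e1 : (c⁻¹ * δ) • V x = δ • c⁻¹ • V x := by rw [smul_smul, mul_comm]
  have e2 : c * (c⁻¹ * δ) = δ := by
    rw [← mul_assoc, mul_inv_cancel₀ hc.ne', one_mul]
  rw [e1, e2]
  exact hy

end Pool.Agent.Helper52.NSE
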