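import Pool.Agent.Helper52.NSE.Schur

/-!
The smoothing operator which preserves divergence-free fields and pushes supports inside.
-/

open MeasureTheory Set Filter Topology Metric
open scoped ContDiff

namespace Pool.Agent.Helper52.NSE

/-- a fixed bump function -/
noncomputable def bump0 : ContDiffBump (0 : E3) := ⟨1 / 2, 1, by norm_num, by norm_num⟩

/-- a fixed mollifier -/
noncomputable def eta0 (x : E3) : ℝ := bump0.normed volume x

theorem eta0_contDiff : ContDiff ℝ ∞ eta0 := bump0.contDiff_normed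

theorem eta0_nonneg (x : E3) : 0 ≤ eta0 x := bump0.nonneg_normed x

theorem eta0_compact : HasCompactSupport eta0 := bump0.hasCompactSupport_normed

theorem eta0_integral : ∫ x, eta0 x = 1 := bump0.integral_normed

theorem eta0_zero {x : E3} (h : 1 ≤ ‖x‖) : eta0 x = 0 := by
  by_contra h0
  have h1 : x ∈ Function.support eta0 := h0
  have h2 : Function.support eta0 = ball 0 bump0.rOut := bump0.support_normed_eq
  rw [h2, mem_ball_zero_iff] at h1
  have : bump0.rOut = 1 := rfl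
  rw [this] at h1
  linarith

theorem exists_B : ∃ B : ℝ, 0 < B ∧ (∀ x, ‖eta0 x‖ ≤ B) ∧ ∀ x, ‖fderiv ℝ eta0 x‖ ≤ B := by
  obtain ⟨B1, h1⟩ := eta0_compact.exists_bound_of_continuous eta0_contDiff.continuous
  obtain ⟨B2, h2⟩ := (eta0_compact.fderiv (𝕜 := ℝ)).exists_bound_of_continuous
    (eta0_contDiff.continuous_fderiv (by simp))
  refine ⟨max (max B1 B2) 1, by positivity, fun x => ?_, fun x => ?_⟩
  · exact (h1 x).trans ((le_max_left _ _).trans (le_max_left _ _))
  · exact (h2 x).trans ((le_max_right _ _).trans (le_max_left _ _))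

/-- the rescaled mollifier -/
noncomputable def eta (δ : ℝ) (y : E3) : ℝ := (δ ^ 3)⁻¹ * eta0 (δ⁻¹ • y)

section eta

variable {δ : ℝ} (hδ : 0 < δ)

theorem eta_contDiff : ContDiff ℝ ∞ (eta δ) := by
  have h1 : ContDiff ℝ ∞ fun y : E3 => δ⁻¹ • y := contDiff_id.const_smul δ⁻¹
  exact contDiff_const.mul (eta0_contDiff.comp h1)

include hδ

theorem eta_nonneg (y : E3) : 0 ≤ eta δ y :=
  mul_nonneg (by positivity) (eta0_nonneg _)

theorem eta_zero {y : E3} (h : δ ≤ ‖y‖) : eta δ y = 0 := by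
  unfold eta
  rw [eta0_zero, mul_zero]
  rw [norm_smul, norm_inv, Real.norm_of_nonneg hδ.le, inv_mul_eq_div, one_le_div hδ]
  exact h

theorem eta_compact : HasCompactSupport (eta δ) := by
  refine HasCompactSupport.of_support_subset_isCompact (isCompact_closedBall (0 : E3) δ) ?_
  intro y hy
  by_contra h
  rw [mem_closedBall_zero_iff, not_le] at h
  exact hy (eta_zero hδ h.le)

theorem eta_integral : ∫ y, eta δ y = 1 := by
  unfold eta
  rw [integral_const_mul, Measure.integral_comp_inv_smul, eta0_integral]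
  simp only [finrank_euclideanSpace, Fintype.card_fin, smul_eq_mul, mul_one]
  rw [abs_of_pos (by positivity)]
  field_simp

theorem eta_bound {B : ℝ} (hB : ∀ x, ‖eta0 x‖ ≤ B) (y : E3) : ‖eta δ y‖ ≤ B * (δ ^ 3)⁻¹ := by
  unfold eta
  rw [norm_mul, Real.norm_of_nonneg (by positivity : (0 : ℝ) ≤ (δ ^ 3)⁻¹), mul_comm]
  exact mul_le_mul_of_nonneg_right (hB _) (by positivity)

theorem eta_fderiv_bound {B : ℝ} (hB : ∀ x, ‖fderiv ℝ eta0 x‖ ≤ B) (y : E3) :
    ‖fderiv ℝ (eta δ) y‖ ≤ B * (δ ^ 4)⁻¹ := by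
  have h1 : HasFDerivAt (fun y : E3 => δ⁻¹ • y) (δ⁻¹ • ContinuousLinearMap.id ℝ E3) y :=
    (hasFDerivAt_id y).const_smul δ⁻¹
  have h2 : HasFDerivAt eta0 (fderiv ℝ eta0 (δ⁻¹ • y)) (δ⁻¹ • y) :=
    (eta0_contDiff.differentiable (by simp) _).hasFDerivAt
  have h3 : HasFDerivAt (eta δ)
      ((δ ^ 3)⁻¹ • (fderiv ℝ eta0 (δ⁻¹ • y)).comp (δ⁻¹ • ContinuousLinearMap.id ℝ E3)) y :=
    (h2.comp y h1).const_mul (δ ^ 3)⁻¹
  rw [h3.fderiv, norm_smul, Real.norm_of_nonneg (by positivity : (0 : ℝ) ≤ (δ ^ 3)⁻¹)]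
  have h4 : ‖(fderiv ℝ eta0 (δ⁻¹ • y)).comp (δ⁻¹ • ContinuousLinearMap.id ℝ E3)‖ ≤ B * δ⁻¹ := by
    refine (ContinuousLinearMap.opNorm_comp_le _ _).trans ?_
    refine mul_le_mul (hB _) ?_ (norm_nonneg _) ((norm_nonneg _).trans (hB 0))
    rw [norm_smul, Real.norm_of_nonneg (by positivity : (0 : ℝ) ≤ δ⁻¹)]
    exact mul_le_of_le_one_right (by positivity) ContinuousLinearMap.norm_id_le
  calc (δ ^ 3)⁻¹ * ‖(fderiv ℝ eta0 (δ⁻¹ • y)).comp (δ⁻¹ • ContinuousLinearMap.id ℝ E3)‖
      ≤ (δ ^ 3)⁻¹ * (B * δ⁻¹) := mul_le_mul_of_nonneg_left h4 (by positivity)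
    _ = B * (δ ^ 4)⁻¹ := by
      field_simp

end eta

/-- Assumptions on the field along which we push. -/
structure PushData (V : E3 → E3) (M L : ℝ) : Prop where
  smooth : ContDiff ℝ ∞ V
  M0 : 0 ≤ M
  L0 : 0 ≤ L
  bd : ∀ x, ‖V x‖ ≤ M
  dbd : ∀ x, ‖fderiv ℝ V x‖ ≤ L

theorem exists_pushData {V : E3 → E3} (hV : ContDiff ℝ ∞ V) (hc : HasCompactSupport V) :
    ∃ M L, PushData V M L := by
  obtain ⟨M, hM⟩ := hc.exists_bound_of_continuous hV.continuous
  obtain ⟨L, hL⟩ := (hc.fderiv (𝕜 := ℝ)).exists_bound_of_continuous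
    (hV.continuous_fderiv (by simp))
  exact ⟨M, L, hV, (norm_nonneg _).trans (hM 0), (norm_nonneg _).trans (hL 0), hM, hL⟩

/-- the map -/
noncomputable def Tm (V : E3 → E3) (δ : ℝ) (x : E3) : E3 := x - δ • V x

/-- the transported field -/
noncomputable def lift (V : E3 → E3) (δ : ℝ) (w : E3 → E3) (x : E3) : E3 :=
  w x - δ • fderiv ℝ V x (w x)

/-- the smoothing operator -/
noncomputable def Psi (V : E3 → E3) (δ : ℝ) (w : E3 → E3) (y : E3) : E3 :=
  ∫ x, eta δ (y - Tm V δ x) • lift V δ w x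

section Psi

variable {V : E3 → E3} {M L : ℝ} (hV : PushData V M L) {δ : ℝ}

include hV

theorem Tm_contDiff : ContDiff ℝ ∞ (Tm V δ) := contDiff_id.sub (hV.smooth.const_smul δ)

theorem V_lip (x y : E3) : ‖V x - V y‖ ≤ L * ‖x - y‖ :=
  convex_univ.norm_image_sub_le_of_norm_fderiv_le
    (fun z _ => hV.smooth.differentiable (by simp) z) (fun z _ => hV.dbd z) (mem_univ y)
    (mem_univ x)

theorem Tm_inj (hδ : 0 < δ) (hδL : δ * L ≤ 1 / 2) : Function.Injective (Tm V δ) := by
  intro x y h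
  unfold Tm at h
  have h1 : x - y = δ • (V x - V y) := by
    rw [smul_sub]
    have h5 : x = y - δ • V y + δ • V x := by rw [← h]; abel
    nth_rewrite 1 [h5]
    abel
  have h2 : ‖x - y‖ ≤ 1 / 2 * ‖x - y‖ := by
    calc ‖x - y‖ = ‖δ • (V x - V y)‖ := by rw [← h1]
      _ = δ * ‖V x - V y‖ := by rw [norm_smul, Real.norm_of_nonneg hδ.le]
      _ ≤ δ * (L * ‖x - y‖) := mul_le_mul_of_nonneg_left (V_lip hV x y) hδ.le
      _ = (δ * L) * ‖x - y‖ := by ring
      _ ≤ 1 / 2 * ‖x - y‖ := mul_le_mul_of_nonneg_right hδL (norm_nonneg _)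
  have h3 : ‖x - y‖ ≤ 0 := by linarith [norm_nonneg (x - y)]
  exact sub_eq_zero.mp (norm_le_zero_iff.mp h3)

theorem Tm_near (hδ : 0 < δ) (x : E3) : ‖Tm V δ x - x‖ ≤ M * δ := by
  have : Tm V δ x - x = -(δ • V x) := by unfold Tm; abel
  rw [this, norm_neg, norm_smul, Real.norm_of_nonneg hδ.le, mul_comm]
  exact mul_le_mul_of_nonneg_right (hV.bd x) hδ.le

theorem lift_norm (hδ : 0 < δ) (hδ1 : δ ≤ 1) (w : E3 → E3) (x : E3) :
    ‖lift V δ w x‖ ≤ (1 + L) * ‖w x‖ := by
  unfold lift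
  refine (norm_sub_le _ _).trans ?_
  rw [norm_smul, Real.norm_of_nonneg hδ.le]
  have h1 : ‖fderiv ℝ V x (w x)‖ ≤ L * ‖w x‖ :=
    (ContinuousLinearMap.le_opNorm _ _).trans
      (mul_le_mul_of_nonneg_right (hV.dbd x) (norm_nonneg _))
  have h2 : δ * ‖fderiv ℝ V x (w x)‖ ≤ 1 * (L * ‖w x‖) :=
    mul_le_mul hδ1 h1 (norm_nonneg _) zero_le_one
  linarith

theorem lift_meas {w : E3 → E3} {μ : Measure E3} (hw : AEStronglyMeasurable w μ) :
    AEStronglyMeasurable (lift V δ w) μ := by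
  have h1 : AEStronglyMeasurable (fun x => fderiv ℝ V x (w x)) μ :=
    (ContinuousLinearMap.id ℝ (E3 →L[ℝ] E3)).aestronglyMeasurable_comp₂
      (hV.smooth.continuous_fderiv (by simp)).aestronglyMeasurable hw
  exact hw.sub (h1.const_smul δ)

theorem lift_integrable (hδ : 0 < δ) (hδ1 : δ ≤ 1) {w : E3 → E3} (hw : Integrable w volume) :
    Integrable (lift V δ w) volume :=
  (hw.norm.const_mul (1 + L)).mono' (lift_meas hV hw.1)
    (Eventually.of_forall fun x => lift_norm hV hδ hδ1 w x)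

theorem Psi_contDiff (hδ : 0 < δ) (hδ1 : δ ≤ 1) (hδL : δ * L ≤ 1 / 2) {w : E3 → E3}
    (hw : Integrable w volume) : ContDiff ℝ ∞ (Psi V δ w) := by
  have hemb : MeasurableEmbedding (Tm V δ) :=
    (Tm_contDiff hV).continuous.measurableEmbedding (Tm_inj hV hδ hδL)
  set g := lift V δ w with hg
  set h : E3 → E3 := fun z => g (Function.invFun (Tm V δ) z) with hh
  have hcomp : ∀ x, h (Tm V δ x) = g x := by
    intro x
    simp only [hh]
    rw [Function.leftInverse_invFun (Tm_inj hV hδ hδL) x]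
  have hint : Integrable h (volume.map (Tm V δ)) := by
    rw [hemb.integrable_map_iff]
    refine (lift_integrable hV hδ hδ1 hw).congr (Eventually.of_forall fun x => ?_)
    exact (hcomp x).symm
  have e : Psi V δ w = convolution h (eta δ) (ContinuousLinearMap.lsmul ℝ ℝ).flip
      (volume.map (Tm V δ)) := by
    funext y
    unfold convolution
    rw [hemb.integral_map]
    unfold Psi
    refine integral_congr_ae (Eventually.of_forall fun x => ?_)
    simp only [ContinuousLinearMap.flip_apply, ContinuousLinearMap.lsmul_apply]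
    rw [hcomp]
  rw [e]
  exact (eta_compact hδ).contDiff_convolution_right _ hint.locallyIntegrable eta_contDiff

theorem Psi_hasFDerivAt (hδ : 0 < δ) (hδ1 : δ ≤ 1) {w : E3 → E3}
    (hw : Integrable w volume) (y : E3) : HasFDerivAt (Psi V δ w)
      (∫ x, (fderiv ℝ (eta δ) (y - Tm V δ x)).smulRight (lift V δ w x)) y := by
  obtain ⟨B, hB0, -, hB⟩ := exists_B
  have hl := lift_integrable hV hδ hδ1 hw
  have hcT : Continuous (Tm V δ) := (Tm_contDiff hV).continuous
  have hce : Continuous (eta δ) := eta_contDiff.continuous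
  have hcd : Continuous (fderiv ℝ (eta δ)) := eta_contDiff.continuous_fderiv (by simp)
  refine hasFDerivAt_integral_of_dominated_of_fderiv_le (μ := volume) (s := univ)
    (F := fun y x => eta δ (y - Tm V δ x) • lift V δ w x)
    (F' := fun y x => (fderiv ℝ (eta δ) (y - Tm V δ x)).smulRight (lift V δ w x))
    (bound := fun x => B * (δ ^ 4)⁻¹ * ‖lift V δ w x‖) univ_mem ?_ ?_ ?_ ?_ ?_ ?_
  · exact Eventually.of_forall fun y => ((hce.comp (continuous_const.sub hcT)).aestronglyMeasurable).smul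
      hl.1
  · obtain ⟨B', -, hB', -⟩ := exists_B
    refine hl.norm.const_mul (B' * (δ ^ 3)⁻¹) |>.mono'
      (((hce.comp (continuous_const.sub hcT)).aestronglyMeasurable).smul hl.1)
      (Eventually.of_forall fun x => ?_)
    rw [norm_smul]
    exact mul_le_mul_of_nonneg_right (eta_bound hδ hB' _) (norm_nonneg _)
  · exact ((ContinuousLinearMap.smulRightL ℝ E3 E3).aestronglyMeasurable_comp₂
      (hcd.comp (continuous_const.sub hcT)).aestronglyMeasurable hl.1)
  · refine Eventually.of_forall fun x y _ => ?_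
    rw [ContinuousLinearMap.norm_smulRight_apply]
    exact mul_le_mul_of_nonneg_right (eta_fderiv_bound hδ hB _) (norm_nonneg _)
  · exact hl.norm.const_mul _
  · refine Eventually.of_forall fun x y _ => ?_
    have h1 : HasFDerivAt (fun y => eta δ (y - Tm V δ x)) (fderiv ℝ (eta δ) (y - Tm V δ x)) y := by
      have h2 : HasFDerivAt (fun y : E3 => y - Tm V δ x) (ContinuousLinearMap.id ℝ E3) y :=
        (hasFDerivAt_id y).sub_const _
      have h3 := ((eta_contDiff (δ := δ)).differentiable (by simp) (y - Tm V δ x)).hasFDerivAt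
      have h4 := h3.comp y h2
      rw [ContinuousLinearMap.comp_id] at h4
      exact h4
    exact h1.smul_const _

theorem Psi_pd (hδ : 0 < δ) (hδ1 : δ ≤ 1) {w : E3 → E3}
    (hw : Integrable w volume) (i : Fin 3) (y : E3) : pd (Psi V δ w) i y =
      ∫ x, (fderiv ℝ (eta δ) (y - Tm V δ x) (EuclideanSpace.single i 1)) • lift V δ w x := by
  have h1 := Psi_hasFDerivAt hV hδ hδ1 hw y
  unfold pd
  rw [h1.fderiv]
  have hint : Integrable (fun x => (fderiv ℝ (eta δ) (y - Tm V δ x)).smulRight (lift V δ w x))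
      volume := by
    obtain ⟨B, hB0, -, hB⟩ := exists_B
    have hl := lift_integrable hV hδ hδ1 hw
    have hcT : Continuous (Tm V δ) := (Tm_contDiff hV).continuous
    have hcd : Continuous (fderiv ℝ (eta δ)) := eta_contDiff.continuous_fderiv (by simp)
    refine (hl.norm.const_mul (B * (δ ^ 4)⁻¹)).mono'
      ((ContinuousLinearMap.smulRightL ℝ E3 E3).aestronglyMeasurable_comp₂
        (hcd.comp (continuous_const.sub hcT)).aestronglyMeasurable hl.1)
      (Eventually.of_forall fun x => ?_)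
    rw [ContinuousLinearMap.norm_smulRight_apply]
    exact mul_le_mul_of_nonneg_right (eta_fderiv_bound hδ hB _) (norm_nonneg _)
  rw [ContinuousLinearMap.integral_apply hint]
  rfl

end Psi

end Pool.Agent.Helper52.NSE
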