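import Pool.Agent.Helper52.NSE.Drop2

/-!
Conditions excluding a drop of the energy from the left.
-/

open MeasureTheory Set Filter Topology Metric
open scoped ENNReal

namespace Pool.Agent.Helper52.NSE

variable {Ω : Set E3} {ν T : ℝ} {u₀ : E3 → E3} {f u : ℝ → E3 → E3} {G : ℝ → Fin 3 → E3 → E3}

theorem IsWeakSolution.left_cond (hΩ : IsSmoothBoundedDomain Ω) (hν : 0 < ν)
    (h : IsWeakSolution Ω ν T u₀ f u G) {t₀ : ℝ} (ht₀ : t₀ ≤ T) {p : ℝ≥0∞} (hp : 1 ≤ p)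
    (hc : ∀ c : ℝ, 0 < c → ∃ s, t₀ - c < s ∧ s < t₀ ∧ 0 ≤ s ∧ MemH1s Ω (u s) (G s) ∧
      ∃ U : ℝ, 0 ≤ U ∧ eLpNorm (u s) p (volume.restrict Ω) ≤ ENNReal.ofReal U ∧
      Real.sqrt ((t₀ - s) * (1 + gsq Ω (G s))) +
        (t₀ - s) * (1 + gsq Ω (G s)) ^ ((1 + 3 / p.toReal) / 2) * U < c) :
    ∀ η : ℝ, 0 < η → ∃ s, t₀ - η < s ∧ s < t₀ ∧ 0 ≤ s ∧
      defect Ω ν f u G t₀ ≤ defect Ω ν f u G s + η := by
  obtain ⟨C, δ₀, hC, hδ₀, hdrop⟩ := h.drop hΩ hν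
  intro η hη
  obtain ⟨q, hq⟩ : ∃ q, q = 3 / p.toReal := ⟨_, rfl⟩
  have hq0 : 0 ≤ q := hq ▸ (div_nonneg (by norm_num) ENNReal.toReal_nonneg)
  obtain ⟨l, hl⟩ : ∃ l, l = min δ₀ (Real.sqrt (η / (4 * C))) := ⟨_, rfl⟩
  have hη4 : 0 < η / (4 * C) := by positivity
  have hl0 : 0 < l := hl ▸ lt_min hδ₀ (Real.sqrt_pos.mpr hη4)
  have hl1 : l ≤ δ₀ := hl ▸ min_le_left _ _
  have hl2 : l ^ 2 ≤ η / (4 * C) := by
    have h1 : l ≤ Real.sqrt (η / (4 * C)) := hl ▸ min_le_right _ _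
    have h2 := pow_le_pow_left₀ hl0.le h1 2
    rwa [Real.sq_sqrt hη4.le] at h2
  have ht₀0 : 0 < t₀ := by
    obtain ⟨s, -, h1, h2, -⟩ := hc 1 one_pos
    linarith
  have hT : 0 ≤ T := ht₀0.le.trans ht₀
  have hcont : ContinuousOn (fun x => ∫ τ in (0)..x, nm Ω (f τ)) (Icc 0 T) := by
    have := intervalIntegral.continuousOn_primitive_interval (μ := volume)
      (f := fun τ => nm Ω (f τ)) (a := 0) (b := T) (by rw [uIcc_of_le hT]; exact h.nmf_int)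
    rwa [uIcc_of_le hT] at this
  obtain ⟨c₁, hc₁, hc₂⟩ := Metric.continuousWithinAt_iff.mp (hcont t₀ ⟨ht₀0.le, ht₀⟩) _ hη4
  have hlq : 0 < l ^ (1 + q) := Real.rpow_pos_of_pos hl0 _
  obtain ⟨c, hcd⟩ : ∃ c, c = min (min η c₁) (min (l * (η / (4 * C))) (l ^ (1 + q) * (η / (4 * C)))) :=
    ⟨_, rfl⟩
  have hc0 : 0 < c := hcd ▸ lt_min (lt_min hη hc₁) (lt_min (by positivity) (by positivity))
  have hcη : c ≤ η := hcd ▸ (min_le_left _ _).trans (min_le_left _ _)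
  have hcc : c ≤ c₁ := hcd ▸ (min_le_left _ _).trans (min_le_right _ _)
  have hcl : c ≤ l * (η / (4 * C)) := hcd ▸ (min_le_right _ _).trans (min_le_left _ _)
  have hcl' : c ≤ l ^ (1 + q) * (η / (4 * C)) := hcd ▸ (min_le_right _ _).trans (min_le_right _ _)
  obtain ⟨s, hs1, hs2, hs3, hmem, U, hU, hUp, hsmall⟩ := hc c hc0
  refine ⟨s, by linarith, hs2, hs3, ?_⟩
  rw [← hq] at hsmall
  have hg0 := gsq_nonneg Ω (G s)
  obtain ⟨g, hg⟩ : ∃ g, g = 1 + gsq Ω (G s) := ⟨_, rfl⟩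
  have hg1 : 1 ≤ g := by rw [hg]; linarith
  rw [← hg] at hsmall
  have hsg : 1 ≤ Real.sqrt g := Real.one_le_sqrt.mpr hg1
  have hsg0 : 0 < Real.sqrt g := by linarith
  have hts : 0 < t₀ - s := by linarith
  have hd := hdrop s t₀ hs3 hs2 ht₀ hmem (l / Real.sqrt g) (by positivity)
    ((div_le_self hl0.le hsg).trans hl1) p hp U hU hUp
  rw [← hg, ← hq] at hd
  have n1 : (l / Real.sqrt g) ^ 2 * g = l ^ 2 := by
    rw [div_pow, Real.sq_sqrt (by linarith)]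
    field_simp
  have n2 : (l / Real.sqrt g)⁻¹ * Real.sqrt (t₀ - s) = l⁻¹ * Real.sqrt ((t₀ - s) * g) := by
    rw [Real.sqrt_mul hts.le]
    field_simp
  have n3 : (l / Real.sqrt g) ^ (-1 - q) = l ^ (-(1 + q)) * g ^ ((1 + q) / 2) := by
    rw [Real.div_rpow hl0.le hsg0.le, Real.sqrt_eq_rpow, ← Real.rpow_mul (by linarith),
      show -1 - q = -(1 + q) by ring, show 1 / 2 * -(1 + q) = -((1 + q) / 2) by ring,
      Real.rpow_neg (by linarith : (0 : ℝ) ≤ g), div_inv_eq_mul]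
  have hU0 : 0 ≤ (t₀ - s) * g ^ ((1 + q) / 2) * U :=
    mul_nonneg (mul_nonneg hts.le (Real.rpow_nonneg (by linarith) _)) hU
  have hr0 : 0 ≤ Real.sqrt ((t₀ - s) * g) := Real.sqrt_nonneg _
  have m2 : l⁻¹ * Real.sqrt ((t₀ - s) * g) ≤ η / (4 * C) := by
    rw [inv_mul_le_iff₀ hl0]
    linarith
  have m3 : (t₀ - s) * ((l / Real.sqrt g) ^ (-1 - q) * U) ≤ η / (4 * C) := by
    rw [n3, Real.rpow_neg hl0.le]
    have : (t₀ - s) * ((l ^ (1 + q))⁻¹ * g ^ ((1 + q) / 2) * U) =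
      (l ^ (1 + q))⁻¹ * ((t₀ - s) * g ^ ((1 + q) / 2) * U) := by ring
    rw [this, inv_mul_le_iff₀ hlq]
    linarith
  have m4 : ∫ τ in s..t₀, nm Ω (f τ) ≤ η / (4 * C) := by
    have h1 := hc₂ (x := s) ⟨hs3, hs2.le.trans ht₀⟩ (by
      rw [Real.dist_eq, abs_lt]; constructor <;> linarith)
    rw [Real.dist_eq] at h1
    have h2 := intervalIntegral.integral_add_adjacent_intervals
      (ii_of h.nmf_int le_rfl hs3 (hs2.le.trans ht₀)) (ii_of h.nmf_int hs3 hs2.le ht₀)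
    have h3 := (abs_lt.mp h1).1
    linarith
  rw [n1, n2] at hd
  have : C * (l ^ 2 + l⁻¹ * Real.sqrt ((t₀ - s) * g) +
      (t₀ - s) * ((l / Real.sqrt g) ^ (-1 - q) * U) + ∫ τ in s..t₀, nm Ω (f τ)) ≤ η := by
    calc _ ≤ C * (4 * (η / (4 * C))) := mul_le_mul_of_nonneg_left (by linarith) hC.le
      _ = η := by field_simp
  linarith

/-- upper semicontinuity of the energy defect -/
theorem IsWeakSolution.usc (h : IsWeakSolution Ω ν T u₀ f u G) {x : ℝ} (hx : x ∈ Icc 0 T) (η : ℝ)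
    (hη : 0 < η) :
    ∀ᶠ t in 𝓝[Icc 0 T] x, defect Ω ν f u G t ≤ defect Ω ν f u G x + η := by
  have hT : 0 ≤ T := hx.1.trans hx.2
  have hux := (h.mem x hx).memLp
  have c1 : ContinuousOn (fun t => ∫ τ in (0)..t, power Ω (f τ) (u τ)) (Icc 0 T) := by
    have := intervalIntegral.continuousOn_primitive_interval (μ := volume)
      (f := fun τ => power Ω (f τ) (u τ)) (a := 0) (b := T)
      (by rw [uIcc_of_le hT]; exact h.power_int)
    rwa [uIcc_of_le hT] at this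
  have c2 : ContinuousOn (fun t => ∫ τ in (0)..t, diss Ω ν (G τ)) (Icc 0 T) := by
    have := intervalIntegral.continuousOn_primitive_interval (μ := volume)
      (f := fun τ => diss Ω ν (G τ)) (a := 0) (b := T)
      (by rw [uIcc_of_le hT]; exact h.diss_int)
    rwa [uIcc_of_le hT] at this
  have c3 := h.weak_cont (u x) hux
  have c4 : ContinuousOn (fun t => kin Ω (u 0) + (∫ τ in (0)..t, power Ω (f τ) (u τ)) +
      ((∫ y in Ω, inner ℝ (u x y) (u x y)) - (∫ y in Ω, inner ℝ (u t y) (u x y)) -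
        kin Ω (u x)) - (volume Ω).toReal * ∫ τ in (0)..t, diss Ω ν (G τ)) (Icc 0 T) :=
    ((continuousOn_const.add c1).add ((continuousOn_const.sub c3).sub continuousOn_const)).sub
      (continuousOn_const.mul c2)
  have c5 := (c4 x hx).eventually (gt_mem_nhds (show _ < defect Ω ν f u G x + η by
    unfold defect
    linarith))
  filter_upwards [c5, self_mem_nhdsWithin] with t h1 h2
  have h3 := kin_sub_le hux (h.mem t h2).memLp hux
  have h4 : nm Ω (fun y => u x y - u x y) = 0 := by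
    unfold nm
    simp
  rw [h4] at h3
  unfold defect at *
  linarith

end Pool.Agent.Helper52.NSE
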