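import Pool.Agent.Helper52.NSE.Rate

/-!
Weak solutions of the Navier-Stokes equations, in short definitions.
-/

open MeasureTheory Set Filter Topology
open scoped ENNReal

namespace Pool.Agent.Helper52.NSE

section generic

variable {X E : Type} [MeasureSpace X] [NormedAddCommGroup E] [InnerProductSpace ℝ E]

/-- The field `g` is jointly measurable on `[0, T] × Ω`. -/
def JointMeas (T : ℝ) (Ω : Set X) (g : ℝ → X → E) : Prop :=
  AEStronglyMeasurable (fun q : ℝ × X => g q.1 q.2)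
    ((volume.restrict (Icc 0 T)).prod (volume.restrict Ω))

/-- The squared `L²(Ω)` norm, as a real number. -/
noncomputable def sqInt (Ω : Set X) (g : X → E) : ℝ := ∫ x in Ω, ‖g x‖ ^ 2

/-- The pairing `∫_Ω g · h`. -/
noncomputable def pair (Ω : Set X) (g h : X → E) : ℝ := ∫ x in Ω, inner ℝ (g x) (h x)

/-- Weak continuity on `[0, T]` with values in `L²(Ω)`. -/
def WeakCont (T : ℝ) (Ω : Set X) (u : ℝ → X → E) : Prop :=
  ∀ φ, MemLp φ 2 (volume.restrict Ω) → ContinuousOn (fun t => pair Ω (u t) φ) (Icc 0 T)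

/-- The property `P` holds at almost every time in `[0, T]`. -/
def ForAETime (T : ℝ) (P : ℝ → Prop) : Prop := ∀ᵐ t ∂(volume.restrict (Icc 0 T)), P t

/-- The function `g` is integrable on `[0, T]`. -/
def TimeInt (T : ℝ) (g : ℝ → ℝ) : Prop := IntegrableOn g (Icc 0 T)

/-- Equality almost everywhere in `Ω`. -/
def EqAE (Ω : Set X) (g h : X → E) : Prop := g =ᵐ[volume.restrict Ω] h

/-- The norm of `L^p(Ω)`. -/
noncomputable def lpNorm (Ω : Set X) (p : ℝ≥0∞) (g : X → E) : ℝ≥0∞ :=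
  eLpNorm g p (volume.restrict Ω)

end generic

/-- The squared `L²(Ω)` norm of the gradient, as a real number. -/
noncomputable def gradSq (Ω : Set E3) (G : Fin 3 → E3 → E3) : ℝ := ∫ x in Ω, ∑ i, ‖G i x‖ ^ 2

/-- The equations, tested with a divergence-free field and integrated in time. -/
def SolvesEquations (Ω : Set E3) (ν T : ℝ) (f u : ℝ → E3 → E3) (G : ℝ → Fin 3 → E3 → E3) :
    Prop :=
  ∀ φ, TestField Ω φ → ∀ s t, 0 ≤ s → s ≤ t → t ≤ T →
    pair Ω (u t) φ - pair Ω (u s) φ = ∫ τ in s..t, rhs Ω ν (f τ) (u τ) (G τ) φ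

/-- The left-hand side of the energy inequality. -/
noncomputable def energyLeft (Ω : Set E3) (ν : ℝ) (u : ℝ → E3 → E3) (G : ℝ → Fin 3 → E3 → E3)
    (t : ℝ) : ℝ :=
  kin Ω (u t) + (volume Ω).toReal * ∫ τ in (0)..t, diss Ω ν (G τ)

/-- The right-hand side of the energy inequality. -/
noncomputable def energyRight (Ω : Set E3) (f u : ℝ → E3 → E3) (t : ℝ) : ℝ :=
  kin Ω (u 0) + ∫ τ in (0)..t, power Ω (f τ) (u τ)

/-- `f ∈ L²(0, T; L²_σ)` -/
structure IsForce (Ω : Set E3) (T : ℝ) (f : ℝ → E3 → E3) : Prop where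
  meas : JointMeas T Ω f
  mem : ForAETime T fun t => MemL2s Ω (f t)
  int : TimeInt T fun t => sqInt Ω (f t)

/-- `u ∈ L^∞(0, T; L²_σ)`, weakly continuous in time -/
structure IsVelocity (Ω : Set E3) (T : ℝ) (u : ℝ → E3 → E3) : Prop where
  meas : JointMeas T Ω u
  mem : ∀ t ∈ Icc 0 T, MemL2s Ω (u t)
  bound : ∃ K : ℝ, ∀ t ∈ Icc 0 T, sqInt Ω (u t) ≤ K
  weak_cont : WeakCont T Ω u

/-- `u ∈ L²(0, T; H¹_{0,σ})` with gradient `G` -/
structure IsGradient (Ω : Set E3) (T : ℝ) (u : ℝ → E3 → E3) (G : ℝ → Fin 3 → E3 → E3) :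
    Prop where
  meas : ∀ i, JointMeas T Ω fun t => G t i
  mem : ForAETime T fun t => MemH1s Ω (u t) (G t)
  int : TimeInt T fun t => gradSq Ω (G t)

/-- `u` is a Leray-Hopf weak solution on `[0, T]` with initial value `u₀` and force `f`; the
family `G` is the gradient of `u`. -/
structure WeakSolution (Ω : Set E3) (ν T : ℝ) (u₀ : E3 → E3) (f u : ℝ → E3 → E3)
    (G : ℝ → Fin 3 → E3 → E3) : Prop where
  init_mem : MemL2s Ω u₀
  force : IsForce Ω T f
  velocity : IsVelocity Ω T u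
  gradient : IsGradient Ω T u G
  init : EqAE Ω (u 0) u₀
  /-- the equations -/
  eqn : SolvesEquations Ω ν T f u G
  /-- the energy inequality -/
  energy : ∀ t ∈ Icc 0 T, energyLeft Ω ν u G t ≤ energyRight Ω f u t

theorem WeakSolution.internal {Ω : Set E3} {ν T : ℝ} {u₀ : E3 → E3} {f u : ℝ → E3 → E3}
    {G : ℝ → Fin 3 → E3 → E3} (h : WeakSolution Ω ν T u₀ f u G) :
    IsWeakSolution Ω ν T u₀ f u G where
  init_mem := h.init_mem
  force_meas := h.force.meas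
  force_mem := h.force.mem
  force_int := h.force.int
  meas := h.velocity.meas
  mem := h.velocity.mem
  bound := h.velocity.bound
  grad_meas := h.gradient.meas
  grad_mem := h.gradient.mem
  grad_int := h.gradient.int
  weak_cont := h.velocity.weak_cont
  init := h.init
  eqn := h.eqn
  energy := h.energy

/-- The function `D` jumps upwards at `t₀` from the left. -/
def JumpsFromLeft (D : ℝ → ℝ) (t₀ : ℝ) : Prop :=
  ∃ η : ℝ, 0 < η ∧ ∀ s, t₀ - η < s → s < t₀ → 0 ≤ s → D s + η < D t₀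

/-- `ε(s) ≥ c (t₀ - s)^(-4/5)` for the times `s < t₀` close to `t₀` at which `G s` is the gradient
of `u s` (that is, for almost every such time). -/
def DissipationRate (Ω : Set E3) (ν : ℝ) (u : ℝ → E3 → E3) (G : ℝ → Fin 3 → E3 → E3)
    (t₀ : ℝ) : Prop :=
  ∃ c : ℝ, 0 < c ∧ c ≤ t₀ ∧ ∀ s ∈ Ioo (t₀ - c) t₀, MemH1s Ω (u s) (G s) →
    c * (t₀ - s) ^ (-(4 / 5) : ℝ) ≤ diss Ω ν (G s)

/-- `(t₀ - s)^((1 - 3/p)/2) ‖u(s)‖_p` is unbounded as `s → t₀-`, for every `1 ≤ p ≤ ∞`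
(with `3/∞ = 0`). -/
def NotTypeI (Ω : Set E3) (u : ℝ → E3 → E3) (t₀ : ℝ) : Prop :=
  ∀ p : ℝ≥0∞, 1 ≤ p → ∀ C η : ℝ, 0 < η → ∃ s ∈ Ioo (t₀ - η) t₀, 0 ≤ s ∧
    ENNReal.ofReal (C * (t₀ - s) ^ (-(1 - 3 / p.toReal) / 2)) < lpNorm Ω p (u s)

end Pool.Agent.Helper52.NSE
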