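import Pool.Agent.Helper52.NSE.Left
import Pool.Agent.Helper52.NSE.Count

/-!
Rates at a time at which the energy drops.
-/

open MeasureTheory Set Filter Topology Metric
open scoped ENNReal

namespace Pool.Agent.Helper52.NSE

variable {Ω : Set E3} {ν T : ℝ} {u₀ : E3 → E3} {f u : ℝ → E3 → E3} {G : ℝ → Fin 3 → E3 → E3}

theorem IsWeakSolution.liminf (h : IsWeakSolution Ω ν T u₀ f u G) {t₀ : ℝ} (h0 : 0 < t₀)
    (ht₀ : t₀ ≤ T) (c : ℝ) (hc : 0 < c) :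
    ∃ s, t₀ - c < s ∧ s < t₀ ∧ 0 ≤ s ∧ MemH1s Ω (u s) (G s) ∧
      (t₀ - s) * (1 + gsq Ω (G s)) < c := by
  by_contra hcon
  push Not at hcon
  obtain ⟨a, ha⟩ : ∃ a, a = max 0 (t₀ - c) := ⟨_, rfl⟩
  have ha0 : 0 ≤ a := ha ▸ le_max_left _ _
  have hac : t₀ - c ≤ a := ha ▸ le_max_right _ _
  have hat : a < t₀ := ha ▸ max_lt h0 (by linarith)
  have h1 : IntervalIntegrable (fun s : ℝ => (s - t₀)⁻¹) volume a t₀ := by
    rw [intervalIntegrable_iff_integrableOn_Ioc_of_le hat.le]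
    have h2 : IntegrableOn (fun s => c⁻¹ * (1 + gsq Ω (G s))) (Ioc a t₀) := by
      have h3 : IntegrableOn (fun s => gsq Ω (G s)) (Ioc a t₀) :=
        h.gsq_int.mono_set fun x hx => ⟨ha0.trans hx.1.le, hx.2.trans ht₀⟩
      have h4 : IntegrableOn (fun _ : ℝ => (1 : ℝ)) (Ioc a t₀) := by
        rw [integrableOn_const_iff]
        right
        exact measure_Ioc_lt_top
      exact (h4.add h3).const_mul _
    refine Integrable.mono' h2 (Measurable.aestronglyMeasurable (by fun_prop)) ?_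
    have h5 := ae_restrict_of_ae_restrict_of_subset
      (show Ioc a t₀ ⊆ Icc 0 T from fun x hx => ⟨ha0.trans hx.1.le, hx.2.trans ht₀⟩) h.grad_mem
    have h6 : ∀ᵐ x ∂(volume.restrict (Ioc a t₀)), x ≠ t₀ :=
      ae_restrict_of_ae (by simp [ae_iff])
    filter_upwards [h5, h6, ae_restrict_mem measurableSet_Ioc] with x h7 h8 h9
    have hx : x < t₀ := lt_of_le_of_ne h9.2 h8
    have h10 := hcon x (hac.trans_lt h9.1) hx (ha0.trans h9.1.le) h7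
    have h11 : 0 < t₀ - x := by linarith
    rw [norm_inv, Real.norm_eq_abs, abs_of_neg (by linarith), neg_sub, inv_mul_eq_div,
      inv_eq_one_div, div_le_div_iff₀ h11 hc]
    linarith
  rw [intervalIntegrable_sub_inv_iff] at h1
  rcases h1 with h1 | h1
  · exact hat.ne h1
  · exact h1 right_mem_uIcc

/-- The time of an energy drop from the left. -/
theorem IsWeakSolution.exists_drop (hΩ : IsSmoothBoundedDomain Ω) (hν : 0 < ν)
    (h : IsWeakSolution Ω ν T u₀ f u G) (hS : (irregular Ω ν T f u G).Countable)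
    (hstrict : ∃ t ∈ Icc 0 T, 0 < defect Ω ν f u G t) :
    ∃ t₀ ∈ irregular Ω ν T f u G, 0 < t₀ ∧
      (∃ η : ℝ, 0 < η ∧ ∀ s, t₀ - η < s → s < t₀ → 0 ≤ s →
        defect Ω ν f u G s + η < defect Ω ν f u G t₀) ∧
      ∀ p : ℝ≥0∞, 1 ≤ p → ∃ c : ℝ, 0 < c ∧
      ∀ s, t₀ - c < s → s < t₀ → 0 ≤ s → MemH1s Ω (u s) (G s) → ∀ U : ℝ, 0 ≤ U →
      eLpNorm (u s) p (volume.restrict Ω) ≤ ENNReal.ofReal U →
      c ≤ Real.sqrt ((t₀ - s) * (1 + gsq Ω (G s))) +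
        (t₀ - s) * (1 + gsq Ω (G s)) ^ ((1 + 3 / p.toReal) / 2) * U := by
  obtain ⟨t, ht, hpos⟩ := hstrict
  have hd0 : defect Ω ν f u G 0 = 0 := by
    unfold defect
    simp
  by_contra hcon
  have hle : ∀ t ∈ Icc 0 T, defect Ω ν f u G t ≤ defect Ω ν f u G 0 := by
    refine countable_lemma hS ?_ (fun x hx _ η hη => h.usc hx η hη) ?_
    · intro x hx hxS
      by_contra h1
      exact hxS ⟨hx, h1⟩
    · intro x hx hxS hx0
      by_contra h1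
      push Not at h1
      refine hcon ⟨x, hxS, hx0, ?_, fun p hp => ?_⟩
      · obtain ⟨η, hη, h2⟩ := h1
        exact ⟨η, hη, h2⟩
      by_contra h2
      obtain ⟨η, hη, h1⟩ := h1
      refine absurd (h.left_cond hΩ hν hx.2 hp (fun c hc => ?_) η hη) ?_
      · by_contra h3
        refine h2 ⟨c, hc, fun s hs1 hs2 hs3 hs4 U hU hUp => ?_⟩
        by_contra h4
        exact h3 ⟨s, hs1, hs2, hs3, hs4, U, hU, hUp, not_le.mp h4⟩
      · rintro ⟨s, hs1, hs2, hs3, hs4⟩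
        exact absurd hs4 (not_le.mpr (h1 s hs1 hs2 hs3))
  have := hle t ht
  linarith

theorem vol_pos (hΩ : IsSmoothBoundedDomain Ω) : 0 < (volume Ω).toReal := by
  refine ENNReal.toReal_pos ?_ ?_
  · exact (hΩ.isOpen.measure_pos volume hΩ.conn.nonempty).ne'
  · exact hΩ.bdd.measure_lt_top.ne

theorem rate_two (hΩ : IsSmoothBoundedDomain Ω) (hν : 0 < ν)
    (h : IsWeakSolution Ω ν T u₀ f u G) {t₀ : ℝ} (h0 : 0 < t₀) (ht₀ : t₀ ≤ T)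
    (hp : ∀ p : ℝ≥0∞, 1 ≤ p → ∃ c : ℝ, 0 < c ∧
      ∀ s, t₀ - c < s → s < t₀ → 0 ≤ s → MemH1s Ω (u s) (G s) → ∀ U : ℝ, 0 ≤ U →
      eLpNorm (u s) p (volume.restrict Ω) ≤ ENNReal.ofReal U →
      c ≤ Real.sqrt ((t₀ - s) * (1 + gsq Ω (G s))) +
        (t₀ - s) * (1 + gsq Ω (G s)) ^ ((1 + 3 / p.toReal) / 2) * U) :
    ∃ c : ℝ, 0 < c ∧ c ≤ t₀ ∧ ∀ s ∈ Ioo (t₀ - c) t₀, MemH1s Ω (u s) (G s) →
      c * (t₀ - s) ^ (-(4 / 5) : ℝ) ≤ diss Ω ν (G s) := by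
  obtain ⟨c, hc, hcs⟩ := hp 2 (by norm_num)
  obtain ⟨K, hK⟩ := h.bound
  obtain ⟨U, hU⟩ : ∃ U, U = Real.sqrt K := ⟨_, rfl⟩
  have hU0 : 0 ≤ U := hU ▸ Real.sqrt_nonneg _
  obtain ⟨a, ha⟩ : ∃ a, a = min 1 ((c / (2 * (1 + U))) ^ 2) := ⟨_, rfl⟩
  have ha0 : 0 < a := ha ▸ lt_min one_pos (by positivity)
  have ha1 : a ≤ 1 := ha ▸ min_le_left _ _
  have ha2 : Real.sqrt a ≤ c / (2 * (1 + U)) := by
    rw [Real.sqrt_le_left (by positivity)]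
    exact ha ▸ min_le_right _ _
  have hV := vol_pos hΩ
  have hlast : 0 < ν / (volume Ω).toReal * (a / 2) := by positivity
  have hap : 0 < (a / 2) ^ (5 / 4 : ℝ) := Real.rpow_pos_of_pos (by positivity) _
  obtain ⟨d, hd⟩ : ∃ d, d = min (min (min c 1) (min t₀ ((a / 2) ^ (5 / 4 : ℝ))))
    (ν / (volume Ω).toReal * (a / 2)) := ⟨_, rfl⟩
  have hd0 : 0 < d := hd ▸ lt_min (lt_min (lt_min hc one_pos) (lt_min h0 hap)) hlast
  have hdc : d ≤ c := hd ▸ ((min_le_left _ _).trans (min_le_left _ _)).trans (min_le_left _ _)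
  have hd1 : d ≤ 1 := hd ▸ ((min_le_left _ _).trans (min_le_left _ _)).trans (min_le_right _ _)
  have hdt : d ≤ t₀ := hd ▸ ((min_le_left _ _).trans (min_le_right _ _)).trans (min_le_left _ _)
  have hda : d ≤ (a / 2) ^ (5 / 4 : ℝ) :=
    hd ▸ ((min_le_left _ _).trans (min_le_right _ _)).trans (min_le_right _ _)
  have hdl : d ≤ ν / (volume Ω).toReal * (a / 2) := hd ▸ min_le_right _ _
  refine ⟨d, hd0, hdt, fun s hs hmem => ?_⟩
  have hs0 : 0 ≤ s := by linarith [hs.1]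
  have hsT : s ∈ Icc 0 T := ⟨hs0, hs.2.le.trans ht₀⟩
  obtain ⟨τ, hτ⟩ : ∃ τ, τ = t₀ - s := ⟨_, rfl⟩
  have hτ0 : 0 < τ := by rw [hτ]; linarith [hs.2]
  have hτd : τ < d := by rw [hτ]; linarith [hs.1]
  have hτ1 : τ ≤ 1 := by linarith
  obtain ⟨g, hg⟩ : ∃ g, g = 1 + gsq Ω (G s) := ⟨_, rfl⟩
  have hg1 : 1 ≤ g := by rw [hg]; linarith [gsq_nonneg Ω (G s)]
  have hUs : eLpNorm (u s) 2 (volume.restrict Ω) ≤ ENNReal.ofReal U := by
    rw [nm_eq (h.mem s hsT).memLp]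
    refine ENNReal.ofReal_le_ofReal ?_
    rw [hU]
    exact Real.sqrt_le_sqrt (hK s hsT)
  have h1 := hcs s (by linarith [hs.1]) hs.2 hs0 hmem U hU0 hUs
  rw [← hτ, ← hg] at h1
  have h2 : ((1 : ℝ) + 3 / (2 : ℝ≥0∞).toReal) / 2 = 5 / 4 := by norm_num
  rw [h2] at h1
  have hpw : 0 < τ ^ (-(4 / 5) : ℝ) := Real.rpow_pos_of_pos hτ0 _
  -- the lower bound of `g`
  have h3 : a * τ ^ (-(4 / 5) : ℝ) ≤ g := by
    by_contra h4
    rw [not_le] at h4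
    have e1 : τ * g ≤ a := by
      have e2 : τ * τ ^ (-(4 / 5) : ℝ) ≤ 1 := by
        have e3 : τ * τ ^ (-(4 / 5) : ℝ) = τ ^ (1 / 5 : ℝ) := by
          rw [show (1 / 5 : ℝ) = 1 + -(4 / 5) by norm_num, Real.rpow_add hτ0, Real.rpow_one]
        rw [e3]
        exact Real.rpow_le_one hτ0.le hτ1 (by norm_num)
      calc τ * g ≤ τ * (a * τ ^ (-(4 / 5) : ℝ)) := mul_le_mul_of_nonneg_left h4.le hτ0.le
        _ = a * (τ * τ ^ (-(4 / 5) : ℝ)) := by ring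
        _ ≤ a * 1 := mul_le_mul_of_nonneg_left e2 ha0.le
        _ = a := mul_one _
    have e4 : τ * g ^ (5 / 4 : ℝ) ≤ Real.sqrt a := by
      have e5 : g ^ (5 / 4 : ℝ) ≤ (a * τ ^ (-(4 / 5) : ℝ)) ^ (5 / 4 : ℝ) :=
        Real.rpow_le_rpow (by linarith) h4.le (by norm_num)
      rw [Real.mul_rpow ha0.le hpw.le, ← Real.rpow_mul hτ0.le,
        show (-(4 / 5) : ℝ) * (5 / 4) = -1 by norm_num, Real.rpow_neg_one] at e5
      have e6 : a ^ (5 / 4 : ℝ) ≤ Real.sqrt a := by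
        rw [Real.sqrt_eq_rpow]
        exact Real.rpow_le_rpow_of_exponent_ge ha0 ha1 (by norm_num)
      calc τ * g ^ (5 / 4 : ℝ) ≤ τ * (a ^ (5 / 4 : ℝ) * τ⁻¹) :=
            mul_le_mul_of_nonneg_left e5 hτ0.le
        _ = a ^ (5 / 4 : ℝ) := by field_simp
        _ ≤ _ := e6
    have e7 : Real.sqrt (τ * g) ≤ Real.sqrt a := Real.sqrt_le_sqrt e1
    have e8 : c ≤ Real.sqrt a * (1 + U) := by
      have := mul_le_mul_of_nonneg_right e4 hU0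
      linarith
    have e9 : Real.sqrt a * (1 + U) ≤ c / 2 := by
      calc Real.sqrt a * (1 + U) ≤ c / (2 * (1 + U)) * (1 + U) :=
            mul_le_mul_of_nonneg_right ha2 (by linarith)
        _ = c / 2 := by field_simp
    linarith
  have h5 : 1 ≤ a / 2 * τ ^ (-(4 / 5) : ℝ) := by
    have e1 : ((a / 2) ^ (5 / 4 : ℝ)) ^ (-(4 / 5) : ℝ) ≤ τ ^ (-(4 / 5) : ℝ) :=
      Real.rpow_le_rpow_of_nonpos hτ0 (hτd.le.trans hda) (by norm_num)
    rw [← Real.rpow_mul (by positivity), show (5 / 4 : ℝ) * (-(4 / 5)) = -1 by norm_num,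
      Real.rpow_neg_one] at e1
    calc (1 : ℝ) = a / 2 * (a / 2)⁻¹ := by field_simp
      _ ≤ _ := mul_le_mul_of_nonneg_left e1 (by positivity)
  have h6 : a / 2 * τ ^ (-(4 / 5) : ℝ) ≤ gsq Ω (G s) := by
    have : a * τ ^ (-(4 / 5) : ℝ) = a / 2 * τ ^ (-(4 / 5) : ℝ) + a / 2 * τ ^ (-(4 / 5) : ℝ) := by
      ring
    linarith
  have h7 : diss Ω ν (G s) = ν / (volume Ω).toReal * gsq Ω (G s) := rfl
  rw [h7, ← hτ]
  calc d * τ ^ (-(4 / 5) : ℝ) ≤ ν / (volume Ω).toReal * (a / 2) * τ ^ (-(4 / 5) : ℝ) :=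
        mul_le_mul_of_nonneg_right hdl hpw.le
    _ = ν / (volume Ω).toReal * (a / 2 * τ ^ (-(4 / 5) : ℝ)) := by ring
    _ ≤ _ := mul_le_mul_of_nonneg_left h6 (by positivity)

theorem rate_p (h : IsWeakSolution Ω ν T u₀ f u G) {t₀ : ℝ} (h0 : 0 < t₀)
    (ht₀ : t₀ ≤ T)
    (hp : ∀ p : ℝ≥0∞, 1 ≤ p → ∃ c : ℝ, 0 < c ∧
      ∀ s, t₀ - c < s → s < t₀ → 0 ≤ s → MemH1s Ω (u s) (G s) → ∀ U : ℝ, 0 ≤ U →
      eLpNorm (u s) p (volume.restrict Ω) ≤ ENNReal.ofReal U →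
      c ≤ Real.sqrt ((t₀ - s) * (1 + gsq Ω (G s))) +
        (t₀ - s) * (1 + gsq Ω (G s)) ^ ((1 + 3 / p.toReal) / 2) * U)
    (p : ℝ≥0∞) (hp1 : 1 ≤ p) (C η : ℝ) (hη : 0 < η) :
    ∃ s ∈ Ioo (t₀ - η) t₀, 0 ≤ s ∧ ENNReal.ofReal (C * (t₀ - s) ^ (-(1 - 3 / p.toReal) / 2)) <
      eLpNorm (u s) p (volume.restrict Ω) := by
  obtain ⟨c, hc, hcs⟩ := hp p hp1
  by_contra hcon
  push Not at hcon
  obtain ⟨q, hq⟩ : ∃ q, q = 3 / p.toReal := ⟨_, rfl⟩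
  have hq0 : 0 ≤ q := hq ▸ (div_nonneg (by norm_num) ENNReal.toReal_nonneg)
  obtain ⟨B, hB⟩ : ∃ B, B = max C 0 := ⟨_, rfl⟩
  have hB0 : 0 ≤ B := hB ▸ le_max_right _ _
  have hCB : C ≤ B := hB ▸ le_max_left _ _
  obtain ⟨d, hd⟩ : ∃ d, d = min (min η c) (min 1 ((c / (2 * (1 + B))) ^ 2)) := ⟨_, rfl⟩
  have hd0 : 0 < d := hd ▸ lt_min (lt_min hη hc) (lt_min one_pos (by positivity))
  have hdη : d ≤ η := hd ▸ (min_le_left _ _).trans (min_le_left _ _)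
  have hdc : d ≤ c := hd ▸ (min_le_left _ _).trans (min_le_right _ _)
  have hd1 : d ≤ 1 := hd ▸ (min_le_right _ _).trans (min_le_left _ _)
  have hd2 : d ≤ (c / (2 * (1 + B))) ^ 2 := hd ▸ (min_le_right _ _).trans (min_le_right _ _)
  obtain ⟨s, hs1, hs2, hs3, hmem, hsm⟩ := h.liminf h0 ht₀ d hd0
  have hτ0 : 0 < t₀ - s := by linarith
  have hUp := hcon s ⟨by linarith, hs2⟩ hs3
  have hpw : 0 ≤ (t₀ - s) ^ (-(1 - 3 / p.toReal) / 2) := Real.rpow_nonneg hτ0.le _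
  have h1 := hcs s (by linarith) hs2 hs3 hmem (B * (t₀ - s) ^ (-(1 - 3 / p.toReal) / 2))
    (mul_nonneg hB0 hpw)
    (hUp.trans (ENNReal.ofReal_le_ofReal (mul_le_mul_of_nonneg_right hCB hpw)))
  rw [← hq] at h1
  obtain ⟨τ, hτ⟩ : ∃ τ, τ = t₀ - s := ⟨_, rfl⟩
  obtain ⟨g, hg⟩ : ∃ g, g = 1 + gsq Ω (G s) := ⟨_, rfl⟩
  have hg1 : 1 ≤ g := by rw [hg]; linarith [gsq_nonneg Ω (G s)]
  rw [← hτ] at h1 hτ0 hsm
  rw [← hg] at h1 hsm
  have hx0 : 0 < τ * g := by positivity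
  have hx1 : τ * g ≤ 1 := by linarith
  have h2 : τ * g ^ ((1 + q) / 2) * (B * τ ^ (-(1 - q) / 2)) = B * (τ * g) ^ ((1 + q) / 2) := by
    rw [Real.mul_rpow hτ0.le (by linarith), show (1 + q) / 2 = 1 + -(1 - q) / 2 by ring,
      Real.rpow_add hτ0, Real.rpow_one]
    ring
  have h3 : (τ * g) ^ ((1 + q) / 2) ≤ Real.sqrt (τ * g) := by
    rw [Real.sqrt_eq_rpow]
    exact Real.rpow_le_rpow_of_exponent_ge hx0 hx1 (by linarith)
  rw [h2] at h1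
  have h4 : Real.sqrt (τ * g) ≤ c / (2 * (1 + B)) := by
    rw [Real.sqrt_le_left (by positivity)]
    linarith
  have h5 : c ≤ Real.sqrt (τ * g) * (1 + B) := by
    have := mul_le_mul_of_nonneg_left h3 hB0
    linarith
  have h6 : Real.sqrt (τ * g) * (1 + B) ≤ c / 2 := by
    calc Real.sqrt (τ * g) * (1 + B) ≤ c / (2 * (1 + B)) * (1 + B) :=
          mul_le_mul_of_nonneg_right h4 (by linarith)
      _ = c / 2 := by field_simp
  linarith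

end Pool.Agent.Helper52.NSE
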