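import Pool.Agent.Helper52.NSE.Defs

/-!
`L²` estimates for local averages.
-/

open MeasureTheory Set Filter Topology Metric
open scoped ENNReal

namespace Pool.Agent.Helper52.NSE

/-- volume of the unit ball -/
noncomputable def bv : ℝ := (volume (ball (0 : E3) 1)).toReal

theorem bv_nonneg : 0 ≤ bv := ENNReal.toReal_nonneg

theorem vol_closedBall (y : E3) {ρ : ℝ} (hρ : 0 ≤ ρ) :
    volume (closedBall y ρ) = ENNReal.ofReal (ρ ^ 3 * bv) := by
  rw [Measure.addHaar_closedBall _ _ hρ, ENNReal.ofReal_mul (by positivity)]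
  congr 1
  · simp
  · unfold bv
    rw [ENNReal.ofReal_toReal measure_ball_lt_top.ne]

theorem enn_sq_le {a b : ℝ≥0∞} (h : a ^ 2 ≤ b ^ 2) : a ≤ b := by
  rw [← ENNReal.rpow_natCast, ← ENNReal.rpow_natCast] at h
  exact (ENNReal.rpow_le_rpow_iff (by norm_num)).mp h

theorem enorm_sq_lint {α : Type*} [MeasurableSpace α] {μ : Measure α} {E : Type*}
    [NormedAddCommGroup E] (f : α → E) :
    eLpNorm f 2 μ ^ 2 = ∫⁻ x, ‖f x‖ₑ ^ 2 ∂μ := by
  rw [eLpNorm_eq_lintegral_rpow_enorm_toReal (by simp) (by simp)]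
  simp only [ENNReal.toReal_ofNat, one_div]
  rw [← ENNReal.rpow_natCast, ← ENNReal.rpow_mul]
  simp

/-- Cauchy-Schwarz on a set of finite measure -/
theorem sq_lint_le {α : Type*} [MeasurableSpace α] (μ : Measure α) {E : Type*}
    [NormedAddCommGroup E] {f : α → E} (hf : AEStronglyMeasurable f μ) :
    (∫⁻ x, ‖f x‖ₑ ∂μ) ^ 2 ≤ μ univ * ∫⁻ x, ‖f x‖ₑ ^ 2 ∂μ := by
  have h := eLpNorm_le_eLpNorm_mul_rpow_measure_univ (μ := μ) (f := f) (p := 1) (q := 2)
    (by norm_num) hf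
  rw [eLpNorm_one_eq_lintegral_enorm] at h
  have h2 := pow_le_pow_left' h 2
  rw [mul_pow, enorm_sq_lint] at h2
  refine h2.trans (le_of_eq ?_)
  rw [mul_comm]
  congr 1
  rw [← ENNReal.rpow_natCast, ← ENNReal.rpow_mul]
  norm_num

theorem ind_ball {ρ : ℝ} {x y : E3} : x ∈ closedBall y ρ ↔ x - y ∈ closedBall (0 : E3) ρ := by
  rw [mem_closedBall_zero_iff, ← dist_eq_norm]
  rfl

/-- Tonelli for local averages -/
theorem tonelli {ρ : ℝ} (hρ : 0 ≤ ρ) {g : E3 → ℝ≥0∞} (hg : AEMeasurable g volume) :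
    ∫⁻ y, ∫⁻ x in closedBall y ρ, g x = ENNReal.ofReal (ρ ^ 3 * bv) * ∫⁻ x, g x := by
  have e1 : ∀ y, ∫⁻ x in closedBall y ρ, g x =
      ∫⁻ x, (closedBall (0 : E3) ρ).indicator (fun _ => (1 : ℝ≥0∞)) (x - y) * g x := by
    intro y
    rw [← lintegral_indicator isClosed_closedBall.measurableSet]
    refine lintegral_congr fun x => ?_
    by_cases hx : x ∈ closedBall y ρ
    · rw [indicator_of_mem hx, indicator_of_mem (ind_ball.mp hx), one_mul]
    · rw [indicator_of_notMem hx, indicator_of_notMem (fun h => hx (ind_ball.mpr h)), zero_mul]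
  simp only [e1]
  have hk : Measurable ((closedBall (0 : E3) ρ).indicator (fun _ => (1 : ℝ≥0∞))) :=
    measurable_const.indicator isClosed_closedBall.measurableSet
  rw [lintegral_lintegral_swap]
  · rw [← lintegral_const_mul'' _ hg]
    refine lintegral_congr fun x => ?_
    have hm : Measurable fun y => (closedBall (0 : E3) ρ).indicator (fun _ => (1 : ℝ≥0∞))
        (x - y) := hk.comp (measurable_const.sub measurable_id)
    rw [lintegral_mul_const _ hm]
    congr 1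
    have e2 : ∫⁻ y, (closedBall (0 : E3) ρ).indicator (fun _ => (1 : ℝ≥0∞)) (x - y) =
        ∫⁻ y, (closedBall (0 : E3) ρ).indicator (fun _ => (1 : ℝ≥0∞)) y :=
      lintegral_sub_left_eq_self _ x
    rw [e2, lintegral_indicator isClosed_closedBall.measurableSet, lintegral_one,
      Measure.restrict_apply_univ, vol_closedBall 0 hρ]
  · refine AEMeasurable.mul ?_ ?_
    · exact (hk.comp (measurable_snd.sub measurable_fst)).aemeasurable
    · exact hg.comp_quasiMeasurePreserving Measure.quasiMeasurePreserving_snd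

/-- `L²` bound for functions controlled by local averages -/
theorem schur {ρ : ℝ} (hρ : 0 ≤ ρ) {w : E3 → E3} (hw : AEStronglyMeasurable w volume)
    {F : E3 → E3} {B : ℝ≥0∞} (hB : B ≠ ∞)
    (hF : ∀ y, ‖F y‖ₑ ≤ B * ∫⁻ x in closedBall y ρ, ‖w x‖ₑ) :
    eLpNorm F 2 volume ≤ B * ENNReal.ofReal (ρ ^ 3 * bv) * eLpNorm w 2 volume := by
  set v := ENNReal.ofReal (ρ ^ 3 * bv) with hv
  have hv0 : v ≠ ∞ := ENNReal.ofReal_ne_top
  have h1 : ∀ y, ‖F y‖ₑ ^ 2 ≤ (B ^ 2 * v) * ∫⁻ x in closedBall y ρ, ‖w x‖ₑ ^ 2 := by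
    intro y
    refine (pow_le_pow_left' (hF y) 2).trans ?_
    rw [mul_pow, mul_assoc]
    refine mul_le_mul_right (le_trans (sq_lint_le _ hw.restrict) ?_) _
    rw [Measure.restrict_apply_univ, vol_closedBall y hρ]
  have hmeas : AEMeasurable (fun x => ‖w x‖ₑ ^ 2) volume := hw.enorm.pow_const 2
  refine enn_sq_le ?_
  rw [enorm_sq_lint, mul_pow, mul_pow, enorm_sq_lint]
  refine (lintegral_mono h1).trans (le_of_eq ?_)
  rw [lintegral_const_mul' _ _ (ENNReal.mul_ne_top (ENNReal.pow_ne_top hB) hv0), tonelli hρ hmeas]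
  ring

/-- translation estimate -/
theorem translate {φ : E3 → E3} (hφ : ContDiff ℝ 1 φ) (h : E3) :
    ∫⁻ y, ‖φ (y + h) - φ y‖ₑ ^ 2 ≤ ‖h‖ₑ ^ 2 * ∫⁻ y, ‖fderiv ℝ φ y‖ₑ ^ 2 := by
  have hd : Continuous (fderiv ℝ φ) := hφ.continuous_fderiv one_ne_zero
  have h1 : ∀ y, φ (y + h) - φ y = ∫ t in (0 : ℝ)..1, fderiv ℝ φ (y + t • h) h := by
    intro y
    have h2 : ∀ t ∈ uIcc (0 : ℝ) 1, HasDerivAt (fun t : ℝ => φ (y + t • h))
        (fderiv ℝ φ (y + t • h) h) t := by
      intro t _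
      have e1 : HasDerivAt (fun t : ℝ => y + t • h) h t := by
        simpa using ((hasDerivAt_id t).smul_const h).const_add y
      exact ((hφ.differentiable one_ne_zero _).hasFDerivAt).comp_hasDerivAt t e1
    have h3 := intervalIntegral.integral_eq_sub_of_hasDerivAt h2
      (Continuous.intervalIntegrable (by fun_prop) _ _)
    rw [h3]
    simp
  have h2 : ∀ y, ‖φ (y + h) - φ y‖ₑ ^ 2 ≤
      ‖h‖ₑ ^ 2 * ∫⁻ t in Ioc (0 : ℝ) 1, ‖fderiv ℝ φ (y + t • h)‖ₑ ^ 2 := by
    intro y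
    have hc : Continuous fun t : ℝ => fderiv ℝ φ (y + t • h) := by fun_prop
    have h3 : ‖φ (y + h) - φ y‖ₑ ≤ ∫⁻ t in Ioc (0 : ℝ) 1, ‖fderiv ℝ φ (y + t • h)‖ₑ * ‖h‖ₑ := by
      rw [h1, intervalIntegral.integral_of_le zero_le_one]
      refine (enorm_integral_le_lintegral_enorm _).trans (lintegral_mono fun t => ?_)
      exact ContinuousLinearMap.le_opENorm _ _
    rw [lintegral_mul_const' _ _ enorm_ne_top, mul_comm] at h3
    refine (pow_le_pow_left' h3 2).trans ?_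
    rw [mul_pow]
    refine mul_le_mul_right ?_ _
    have h4 := sq_lint_le (volume.restrict (Ioc (0 : ℝ) 1)) (f := fun t : ℝ =>
      fderiv ℝ φ (y + t • h)) hc.aestronglyMeasurable
    refine h4.trans (le_of_eq ?_)
    simp
  refine (lintegral_mono h2).trans ?_
  rw [lintegral_const_mul' _ _ (ENNReal.pow_ne_top enorm_ne_top)]
  refine mul_le_mul_right ?_ _
  rw [lintegral_lintegral_swap]
  · have h5 : ∀ t : ℝ, ∫⁻ y, ‖fderiv ℝ φ (y + t • h)‖ₑ ^ 2 = ∫⁻ y, ‖fderiv ℝ φ y‖ₑ ^ 2 :=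
      fun t => lintegral_add_right_eq_self (fun y => ‖fderiv ℝ φ y‖ₑ ^ 2) (t • h)
    simp only [h5]
    rw [lintegral_const]
    simp
  · refine Measurable.aemeasurable ?_
    refine Measurable.pow_const ?_ 2
    refine Continuous.measurable ?_
    exact (hd.comp (by fun_prop : Continuous fun q : E3 × ℝ => q.1 + q.2 • h)).enorm

/-- `L²` bound for functions controlled by local averages of differences -/
theorem diffs {ρ : ℝ} (hρ : 0 ≤ ρ) {φ : E3 → E3} (hφ : ContDiff ℝ 1 φ)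
    {F : E3 → E3} {B : ℝ≥0∞} (hB : B ≠ ∞)
    (hF : ∀ y, ‖F y‖ₑ ≤ B * ∫⁻ x in closedBall y ρ, ‖φ x - φ y‖ₑ) :
    eLpNorm F 2 volume ≤
      B * ENNReal.ofReal (ρ ^ 3 * bv) * (ENNReal.ofReal ρ * eLpNorm (fderiv ℝ φ) 2 volume) := by
  set v := ENNReal.ofReal (ρ ^ 3 * bv) with hv
  have hv0 : v ≠ ∞ := ENNReal.ofReal_ne_top
  have h1 : ∀ y, ‖F y‖ₑ ^ 2 ≤ (B ^ 2 * v) * ∫⁻ x in closedBall y ρ, ‖φ x - φ y‖ₑ ^ 2 := by
    intro y
    refine (pow_le_pow_left' (hF y) 2).trans ?_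
    rw [mul_pow, mul_assoc]
    refine mul_le_mul_right (le_trans (sq_lint_le _ ?_) ?_) _
    · exact (hφ.continuous.sub continuous_const).aestronglyMeasurable
    rw [Measure.restrict_apply_univ, vol_closedBall y hρ]
  have h2 : ∀ y, ∫⁻ x in closedBall y ρ, ‖φ x - φ y‖ₑ ^ 2 =
      ∫⁻ h in closedBall (0 : E3) ρ, ‖φ (y + h) - φ y‖ₑ ^ 2 := by
    intro y
    rw [← lintegral_indicator isClosed_closedBall.measurableSet,
      ← lintegral_indicator isClosed_closedBall.measurableSet,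
      ← lintegral_add_left_eq_self _ y]
    refine lintegral_congr fun x => ?_
    have hx : y + x ∈ closedBall y ρ ↔ x ∈ closedBall (0 : E3) ρ := by
      rw [ind_ball]
      simp
    by_cases h : x ∈ closedBall (0 : E3) ρ
    · rw [indicator_of_mem h, indicator_of_mem (hx.mpr h)]
    · rw [indicator_of_notMem h, indicator_of_notMem (fun h' => h (hx.mp h'))]
  have h3 : ∫⁻ y, ∫⁻ h in closedBall (0 : E3) ρ, ‖φ (y + h) - φ y‖ₑ ^ 2 ≤
      v * ((ENNReal.ofReal ρ) ^ 2 * ∫⁻ y, ‖fderiv ℝ φ y‖ₑ ^ 2) := by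
    rw [lintegral_lintegral_swap]
    · have h4 : ∫⁻ h in closedBall (0 : E3) ρ, ∫⁻ y, ‖φ (y + h) - φ y‖ₑ ^ 2 ≤
          ∫⁻ _ in closedBall (0 : E3) ρ, ((ENNReal.ofReal ρ) ^ 2 * ∫⁻ y, ‖fderiv ℝ φ y‖ₑ ^ 2) := by
        refine setLIntegral_mono' isClosed_closedBall.measurableSet fun h hh => ?_
        refine (translate hφ h).trans (mul_le_mul_left (pow_le_pow_left' ?_ 2) _)
        rw [mem_closedBall_zero_iff] at hh
        rw [← ofReal_norm]
        exact ENNReal.ofReal_le_ofReal hh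
      refine h4.trans (le_of_eq ?_)
      rw [setLIntegral_const, vol_closedBall 0 hρ, mul_comm]
    · refine Measurable.aemeasurable ?_
      refine Measurable.pow_const ?_ 2
      refine Continuous.measurable ?_
      have := hφ.continuous
      exact ((this.comp (continuous_fst.add continuous_snd)).sub (this.comp continuous_fst)).enorm
  refine enn_sq_le ?_
  rw [enorm_sq_lint, mul_pow, mul_pow, mul_pow, enorm_sq_lint]
  refine (lintegral_mono h1).trans ?_
  rw [lintegral_const_mul' _ _ (ENNReal.mul_ne_top (ENNReal.pow_ne_top hB) hv0)]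
  simp only [h2]
  refine (mul_le_mul_right h3 _).trans (le_of_eq ?_)
  ring

/-- Hölder's inequality for local averages -/
theorem holder {ρ : ℝ} (hρ : 0 ≤ ρ) {w : E3 → E3} (hw : AEStronglyMeasurable w volume)
    {p : ℝ≥0∞} (hp : 1 ≤ p) (y : E3) :
    ∫⁻ x in closedBall y ρ, ‖w x‖ₑ ≤
      eLpNorm w p volume * ENNReal.ofReal (ρ ^ 3 * bv) ^ (1 - 1 / p.toReal) := by
  have h := eLpNorm_le_eLpNorm_mul_rpow_measure_univ (μ := volume.restrict (closedBall y ρ))
    (f := w) (p := 1) (q := p) hp hw.restrict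
  rw [eLpNorm_one_eq_lintegral_enorm, Measure.restrict_apply_univ, vol_closedBall y hρ] at h
  simp only [ENNReal.toReal_one, div_one] at h
  refine h.trans (mul_le_mul_left (eLpNorm_mono_measure _ Measure.restrict_le_self) _)

end Pool.Agent.Helper52.NSE
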