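import Pool.Agent.Helper52.NSE.Est
import Pool.Agent.Helper52.NSE.Geom

/-!
Smoothing of solenoidal fields in a smooth bounded domain.
-/

open MeasureTheory Set Filter Topology Metric
open scoped ENNReal

namespace Pool.Agent.Helper52.NSE

theorem le_of_eps {a X D : ℝ≥0∞} (hD : D ≠ ⊤) (h : ∀ ε : ℝ≥0∞, 0 < ε → a ≤ X + D * ε) :
    a ≤ X := by
  refine ENNReal.le_of_forall_pos_le_add fun ε hε _ => ?_
  have hε' : (ε : ℝ≥0∞) ≠ 0 := by exact_mod_cast hε.ne'
  have h1 := h (ε / (D + 1)) (ENNReal.div_pos hε' (by finiteness))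
  refine h1.trans (add_le_add le_rfl ?_)
  have h2 : D * (ε / (D + 1)) ≤ (D + 1) * (ε / (D + 1)) := mul_le_mul_left le_self_add _
  refine h2.trans (le_of_eq ?_)
  exact ENNReal.mul_div_cancel (by simp) (by finiteness)

theorem fderiv_le_sum (φ : E3 → E3) (x : E3) : ‖fderiv ℝ φ x‖ ≤ ∑ i, ‖pd φ i x‖ := by
  refine ContinuousLinearMap.opNorm_le_bound _ (Finset.sum_nonneg fun i _ => norm_nonneg _)
    fun v => ?_
  conv_lhs => rw [ei_sum v]
  rw [map_sum, Finset.sum_mul]
  refine (norm_sum_le _ _).trans (Finset.sum_le_sum fun i _ => ?_)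
  rw [map_smul, norm_smul, mul_comm]
  refine mul_le_mul_of_nonneg_left ?_ (norm_nonneg _)
  exact PiLp.norm_apply_le v i

section

variable {V : E3 → E3} {M L : ℝ} (hV : PushData V M L) {δ : ℝ}

include hV

theorem Psi_integrable (hδ : 0 < δ) (hδ1 : δ ≤ 1) {w : E3 → E3} (hw : Integrable w volume)
    (y : E3) : Integrable (fun x => eta δ (y - Tm V δ x) • lift V δ w x) volume := by
  obtain ⟨B, -, hB, -⟩ := exists_B
  have hl := lift_integrable hV hδ hδ1 hw
  have hcT : Continuous (Tm V δ) := (Tm_contDiff hV).continuous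
  have hce : Continuous (eta δ) := eta_contDiff.continuous
  refine (hl.norm.const_mul (B * (δ ^ 3)⁻¹)).mono'
      (((hce.comp (continuous_const.sub hcT)).aestronglyMeasurable).smul hl.1)
      (Eventually.of_forall fun x => ?_)
  rw [norm_smul]
  exact mul_le_mul_of_nonneg_right (eta_bound hδ hB _) (norm_nonneg _)

theorem Psi_add (hδ : 0 < δ) (hδ1 : δ ≤ 1) {w v : E3 → E3} (hw : Integrable w volume)
    (hv : Integrable v volume) (y : E3) :
    Psi V δ w y = Psi V δ (fun x => w x - v x) y + Psi V δ v y := by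
  unfold Psi
  have hwv : Integrable (fun x => w x - v x) volume := hw.sub hv
  rw [← integral_add (Psi_integrable hV hδ hδ1 hwv y) (Psi_integrable hV hδ hδ1 hv y)]
  refine integral_congr_ae (Eventually.of_forall fun x => ?_)
  simp only [lift]
  rw [← smul_add, map_sub]
  congr 1
  rw [smul_sub]
  abel

end

/-- Smoothing of the elements of `H¹_{0,σ}`. -/
theorem smoothing {Ω : Set E3} (hΩ : IsSmoothBoundedDomain Ω) :
    ∃ C δ₀ : ℝ, 0 < C ∧ 0 < δ₀ ∧ ∀ (w : E3 → E3) (G : Fin 3 → E3 → E3), MemH1s Ω w G →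
      ∀ δ, 0 < δ → δ ≤ δ₀ → ∃ ψ, TestField Ω ψ ∧
        eLpNorm (fun x => w x - ψ x) 2 (volume.restrict Ω) ≤ ENNReal.ofReal (C * δ) *
          (eLpNorm w 2 (volume.restrict Ω) + ∑ i, eLpNorm (G i) 2 (volume.restrict Ω)) ∧
        (∀ i, eLpNorm (pd ψ i) 2 (volume.restrict Ω) ≤
          ENNReal.ofReal (C * δ⁻¹) * eLpNorm w 2 (volume.restrict Ω)) ∧
        (∀ p : ℝ≥0∞, 1 ≤ p → ∀ i y, ‖pd ψ i y‖ₑ ≤ ENNReal.ofReal (C * δ ^ (-1 - 3 / p.toReal)) *
          eLpNorm w p (volume.restrict Ω)) ∧
        eLpNorm ψ 2 (volume.restrict Ω) ≤ ENNReal.ofReal C * eLpNorm w 2 (volume.restrict Ω) := by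
  have hO := hΩ.isOpen
  have hb := hΩ.bdd
  have hfin : IsFiniteMeasure (volume.restrict Ω) := ⟨by
    rw [Measure.restrict_apply_univ]
    exact hb.measure_lt_top⟩
  obtain ⟨V, hVs, hVc, δ₀, hδ₀, hpush⟩ := exists_push hΩ
  obtain ⟨M, L, hV⟩ := exists_pushData hVs hVc
  obtain ⟨B, hB0, hB, hB'⟩ := exists_B
  have hL := hV.L0
  have hM := hV.M0
  have hbv := bv_nonneg
  set A := (M + 1) ^ 3 * bv with hA
  have hA0 : 0 ≤ A := by positivity
  set C := 2 * (B * (1 + L) * (1 + A) * (M + 1)) with hC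
  have hC0 : 0 < C := by positivity
  have hC1 : B * (1 + L) * A ≤ C := by
    have h1 : B * (1 + L) * A ≤ B * (1 + L) * (1 + A) :=
      mul_le_mul_of_nonneg_left (by linarith) (by positivity)
    have h2 : 0 ≤ B * (1 + L) * (1 + A) := by positivity
    nlinarith
  have hC2 : B * (1 + L) * (1 + A) ≤ C := by
    have h2 : 0 ≤ B * (1 + L) * (1 + A) := by positivity
    nlinarith
  have hC3 : B * A * (M + 1) ≤ C := by
    have h1 : B * A * (M + 1) ≤ B * (1 + L) * (1 + A) * (M + 1) := by
      refine mul_le_mul_of_nonneg_right ?_ (by linarith)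
      nlinarith [mul_nonneg hB0.le hL, mul_nonneg (mul_nonneg hB0.le hL) hA0]
    have h2 : 0 ≤ B * (1 + L) * (1 + A) * (M + 1) := by positivity
    linarith
  have hC4 : B * L * A + B * L * (M + 1) * A ≤ C := by
    have h0 : B * L * A ≤ B * (1 + L) * (1 + A) * (M + 1) := by
      have h1 : B * L * A ≤ B * (1 + L) * (1 + A) := by
        nlinarith [mul_nonneg hB0.le hL, mul_nonneg hB0.le hA0]
      have h2 : 0 ≤ B * (1 + L) * (1 + A) := by positivity
      nlinarith
    have h3 : B * L * (M + 1) * A ≤ B * (1 + L) * (1 + A) * (M + 1) := by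
      have h1 : B * L * A ≤ B * (1 + L) * (1 + A) := by
        nlinarith [mul_nonneg hB0.le hL, mul_nonneg hB0.le hA0]
      have := mul_le_mul_of_nonneg_right h1 (by linarith : 0 ≤ M + 1)
      nlinarith
    linarith
  refine ⟨C, min (min δ₀ 1) (1 / (2 * (L + 1))), hC0, by positivity, ?_⟩
  intro w G hw δ hδ hδ'
  have hδa : δ ≤ δ₀ := hδ'.trans ((min_le_left _ _).trans (min_le_left _ _))
  have hδ1 : δ ≤ 1 := hδ'.trans ((min_le_left _ _).trans (min_le_right _ _))
  have hδL : δ * L ≤ 1 / 2 := by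
    have h1 := hδ'.trans (min_le_right _ _)
    rw [le_div_iff₀ (by positivity)] at h1
    nlinarith
  obtain ⟨K, hK, hKΩ, hK2⟩ := hpush δ hδ hδa
  have hw2 : MemL2s Ω w := hw.toL2
  have hwint : Integrable (Ω.indicator w) volume :=
    (integrable_indicator_iff hO.measurableSet).mpr (hw2.memLp.integrable (by norm_num))
  have hwn : ∀ p : ℝ≥0∞, eLpNorm (Ω.indicator w) p volume = eLpNorm w p (volume.restrict Ω) :=
    fun p => eLpNorm_indicator_eq_eLpNorm_restrict hO.measurableSet
  refine ⟨Psi V δ (Ω.indicator w), Psi_test hV hO hb hw2 hδ hδ1 hδL hK hKΩ hK2, ?_, ?_, ?_, ?_⟩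
  · -- approximation
    set N := eLpNorm w 2 (volume.restrict Ω) with hN
    set D : ℝ≥0∞ := 1 + ENNReal.ofReal (B * (1 + L) * A) + 4 * ENNReal.ofReal (C * δ) with hD
    have hD' : D ≠ ⊤ := by finiteness
    refine le_of_eps hD' fun ε hε => ?_
    obtain ⟨φ, hφ, h1, h2⟩ := hw.2.2 ε hε
    have hφint : Integrable φ volume := memLp_one_iff_integrable.mp (hφ.memLp volume 1)
    have hφ1 : ContDiff ℝ 1 φ := hφ.smooth.of_le (by simp)
    have hφm : AEStronglyMeasurable φ (volume.restrict Ω) :=
      hφ.smooth.continuous.aestronglyMeasurable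
    have hφind : Ω.indicator φ = φ := by
      rw [indicator_eq_self]
      exact (subset_tsupport φ).trans hφ.supp
    have hφn : eLpNorm φ 2 volume ≤ N + ε := by
      rw [← hφind, eLpNorm_indicator_eq_eLpNorm_restrict hO.measurableSet]
      have e1 : φ = fun x => w x - (w x - φ x) := by funext x; abel
      rw [e1]
      refine (eLpNorm_sub_le hw.1 (hw.1.sub hφm) (by norm_num)).trans ?_
      exact add_le_add le_rfl h1.le
    have hpn : ∀ i, eLpNorm (pd φ i) 2 volume ≤ eLpNorm (G i) 2 (volume.restrict Ω) + ε := by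
      intro i
      have e0 : Ω.indicator (pd φ i) = pd φ i := by
        rw [indicator_eq_self]
        refine (subset_tsupport _).trans (Subset.trans ?_ hφ.supp)
        exact tsupport_fderiv_apply_subset ℝ _
      rw [← e0, eLpNorm_indicator_eq_eLpNorm_restrict hO.measurableSet]
      have e1 : pd φ i = fun x => G i x - (G i x - pd φ i x) := by funext x; abel
      rw [e1]
      refine (eLpNorm_sub_le (hw.2.1 i) ((hw.2.1 i).sub (hφ.pd_cont i).aestronglyMeasurable)
        (by norm_num)).trans ?_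
      exact add_le_add le_rfl (h2 i).le
    have hDφ : eLpNorm (fderiv ℝ φ) 2 volume ≤
        ∑ i, (eLpNorm (G i) 2 (volume.restrict Ω) + ε) := by
      have e1 : eLpNorm (fderiv ℝ φ) 2 volume ≤
          eLpNorm (∑ i, fun x => ‖pd φ i x‖) 2 volume := by
        refine eLpNorm_mono_real fun x => ?_
        rw [Finset.sum_apply]
        exact fderiv_le_sum φ x
      refine e1.trans ((eLpNorm_sum_le (fun i _ => (hφ.pd_cont i).norm.aestronglyMeasurable)
        (by norm_num)).trans (Finset.sum_le_sum fun i _ => ?_))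
      rw [eLpNorm_norm]
      exact hpn i
    -- the three pieces
    have hsplit : (fun x => w x - Psi V δ (Ω.indicator w) x) =ᵐ[volume.restrict Ω]
        fun x => (w x - φ x) - (Psi V δ φ x - φ x) -
          Psi V δ (fun x => Ω.indicator w x - φ x) x := by
      refine Eventually.of_forall fun x => ?_
      simp only []
      rw [Psi_add hV hδ hδ1 hwint hφint x]
      abel
    rw [eLpNorm_congr_ae hsplit]
    have hdm : AEStronglyMeasurable (fun x => Ω.indicator w x - φ x) volume :=
      (hwint.sub hφint).1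
    have hdint : Integrable (fun x => Ω.indicator w x - φ x) volume := hwint.sub hφint
    have hPm : AEStronglyMeasurable (Psi V δ (fun x => Ω.indicator w x - φ x))
        (volume.restrict Ω) := (Psi_contDiff hV hδ hδ1 hδL hdint).continuous.aestronglyMeasurable
    have hPφ : AEStronglyMeasurable (fun x => Psi V δ φ x - φ x) (volume.restrict Ω) :=
      ((Psi_contDiff hV hδ hδ1 hδL hφint).continuous.sub
        hφ.smooth.continuous).aestronglyMeasurable
    have hp1 : eLpNorm (Psi V δ (fun x => Ω.indicator w x - φ x)) 2 (volume.restrict Ω) ≤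
        ENNReal.ofReal (B * (1 + L) * A) * ε := by
      refine (eLpNorm_mono_measure _ Measure.restrict_le_self).trans
        ((Psi_L2 hV hδ hδ1 hB hdm).trans (mul_le_mul_right ?_ _))
      have e1 : (fun x => Ω.indicator w x - φ x) = Ω.indicator fun x => w x - φ x := by
        funext x
        by_cases hx : x ∈ Ω
        · rw [indicator_of_mem hx, indicator_of_mem hx]
        · rw [indicator_of_notMem hx, indicator_of_notMem hx]
          have : φ x = 0 := image_eq_zero_of_notMem_tsupport fun h => hx (hφ.supp h)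
          rw [this, sub_zero]
      rw [e1, eLpNorm_indicator_eq_eLpNorm_restrict hO.measurableSet]
      exact h1.le
    have hp2 : eLpNorm (fun x => Psi V δ φ x - φ x) 2 (volume.restrict Ω) ≤
        ENNReal.ofReal (C * δ) * (N + ∑ i, eLpNorm (G i) 2 (volume.restrict Ω)) +
          4 * ENNReal.ofReal (C * δ) * ε := by
      refine (eLpNorm_mono_measure _ Measure.restrict_le_self).trans
        ((Psi_sub hV hδ hδ1 hB hB' hφ1 hφ.compact).trans ?_)
      rw [add_assoc, ← add_mul, ← ENNReal.ofReal_add (by positivity) (by positivity)]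
      have i1 : ENNReal.ofReal (B * A * (M + 1) * δ) ≤ ENNReal.ofReal (C * δ) :=
        ENNReal.ofReal_le_ofReal (mul_le_mul_of_nonneg_right hC3 hδ.le)
      have i2 : ENNReal.ofReal (B * L * A * δ + B * L * (M + 1) * A * δ) ≤
          ENNReal.ofReal (C * δ) := by
        refine ENNReal.ofReal_le_ofReal ?_
        rw [← add_mul]
        exact mul_le_mul_of_nonneg_right hC4 hδ.le
      refine (add_le_add (mul_le_mul' i1 hDφ) (mul_le_mul' i2 hφn)).trans (le_of_eq ?_)
      rw [Finset.sum_add_distrib]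
      simp only [Finset.sum_const, Finset.card_univ, Fintype.card_fin, nsmul_eq_mul]
      push_cast
      ring
    refine (eLpNorm_sub_le ((hw.1.sub hφm).sub hPφ) hPm (by norm_num)).trans ?_
    refine (add_le_add (eLpNorm_sub_le (hw.1.sub hφm) hPφ (by norm_num)) hp1).trans ?_
    refine (add_le_add (add_le_add h1.le hp2) le_rfl).trans (le_of_eq ?_)
    rw [hD]
    ring
  · intro i
    refine (eLpNorm_mono_measure _ Measure.restrict_le_self).trans
      ((pd_L2 hV hδ hδ1 hB' hwint i).trans ?_)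
    rw [hwn]
    exact mul_le_mul_left (ENNReal.ofReal_le_ofReal
      (mul_le_mul_of_nonneg_right hC1 (by positivity))) _
  · intro p hp i y
    refine (pd_sup hV hδ hδ1 hB' hwint hp i y).trans ?_
    rw [hwn]
    exact mul_le_mul_left (ENNReal.ofReal_le_ofReal
      (mul_le_mul_of_nonneg_right hC2 (Real.rpow_nonneg hδ.le _))) _
  · refine (eLpNorm_mono_measure _ Measure.restrict_le_self).trans
      ((Psi_L2 hV hδ hδ1 hB hwint.1).trans ?_)
    rw [hwn]
    exact mul_le_mul_left (ENNReal.ofReal_le_ofReal hC1) _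

end Pool.Agent.Helper52.NSE
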